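import Pool.Agent.VD.Defs
import Pool.Agent.VS.Hty
/-!
# The product of an acyclic complex with itself is acyclic
-/
namespace Pool.Agent.VD
open Pool.Agent.SLX Pool.Agent.VN Pool.Agent.VS

/-- The graded version of acyclicity. -/
theorem pr_graded {V : Type} (X : Set (Finset V))
    (hac : ∀ c : FCh V, (∀ σ ∈ c.support, σ ∈ X) → fbd c = 0 →
      ∃ e : FCh V, (∀ σ ∈ e.support, σ ∈ X) ∧ fbd e = c) (k : ℕ)
    (c : FCh V) (hc : c ∈ On (fun σ : Finset V => σ.card = k ∧ σ ∈ X)) (h : fbd c = 0) :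
    ∃ e ∈ On (fun σ : Finset V => σ.card = k + 1 ∧ σ ∈ X), fbd e = c := by
  classical
  obtain ⟨e, he, hec⟩ := hac c (fun σ hσ => (on_iff.1 hc σ hσ).2) h
  set e1 := e.filter (fun σ => σ.card = k + 1) with he1
  set e2 := e.filter (fun σ => ¬ σ.card = k + 1) with he2
  have hsum : e1 + e2 = e := Finsupp.filter_add_filter_not e _
  have h1 : e1 ∈ On (fun σ : Finset V => σ.card = k + 1 ∧ σ ∈ X) := by
    rw [on_iff]
    intro σ hσ
    rw [he1, Finsupp.support_filter, Finset.mem_filter] at hσ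
    exact ⟨hσ.2, he σ hσ.1⟩
  have h2 : e2 ∈ On (fun σ : Finset V => ¬ σ.card = k + 1) := by
    rw [on_iff]
    intro σ hσ
    rw [he2, Finsupp.support_filter, Finset.mem_filter] at hσ
    exact hσ.2
  have h3 : fbd e1 ∈ On (fun σ : Finset V => σ.card = k) :=
    fbd_on (fun σ τ hσ _ hc => by have := hσ.1; omega) h1
  have h4 : fbd e2 ∈ On (fun σ : Finset V => ¬ σ.card = k) :=
    fbd_on (fun σ τ hσ _ hc => by omega) h2
  have h5 : fbd e2 = c + fbd e1 := by
    have h6 : fbd e1 + fbd e2 = c := by rw [← map_add, hsum, hec]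
    rw [← h6, add_comm (fbd e1 + fbd e2), ← add_assoc, fadd_self, zero_add]
  have h8 : fbd e2 ∈ On (fun σ : Finset V => σ.card = k) := by
    rw [h5]
    exact Submodule.add_mem _ (on_mono (fun σ hσ => hσ.1) hc) h3
  have h6 : fbd e2 = 0 := by
    ext τ
    by_contra hne
    have h9 := Finsupp.mem_support_iff.2 hne
    exact on_iff.1 h4 τ h9 (on_iff.1 h8 τ h9)
  refine ⟨e1, h1, ?_⟩
  rw [← hec, ← hsum, map_add, h6, add_zero]

private theorem pr_x2 {V : Type} (X : Set (Finset V)) (hd : ∀ σ ∈ X, ∀ τ, τ ⊆ σ → τ ∈ X)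
    (τ : Finset (V × V)) : X2 X τ ↔
      (∃ σ ∈ X, ∀ p ∈ τ, p.1 ∈ σ) ∧ ∃ σ ∈ X, ∀ p ∈ τ, p.2 ∈ σ := by
  classical
  constructor
  · rintro ⟨h1, h2⟩
    exact ⟨⟨_, h1, fun p hp => Finset.mem_image_of_mem _ hp⟩,
      ⟨_, h2, fun p hp => Finset.mem_image_of_mem _ hp⟩⟩
  · rintro ⟨⟨σ, h1, h2⟩, σ', h3, h4⟩
    exact ⟨hd σ h1 _ (Finset.image_subset_iff.2 h2), hd σ' h3 _ (Finset.image_subset_iff.2 h4)⟩

/-- The carrier of the fibre over a simplex. -/
private def Car {V : Type} (X : Set (Finset V)) (σ : Finset V) (k : ℕ) (υ : Finset (V × V)) :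
    Prop :=
  υ.card = k ∧ (∀ p ∈ υ, p.1 ∈ σ) ∧ ∃ σ' ∈ X, ∀ p ∈ υ, p.2 ∈ σ'

private theorem pr_hty_zero {V : Type} {z : FCh V} (f g : V → V)
    (H : FCh V →ₗ[ZMod 2] FCh V) (h : ∀ c, fbd (H c) = fmap f c + fmap g c + H (fbd c))
    (hz : fbd z = 0) : fbd (H z) = fmap f z + fmap g z := by
  rw [h, hz, map_zero, add_zero]

private theorem pr_fibre {V : Type} (X : Set (Finset V))
    (hd : ∀ σ ∈ X, ∀ τ, τ ⊆ σ → τ ∈ X)
    (hac : ∀ c : FCh V, (∀ σ ∈ c.support, σ ∈ X) → fbd c = 0 →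
      ∃ e : FCh V, (∀ σ ∈ e.support, σ ∈ X) ∧ fbd e = c)
    (σ : Finset V) (x0 : V) (hx0 : x0 ∈ σ) (k : ℕ) (z : FCh (V × V))
    (hz : z ∈ On (Car X σ k)) (hc : fbd z = 0) :
    ∃ y ∈ On (Car X σ (k + 1)), fbd y = z := by
  classical
  have hz2 : fmap Prod.snd z ∈ On (fun σ : Finset V => σ.card = k ∧ σ ∈ X) := by
    refine fmap_on (P := Car X σ k) Prod.snd ?_ hz
    rintro τ υ ⟨h1, h2, σ', h3, h4⟩ hcard hmem
    refine ⟨hcard.trans h1, hd σ' h3 _ (fun y hy => ?_)⟩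
    obtain ⟨p, hp, rfl⟩ := (hmem y).1 hy
    exact h4 p hp
  have hz3 : fbd (fmap Prod.snd z) = 0 := by rw [fbd_fmap, hc, map_zero]
  obtain ⟨e1, he1, he2⟩ := pr_graded X hac k _ hz2 hz3
  obtain ⟨H, hH1, hH2⟩ := exists_hty (fun p : V × V => p) (fun p : V × V => (x0, p.2))
  refine ⟨fmap (fun y => (x0, y)) e1 + H z, ?_, ?_⟩
  · refine Submodule.add_mem _ ?_ ?_
    · refine fmap_on _ ?_ he1
      rintro τ υ ⟨h1, h2⟩ hcard hmem
      refine ⟨hcard.trans h1, ?_, τ, h2, ?_⟩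
      · intro p hp
        obtain ⟨x, hx, rfl⟩ := (hmem p).1 hp
        exact hx0
      · intro p hp
        obtain ⟨x, hx, rfl⟩ := (hmem p).1 hp
        exact hx
    · refine map_on H (P := Car X σ k) ?_ hz
      rintro τ ⟨h1, h2, σ', h3, h4⟩
      refine on_mono ?_ (hH2 τ)
      rintro υ ⟨g1, g2⟩
      refine ⟨by rw [g1, h1], ?_, σ', h3, ?_⟩
      · intro p hp
        obtain ⟨q, hq, h | h⟩ := g2 p hp
        · rw [h]; exact h2 q hq
        · rw [h]; exact hx0
      · intro p hp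
        obtain ⟨q, hq, h | h⟩ := g2 p hp
        · rw [h]; exact h4 q hq
        · rw [h]; exact h4 q hq
  · rw [map_add, fbd_fmap, he2, fmap_fmap, pr_hty_zero _ _ H hH1 hc, fmap_id, add_comm z,
      ← add_assoc, fadd_self, zero_add]

/-- The contraction of the fibres onto the diagonal section. -/
private theorem pr_hty {V : Type} (X : Set (Finset V))
    (hd : ∀ σ ∈ X, ∀ τ, τ ⊆ σ → τ ∈ X)
    (hac : ∀ c : FCh V, (∀ σ ∈ c.support, σ ∈ X) → fbd c = 0 →
      ∃ e : FCh V, (∀ σ ∈ e.support, σ ∈ X) ∧ fbd e = c) :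
    ∃ H : FCh (V × V) →ₗ[ZMod 2] FCh (V × V), ∀ τ : Finset (V × V), X2 X τ →
      fbd (H (Finsupp.single τ 1)) = Finsupp.single τ 1 +
        fmap (fun p : V × V => (p.1, p.1)) (Finsupp.single τ 1) +
          H (fbd (Finsupp.single τ 1)) ∧
      H (Finsupp.single τ 1) ∈ On (fun υ => υ.card = τ.card + 1 ∧ X2 X υ) := by
  classical
  obtain ⟨H, hH⟩ := exists_rec (B := Finset (V × V)) (T := Finset (V × V)) fbd Finset.card
    (fun b b' hb' => by
      have h1 : fbd (Finsupp.single b (1 : ZMod 2)) ∈ On (fun τ' => τ'.card + 1 = b.card) :=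
        fbd_on (P := fun σ => σ = b) (fun σ τ' hσ _ hc => by rw [← hσ]; exact hc)
          (single_on rfl)
      have := on_iff.1 h1 b' hb'
      omega)
    (fun τ u y => X2 X τ →
      fbd y = Finsupp.single τ 1 +
        fmap (fun p : V × V => (p.1, p.1)) (Finsupp.single τ 1) + u ∧
      y ∈ On (Car X (τ.image Prod.fst) (τ.card + 1)))
    (fun τ H ih => by
      rcases τ.eq_empty_or_nonempty with rfl | hne
      · refine ⟨0, fun _ => ⟨?_, Submodule.zero_mem _⟩⟩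
        have h1 : fmap (fun p : V × V => (p.1, p.1))
            (Finsupp.single (∅ : Finset (V × V)) (1 : ZMod 2)) = Finsupp.single ∅ 1 := by
          rw [fmap_single]; simp
        rw [h1, fbd_empty, map_zero, map_zero, fadd_self, add_zero]
      · by_cases hX : X2 X τ
        swap
        · exact ⟨0, fun h => absurd h hX⟩
        obtain ⟨⟨σ1, hσ1, hσ1'⟩, σ2, hσ2, hσ2'⟩ := (pr_x2 X hd τ).1 hX
        set s : V × V → V × V := fun p => (p.1, p.1) with hs
        have hface : fbd (Finsupp.single τ (1 : ZMod 2)) ∈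
            On (fun τ' => τ' ⊆ τ ∧ τ'.card + 1 = τ.card) :=
          fbd_on (P := fun σ => σ = τ) (fun σ τ' hσ hsub hc => by subst hσ; exact ⟨hsub, hc⟩)
            (single_on rfl)
        have hQ : ∀ τ' : Finset (V × V), τ' ⊆ τ ∧ τ'.card + 1 = τ.card →
            fbd (H (Finsupp.single τ' 1)) = Finsupp.single τ' 1 + fmap s (Finsupp.single τ' 1) +
              H (fbd (Finsupp.single τ' 1)) ∧
            H (Finsupp.single τ' 1) ∈ On (Car X (τ'.image Prod.fst) (τ'.card + 1)) := by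
          rintro τ' ⟨hsub, hc⟩
          exact ih τ' (by omega) ((pr_x2 X hd τ').2
            ⟨⟨σ1, hσ1, fun p hp => hσ1' p (hsub hp)⟩, σ2, hσ2, fun p hp => hσ2' p (hsub hp)⟩)
        obtain ⟨k, hk⟩ : ∃ k, τ.card = k + 1 := ⟨τ.card - 1, by have := hne.card_pos; omega⟩
        set z := Finsupp.single τ (1 : ZMod 2) + fmap s (Finsupp.single τ 1) +
          H (fbd (Finsupp.single τ 1)) with hz
        have hcyc : fbd z = 0 := by
          have h1 : fbd (H (fbd (Finsupp.single τ 1))) = fbd (Finsupp.single τ 1) +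
              fmap s (fbd (Finsupp.single τ 1)) := by
            have := eq_on (P := fun τ' => τ' ⊆ τ ∧ τ'.card + 1 = τ.card) (fbd.comp H)
              (LinearMap.id + fmap s + H.comp fbd) (fun τ' h => by
                simpa using (hQ τ' h).1) hface
            simp only [LinearMap.comp_apply, LinearMap.add_apply, LinearMap.id_apply,
              fbd_fbd, map_zero, add_zero] at this
            exact this
          rw [hz, map_add, map_add, h1, fbd_fmap, fadd_self]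
        have hzon : z ∈ On (Car X (τ.image Prod.fst) (k + 1)) := by
          refine Submodule.add_mem _ (Submodule.add_mem _ ?_ ?_) ?_
          · exact single_on ⟨hk, fun p hp => Finset.mem_image_of_mem _ hp, σ2, hσ2, hσ2'⟩
          · refine fmap_on (P := fun σ => σ = τ) s ?_ (single_on rfl)
            rintro σ υ rfl hcard hmem
            refine ⟨hcard.trans hk, ?_, σ1, hσ1, ?_⟩
            · intro p hp
              obtain ⟨a, ha, rfl⟩ := (hmem p).1 hp
              exact Finset.mem_image.2 ⟨a, ha, rfl⟩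
            · intro p hp
              obtain ⟨a, ha, rfl⟩ := (hmem p).1 hp
              exact hσ1' a ha
          · refine map_on H ?_ hface
            rintro τ' ⟨hsub, hc⟩
            have hk' : τ'.card = k := by omega
            have h5 := (hQ τ' ⟨hsub, hc⟩).2
            rw [hk'] at h5
            refine on_mono (fun υ h => ⟨h.1, fun p hp => ?_, h.2.2⟩) h5
            exact Finset.image_subset_image hsub (h.2.1 p hp)
        obtain ⟨p0, hp0⟩ := hne
        obtain ⟨y, hy1, hy2⟩ := pr_fibre X hd hac (τ.image Prod.fst) p0.1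
          (Finset.mem_image_of_mem _ hp0) (k + 1) z hzon hcyc
        refine ⟨y, fun _ => ⟨hy2, ?_⟩⟩
        rw [hk]
        exact hy1)
  refine ⟨H, fun τ hX => ?_⟩
  obtain ⟨h1, h2⟩ := hH τ hX
  refine ⟨h1, on_mono ?_ h2⟩
  rintro υ ⟨g1, g2, g3⟩
  obtain ⟨⟨σ1, hσ1, hσ1'⟩, -⟩ := (pr_x2 X hd τ).1 hX
  refine ⟨g1, (pr_x2 X hd υ).2 ⟨⟨σ1, hσ1, fun p hp => ?_⟩, g3⟩⟩
  obtain ⟨q, hq, hpq⟩ := Finset.mem_image.1 (g2 p hp)
  rw [← hpq]
  exact hσ1' q hq

/-- The product of a mod 2 acyclic complex with itself is mod 2 acyclic. -/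
theorem prod_acyclic {V : Type} (X : Set (Finset V)) (h0 : ∅ ∈ X)
    (hd : ∀ σ ∈ X, ∀ τ, τ ⊆ σ → τ ∈ X)
    (hac : ∀ c : FCh V, (∀ σ ∈ c.support, σ ∈ X) → fbd c = 0 →
      ∃ e : FCh V, (∀ σ ∈ e.support, σ ∈ X) ∧ fbd e = c) :
    ∀ k, ∀ c ∈ On (fun τ : Finset (V × V) => τ.card = k ∧ X2 X τ), fbd c = 0 →
      ∃ e ∈ On (fun τ : Finset (V × V) => τ.card = k + 1 ∧ X2 X τ), fbd e = c := by
  classical
  have _ := h0
  intro k c hc hcyc
  obtain ⟨H, hH⟩ := pr_hty X hd hac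
  have h1 : fbd (H c) = c + fmap (fun p : V × V => (p.1, p.1)) c := by
    have := eq_on (P := fun τ : Finset (V × V) => τ.card = k ∧ X2 X τ)
      (fbd.comp H) (LinearMap.id + fmap (fun p : V × V => (p.1, p.1)) + H.comp fbd)
      (fun τ h => by simpa using (hH τ h.2).1) hc
    simp only [LinearMap.comp_apply, LinearMap.add_apply, LinearMap.id_apply, hcyc, map_zero,
      add_zero] at this
    exact this
  have h2 : fmap Prod.fst c ∈ On (fun σ : Finset V => σ.card = k ∧ σ ∈ X) := by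
    refine fmap_on (P := fun τ : Finset (V × V) => τ.card = k ∧ X2 X τ) Prod.fst ?_ hc
    rintro τ υ ⟨g1, g2⟩ hcard hmem
    obtain ⟨⟨σ1, hσ1, hσ1'⟩, -⟩ := (pr_x2 X hd τ).1 g2
    refine ⟨hcard.trans g1, hd σ1 hσ1 _ (fun y hy => ?_)⟩
    obtain ⟨p, hp, rfl⟩ := (hmem y).1 hy
    exact hσ1' p hp
  obtain ⟨e, he, hec⟩ := pr_graded X hac k _ h2 (by rw [fbd_fmap, hcyc, map_zero])
  refine ⟨fmap (fun x => (x, x)) e + H c, Submodule.add_mem _ ?_ ?_, ?_⟩
  · refine fmap_on _ ?_ he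
    rintro σ υ ⟨g1, g2⟩ hcard hmem
    refine ⟨hcard.trans g1, (pr_x2 X hd υ).2 ⟨⟨σ, g2, ?_⟩, σ, g2, ?_⟩⟩
    · intro p hp
      obtain ⟨x, hx, rfl⟩ := (hmem p).1 hp
      exact hx
    · intro p hp
      obtain ⟨x, hx, rfl⟩ := (hmem p).1 hp
      exact hx
  · refine map_on H ?_ hc
    rintro τ ⟨g1, g2⟩
    refine on_mono ?_ (hH τ g2).2
    rintro υ ⟨k1, k2⟩
    exact ⟨by omega, k2⟩
  · rw [map_add, fbd_fmap, hec, fmap_fmap, h1, add_comm c, ← add_assoc, fadd_self, zero_add]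

end Pool.Agent.VD
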