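import Pool.Agent.VD.Defs
import Pool.Agent.VS.Fin
import Pool.Agent.VN.NFBasic
/-!
# From the complex back to the group
-/
namespace Pool.Agent.VD
open Pool.Agent.SLX Pool.Agent.VN Pool.Agent.VS

/-- A coarse inverse of the orbit maps. -/
theorem exists_psi {G V : Type} [Group G] [MulAction G V] (X : Set (Finset V))
    (hst : ∀ v : V, {v} ∈ X → {g : G | g • v = v}.Finite) :
    ∃ ψ : V → G, ∀ W : Finset V, (∀ v ∈ W, {v} ∈ X) →
      ∃ S : Set G, S.Finite ∧ ∀ v ∈ W, ∀ g : G, g⁻¹ * ψ (g • v) ∈ S := by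
  classical
  have h1 : ∀ v : V, ∃ g : G,
      g • (Quotient.out (Quotient.mk'' v : MulAction.orbitRel.Quotient G V)) = v := by
    intro v
    have h2 := Quotient.mk_out (s := MulAction.orbitRel G V) v
    exact MulAction.mem_orbit_iff.1
      (MulAction.orbitRel_apply.1 ((MulAction.orbitRel G V).iseqv.symm h2))
  choose ψ hψ using h1
  refine ⟨ψ, fun W hW => ⟨⋃ v ∈ W, (fun h : G => h * ψ v) '' {g : G | g • v = v}, ?_, ?_⟩⟩
  · exact Set.Finite.biUnion W.finite_toSet (fun v hv => (hst v (hW v hv)).image _)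
  · intro v hv g
    refine Set.mem_biUnion hv ⟨g⁻¹ * ψ (g • v) * (ψ v)⁻¹, ?_, by group⟩
    have h3 : (Quotient.mk'' (g • v) : MulAction.orbitRel.Quotient G V) = Quotient.mk'' v := by
      apply Quotient.sound
      exact MulAction.orbitRel_apply.2 (MulAction.mem_orbit v g)
    have h4 := hψ (g • v)
    rw [h3] at h4
    have h5 : (ψ v)⁻¹ • v =
        (Quotient.out (Quotient.mk'' v : MulAction.orbitRel.Quotient G V)) := by
      rw [inv_smul_eq_iff]
      exact (hψ v).symm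
    show (g⁻¹ * ψ (g • v) * (ψ v)⁻¹) • v = v
    rw [mul_smul, mul_smul, h5, h4, inv_smul_smul]

open Classical in
private theorem ps_card {V : Type} {X : Set (Finset V)} {d : ℕ} (hd : ∀ σ ∈ X, σ.card ≤ d + 1)
    {τ : Finset (V × V)} (h : X2 X τ) : τ.card ≤ (d + 1) * (d + 1) := by
  have h1 : τ ⊆ (τ.image Prod.fst) ×ˢ (τ.image Prod.snd) := by
    intro p hp
    rw [Finset.mem_product]
    exact ⟨Finset.mem_image_of_mem _ hp, Finset.mem_image_of_mem _ hp⟩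
  refine (Finset.card_le_card h1).trans ?_
  rw [Finset.card_product]
  exact Nat.mul_le_mul (hd _ h.1) (hd _ h.2)

/-- Maps to the product complex give the property `DimP`. -/
theorem dimP_of_maps {A G : Type} [Group G] {π : A → G} [Finite A] (F : NF A G π) {V : Type}
    [MulAction G V] (X : Set (Finset V)) {d : ℕ}
    (hdim : ∀ σ ∈ X, σ.card ≤ d + 1)
    (hst : ∀ v : V, {v} ∈ X → {g : G | g • v = v}.Finite)
    (hM : ∀ R N : ℕ, ∃ (W : Finset V) (Ψ : FCh (G × G) →ₗ[ZMod 2] FCh (V × V)),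
      (∀ v ∈ W, {v} ∈ X) ∧
      Ψ (Finsupp.single ∅ 1) = Finsupp.single ∅ 1 ∧
      ∀ τ : Finset (G × G), τ.card ≤ N → Sm2 F R τ →
        fbd (Ψ (Finsupp.single τ 1)) = Ψ (fbd (Finsupp.single τ 1)) ∧
        Ψ (Finsupp.single τ 1) ∈ On (fun υ => υ.card = τ.card ∧ X2 X υ ∧ ∀ p ∈ τ, ∀ q ∈ υ,
          (∃ v ∈ W, q.1 = p.1 • v) ∧ ∃ v ∈ W, q.2 = p.2 • v) ∧
        ((∀ p ∈ τ, Prod.swap p ∉ τ) →
          ∀ τ' : Finset (G × G), (∀ p, p ∈ τ' ↔ Prod.swap p ∈ τ) →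
          Ψ (Finsupp.single τ' 1) = fmap Prod.swap (Ψ (Finsupp.single τ 1)))) :
    DimP F ((d + 1) * (d + 1)) := by
  classical
  obtain ⟨ψ, hψ⟩ := exists_psi (G := G) X hst
  intro R N
  obtain ⟨W, Ψ, hW, h0, hΨ⟩ := hM R N
  obtain ⟨S, hS, hψS⟩ := hψ W hW
  -- the bound
  obtain ⟨B, hB⟩ : ∃ B : ℕ, ∀ s ∈ S, F.l s ≤ B ∧ F.l s⁻¹ ≤ B := by
    obtain ⟨B1, hB1⟩ := (hS.image F.l).bddAbove
    obtain ⟨B2, hB2⟩ := (hS.image (fun s => F.l s⁻¹)).bddAbove
    refine ⟨max B1 B2, fun s hs => ⟨?_, ?_⟩⟩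
    · exact (hB1 (Set.mem_image_of_mem _ hs)).trans (le_max_left _ _)
    · exact (hB2 (Set.mem_image_of_mem _ hs)).trans (le_max_right _ _)
  set f : V × V → G × G := fun p => (ψ p.1, ψ p.2) with hf
  refine ⟨B, (fmap f).comp Ψ, ?_, ?_⟩
  · rw [LinearMap.comp_apply, h0, fmap_single]
    simp
  intro τ hN hR
  obtain ⟨h1, h2, h3⟩ := hΨ τ hN hR
  refine ⟨?_, ?_, ?_, ?_⟩
  · rw [LinearMap.comp_apply, LinearMap.comp_apply, fbd_fmap, h1]
  · rw [LinearMap.comp_apply]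
    refine fmap_on f ?_ h2
    rintro σ υ ⟨g1, g2, g3⟩ hcard hmem
    refine ⟨hcard.trans g1, fun p hp q hq => ?_⟩
    obtain ⟨q', hq', rfl⟩ := (hmem q).1 hq
    obtain ⟨⟨v, hv, hqv⟩, v', hv', hqv'⟩ := g3 p hp q' hq'
    have e1 : p.1⁻¹ * (f q').1 ∈ S := by
      simp only [hf]
      rw [hqv]
      exact hψS v hv p.1
    have e2 : p.2⁻¹ * (f q').2 ∈ S := by
      simp only [hf]
      rw [hqv']
      exact hψS v' hv' p.2
    have e3 : (f q').1⁻¹ * p.1 = (p.1⁻¹ * (f q').1)⁻¹ := by group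
    have e4 : (f q').2⁻¹ * p.2 = (p.2⁻¹ * (f q').2)⁻¹ := by group
    rw [e3, e4]
    exact ⟨hB _ e1, hB _ e2⟩
  · intro hfree
    rw [LinearMap.comp_apply, LinearMap.comp_apply, h3 hfree (τ.image Prod.swap), fmap_fmap,
      fmap_fmap]
    · rfl
    · intro p
      rw [Finset.mem_image]
      constructor
      · rintro ⟨q, hq, rfl⟩
        rw [Prod.swap_swap]
        exact hq
      · intro h
        exact ⟨Prod.swap p, h, Prod.swap_swap p⟩
  · intro hcard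
    rw [LinearMap.comp_apply]
    have h4 : Ψ (Finsupp.single τ 1) = 0 := by
      rw [← Finsupp.support_eq_empty, Finset.eq_empty_iff_forall_notMem]
      intro υ hυ
      obtain ⟨g1, g2, -⟩ := on_iff.1 h2 υ hυ
      have := ps_card hdim g2
      omega
    rw [h4, map_zero]

end Pool.Agent.VD
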