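import Pool.Agent.VD.Defs
import Pool.Agent.VS.Fin
import Pool.Agent.VS.Rec
import Pool.Agent.VN.NFBasic
import Pool.Agent.VD.Prod
import Pool.Agent.VD.Psi
/-!
# Finite dimension for pairs from proper actions on finite-dimensional acyclic complexes
-/
namespace Pool.Agent.VD
open Pool.Agent.SLX Pool.Agent.VN Pool.Agent.VS

section BUILD
variable {G V : Type} [Group G] [MulAction G V]

/-- The action of pairs. -/
private def act (p : G × G) (x : V × V) : V × V := (p.1 • x.1, p.2 • x.2)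

private theorem act_act (p q : G × G) (x : V × V) : act p (act q x) = act (p * q) x := by
  simp [act, mul_smul]

private theorem act_one (x : V × V) : act (1 : G × G) x = x := by
  simp [act]

private theorem swap_act (p : G × G) (x : V × V) : Prod.swap (act p x) = act p.swap x.swap := rfl

private theorem act_inj (p : G × G) : Function.Injective (act (V := V) p) := by
  intro x y h
  have h1 := congrArg (act p⁻¹) h
  rwa [act_act, act_act, inv_mul_cancel, act_one, act_one] at h1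

private theorem fm_act (p q : G × G) (c : FCh (V × V)) :
    fmap (act p) (fmap (act q) c) = fmap (act (p * q)) c := by
  rw [fmap_fmap]
  congr 1
  congr 1
  funext x
  exact act_act p q x

private theorem fm_act_one (c : FCh (V × V)) : fmap (act (1 : G × G)) c = c := by
  have : (act (1 : G × G) : V × V → V × V) = fun x => x := by
    funext x
    exact act_one x
  rw [this, fmap_id]

private theorem fm_sw_sw {W : Type} (c : FCh (W × W)) :
    fmap Prod.swap (fmap Prod.swap c) = c := by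
  rw [fmap_fmap]
  have : (fun x : W × W => Prod.swap (Prod.swap x)) = fun x => x := by
    funext x
    exact Prod.swap_swap x
  rw [this, fmap_id]

open Classical in
private theorem x2_act {X : Set (Finset V)}
    (hG : ∀ (g : G), ∀ σ ∈ X, σ.image (fun v => g • v) ∈ X) (p : G × G) {σ τ : Finset (V × V)}
    (h : X2 X σ) (hm : ∀ y, y ∈ τ ↔ ∃ x ∈ σ, act p x = y) : X2 X τ := by
  constructor
  · have : τ.image Prod.fst = (σ.image Prod.fst).image (fun v => p.1 • v) := by
      ext v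
      simp only [Finset.mem_image]
      constructor
      · rintro ⟨y, hy, rfl⟩
        obtain ⟨x, hx, rfl⟩ := (hm y).1 hy
        exact ⟨x.1, ⟨x, hx, rfl⟩, rfl⟩
      · rintro ⟨_, ⟨x, hx, rfl⟩, rfl⟩
        exact ⟨act p x, (hm _).2 ⟨x, hx, rfl⟩, rfl⟩
    rw [this]
    exact hG _ _ h.1
  · have : τ.image Prod.snd = (σ.image Prod.snd).image (fun v => p.2 • v) := by
      ext v
      simp only [Finset.mem_image]
      constructor
      · rintro ⟨y, hy, rfl⟩
        obtain ⟨x, hx, rfl⟩ := (hm y).1 hy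
        exact ⟨x.2, ⟨x, hx, rfl⟩, rfl⟩
      · rintro ⟨_, ⟨x, hx, rfl⟩, rfl⟩
        exact ⟨act p x, (hm _).2 ⟨x, hx, rfl⟩, rfl⟩
    rw [this]
    exact hG _ _ h.2

open Classical in
private theorem x2_swap {X : Set (Finset V)} {σ τ : Finset (V × V)}
    (h : X2 X σ) (hm : ∀ y, y ∈ τ ↔ ∃ x ∈ σ, Prod.swap x = y) : X2 X τ := by
  constructor
  · have : τ.image Prod.fst = σ.image Prod.snd := by
      ext v
      simp only [Finset.mem_image]
      constructor
      · rintro ⟨y, hy, rfl⟩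
        obtain ⟨x, hx, rfl⟩ := (hm y).1 hy
        exact ⟨x, hx, rfl⟩
      · rintro ⟨x, hx, rfl⟩
        exact ⟨Prod.swap x, (hm _).2 ⟨x, hx, rfl⟩, rfl⟩
    rw [this]
    exact h.2
  · have : τ.image Prod.snd = σ.image Prod.fst := by
      ext v
      simp only [Finset.mem_image]
      constructor
      · rintro ⟨y, hy, rfl⟩
        obtain ⟨x, hx, rfl⟩ := (hm y).1 hy
        exact ⟨x, hx, rfl⟩
      · rintro ⟨x, hx, rfl⟩
        exact ⟨Prod.swap x, (hm _).2 ⟨x, hx, rfl⟩, rfl⟩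
    rw [this]
    exact h.1

open Classical in
private theorem x2_card {X : Set (Finset V)} {d : ℕ} (hX : ∀ σ ∈ X, σ.card ≤ d + 1)
    {σ : Finset (V × V)} (h : X2 X σ) : σ.card ≤ (d + 1) * (d + 1) := by
  have h1 : σ ⊆ (σ.image Prod.fst) ×ˢ (σ.image Prod.snd) := by
    intro x hx
    exact Finset.mem_product.2 ⟨Finset.mem_image_of_mem _ hx, Finset.mem_image_of_mem _ hx⟩
  have h2 := Finset.card_le_card h1
  rw [Finset.card_product] at h2
  exact h2.trans (Nat.mul_le_mul (hX _ h.1) (hX _ h.2))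

/-- Chains whose vertices lie in `W`. -/
private def OnW (W : Set (V × V)) : Submodule (ZMod 2) (FCh (V × V)) :=
  On (fun σ => ∀ x ∈ σ, x ∈ W)

private theorem fin_chains {W : Set (V × V)} (hW : W.Finite) :
    {c : FCh (V × V) | c ∈ OnW W}.Finite := by
  classical
  have h1 : {s : Finset (Finset (V × V)) | s ∈ hW.toFinset.powerset.powerset}.Finite :=
    Finset.finite_toSet _
  refine Set.Finite.of_finite_image (f := fun c : FCh (V × V) => c.support) (h1.subset ?_) ?_
  · rintro _ ⟨c, hc, rfl⟩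
    refine Finset.mem_powerset.2 fun σ hσ => Finset.mem_powerset.2 fun x hx => ?_
    exact hW.mem_toFinset.2 (on_iff.1 hc σ hσ x hx)
  · intro c _ c' _ h
    ext σ
    have h2 : ∀ a b : ZMod 2, (a ≠ 0 ↔ b ≠ 0) → a = b := by decide
    apply h2
    have h3 : c.support = c'.support := h
    rw [← Finsupp.mem_support_iff, ← Finsupp.mem_support_iff, h3]

private theorem fin_next (f : FCh (V × V) → FCh (V × V)) {W : Set (V × V)} (hW : W.Finite) :
    ∃ W' : Set (V × V), W'.Finite ∧ ∀ c ∈ OnW W, f c ∈ OnW W' := by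
  classical
  refine ⟨⋃ c ∈ {c : FCh (V × V) | c ∈ OnW W}, ⋃ σ ∈ (f c).support, (σ : Set (V × V)),
    (fin_chains hW).biUnion fun c _ => (Finset.finite_toSet _).biUnion fun σ _ =>
      Finset.finite_toSet _, ?_⟩
  intro c hc
  refine on_iff.2 fun σ hσ x hx => ?_
  exact Set.mem_biUnion (show c ∈ {c : FCh (V × V) | c ∈ OnW W} from hc)
    (Set.mem_biUnion (show σ ∈ (f c).support from hσ) hx)


open Classical in
private noncomputable def pt (τ : Finset (G × G)) : G × G :=
  if h : τ.Nonempty then h.choose else 1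

private theorem pt_mem {τ : Finset (G × G)} (h : τ ≠ ∅) : pt τ ∈ τ := by
  have h' := Finset.nonempty_iff_ne_empty.2 h
  rw [pt, dif_pos h']
  exact h'.choose_spec

open Classical in
private noncomputable def ch (X : Set (Finset V)) (k : ℕ) (c : FCh (V × V)) : FCh (V × V) :=
  if h : ∃ e ∈ On (fun τ : Finset (V × V) => τ.card = k + 1 ∧ X2 X τ), fbd e = c
    then h.choose else 0

/-- The mirror image. -/
private noncomputable def sw (τ : Finset (G × G)) : Finset (G × G) :=
  τ.map (Equiv.prodComm G G).toEmbedding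

omit [Group G] in
private theorem mem_sw {τ : Finset (G × G)} {p : G × G} : p ∈ sw τ ↔ Prod.swap p ∈ τ := by
  rw [sw, Finset.mem_map]
  constructor
  · rintro ⟨q, hq, rfl⟩
    exact hq
  · intro h
    exact ⟨p.swap, h, Prod.swap_swap p⟩

omit [Group G] in
private theorem sw_sw (τ : Finset (G × G)) : sw (sw τ) = τ := by
  ext p
  rw [mem_sw, mem_sw, Prod.swap_swap]

omit [Group G] in
private theorem sw_card (τ : Finset (G × G)) : (sw τ).card = τ.card := Finset.card_map _

omit [Group G] in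
open Classical in
private theorem sw_eq (τ : Finset (G × G)) : τ.image Prod.swap = sw τ := by
  ext p
  rw [mem_sw, Finset.mem_image]
  constructor
  · rintro ⟨q, hq, rfl⟩
    rwa [Prod.swap_swap]
  · intro h
    exact ⟨p.swap, h, Prod.swap_swap p⟩

private theorem inj_single {W W' : Type} (f : W → W') (hf : Function.Injective f) (τ : Finset W)
    (τ' : Finset W') (h : ∀ y, y ∈ τ' ↔ ∃ x ∈ τ, f x = y) :
    Finsupp.single τ' (1 : ZMod 2) = fmap f (Finsupp.single τ 1) := by
  classical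
  rw [fmap_single, if_pos (Finset.card_image_of_injective _ hf)]
  congr 1
  ext y
  rw [h, Finset.mem_image]

private theorem fmap_empty {W W' : Type} (f : W → W') :
    fmap f (Finsupp.single ∅ 1) = Finsupp.single ∅ (1 : ZMod 2) := by
  classical
  rw [fmap_single, if_pos (by rw [Finset.image_empty, Finset.card_empty, Finset.card_empty]),
    Finset.image_empty]

omit [Group G] in
private theorem sw_single (τ : Finset (G × G)) :
    Finsupp.single (sw τ) (1 : ZMod 2) = fmap Prod.swap (Finsupp.single τ 1) := by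
  refine inj_single _ Prod.swap_injective _ _ fun p => ?_
  rw [mem_sw]
  constructor
  · intro h
    exact ⟨p.swap, h, Prod.swap_swap p⟩
  · rintro ⟨q, hq, rfl⟩
    rwa [Prod.swap_swap]

/-- The preferred ones among `τ` and its mirror image. -/
private def Pref (τ : Finset (G × G)) : Prop := WellOrderingRel τ (sw τ)

omit [Group G] in
private theorem pref_swap {τ : Finset (G × G)} (h : sw τ ≠ τ) : Pref (sw τ) ↔ ¬ Pref τ := by
  unfold Pref
  rw [sw_sw]
  constructor
  · intro h1 h2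
    exact asymm_of WellOrderingRel h1 h2
  · intro h1
    rcases trichotomous_of WellOrderingRel (sw τ) τ with h2 | h2 | h2
    · exact h2
    · exact absurd h2 h
    · exact absurd h2 h1

private noncomputable def Ph0 (X : Set (Finset V)) (k : ℕ) (p : G × G) (u : FCh (V × V)) :
    FCh (V × V) := fmap (act p) (ch X k (fmap (act p⁻¹) u))

open Classical in
private noncomputable def Ph (X : Set (Finset V)) (τ : Finset (G × G)) (u : FCh (V × V)) :
    FCh (V × V) :=
  if τ = ∅ then Finsupp.single ∅ 1 else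
  if Pref τ then Ph0 X (τ.card - 1) (pt τ) u else
    fmap Prod.swap (Ph0 X (τ.card - 1) (pt (sw τ)) (fmap Prod.swap u))

/-- The conclusion of the product theorem. -/
private def PA (X : Set (Finset V)) : Prop := ∀ k, ∀ c ∈ On (fun τ : Finset (V × V) =>
  τ.card = k ∧ X2 X τ), fbd c = 0 → ∃ e ∈ On (fun τ : Finset (V × V) => τ.card = k + 1 ∧ X2 X τ),
    fbd e = c

open Classical in
private theorem ph0_spec {X : Set (Finset V)}
    (hG : ∀ (g : G), ∀ σ ∈ X, σ.image (fun v => g • v) ∈ X)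
    (hp : PA X) {k : ℕ} (p : G × G) {u : FCh (V × V)}
    (hu : u ∈ On (fun τ : Finset (V × V) => τ.card = k ∧ X2 X τ)) (hc : fbd u = 0) :
    fbd (Ph0 X k p u) = u ∧
      Ph0 X k p u ∈ On (fun τ : Finset (V × V) => τ.card = k + 1 ∧ X2 X τ) := by
  have h1 : fmap (act p⁻¹) u ∈ On (fun τ : Finset (V × V) => τ.card = k ∧ X2 X τ) := by
    refine fmap_on _ ?_ hu
    intro σ τ hσ hcard hm
    exact ⟨hcard.trans hσ.1, x2_act hG p⁻¹ hσ.2 hm⟩
  have h2 : fbd (fmap (act p⁻¹) u) = 0 := by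
    rw [fbd_fmap, hc, map_zero]
  have h3 := hp k _ h1 h2
  have h4 : ch X k (fmap (act p⁻¹) u) ∈ On (fun τ : Finset (V × V) => τ.card = k + 1 ∧ X2 X τ) ∧
      fbd (ch X k (fmap (act p⁻¹) u)) = fmap (act p⁻¹) u := by
    rw [ch, dif_pos h3]
    exact h3.choose_spec
  constructor
  · rw [Ph0, fbd_fmap, h4.2, fm_act, mul_inv_cancel, fm_act_one]
  · refine fmap_on _ ?_ h4.1
    intro σ τ hσ hcard hm
    exact ⟨hcard.trans hσ.1, x2_act hG p hσ.2 hm⟩

omit [MulAction G V] in
private theorem sw_on {X : Set (Finset V)} {k : ℕ} {u : FCh (V × V)}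
    (hu : u ∈ On (fun τ : Finset (V × V) => τ.card = k ∧ X2 X τ)) :
    fmap Prod.swap u ∈ On (fun τ : Finset (V × V) => τ.card = k ∧ X2 X τ) := by
  refine fmap_on _ ?_ hu
  intro σ τ hσ hcard hm
  exact ⟨hcard.trans hσ.1, x2_swap hσ.2 hm⟩

open Classical in
private theorem ph_spec {X : Set (Finset V)}
    (hG : ∀ (g : G), ∀ σ ∈ X, σ.image (fun v => g • v) ∈ X)
    (hp : PA X) {τ : Finset (G × G)} (hτ : τ ≠ ∅) {u : FCh (V × V)}
    (hu : u ∈ On (fun υ : Finset (V × V) => υ.card + 1 = τ.card ∧ X2 X υ)) (hc : fbd u = 0) :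
    fbd (Ph X τ u) = u ∧
      Ph X τ u ∈ On (fun υ : Finset (V × V) => υ.card = τ.card ∧ X2 X υ) := by
  have hpos : 0 < τ.card := Finset.card_pos.2 (Finset.nonempty_iff_ne_empty.2 hτ)
  have hu' : u ∈ On (fun υ : Finset (V × V) => υ.card = τ.card - 1 ∧ X2 X υ) :=
    on_mono (fun υ h => ⟨by omega, h.2⟩) hu
  rw [Ph, if_neg hτ]
  split_ifs with h
  · have h1 := ph0_spec hG hp (pt τ) hu' hc
    exact ⟨h1.1, on_mono (fun υ h => ⟨by omega, h.2⟩) h1.2⟩
  · have hc' : fbd (fmap Prod.swap u) = 0 := by rw [fbd_fmap, hc, map_zero]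
    have h1 := ph0_spec hG hp (pt (sw τ)) (sw_on hu') hc'
    refine ⟨?_, on_mono (fun υ h => ⟨by omega, h.2⟩) (sw_on h1.2)⟩
    rw [fbd_fmap, h1.1, fm_sw_sw]

private theorem ph_swap {X : Set (Finset V)} {τ : Finset (G × G)}
    (hτ : τ ≠ ∅) (hs : sw τ ≠ τ) (u : FCh (V × V)) :
    Ph X (sw τ) (fmap Prod.swap u) = fmap Prod.swap (Ph X τ u) := by
  have h0 : sw τ ≠ ∅ := by
    intro h
    apply hτ
    rw [← Finset.card_eq_zero, ← sw_card, h, Finset.card_empty]
  have h1 := pref_swap hs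
  rw [Ph, Ph, if_neg hτ, if_neg h0, sw_card, sw_sw, fm_sw_sw]
  by_cases h : Pref τ
  · rw [if_pos h, if_neg (fun h' => h1.1 h' h)]
  · rw [if_neg h, if_pos (h1.2 h), fm_sw_sw]

open Classical in
/-- The chain map. -/
private theorem exists_psi0 {X : Set (Finset V)} (h0 : ∅ ∈ X)
    (hG : ∀ (g : G), ∀ σ ∈ X, σ.image (fun v => g • v) ∈ X)
    (hp : PA X) : ∃ H : FCh (G × G) →ₗ[ZMod 2] FCh (V × V),
      ∀ τ, H (Finsupp.single τ 1) = Ph X τ (H (fbd (Finsupp.single τ 1))) ∧
        fbd (H (Finsupp.single τ 1)) = H (fbd (Finsupp.single τ 1)) ∧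
        H (Finsupp.single τ 1) ∈ On (fun υ : Finset (V × V) => υ.card = τ.card ∧ X2 X υ) := by
  have hfac : ∀ τ : Finset (G × G), fbd (Finsupp.single τ 1) ∈
      On (fun υ : Finset (G × G) => υ.card + 1 = τ.card) := by
    intro τ
    apply fbd_on (P := fun υ => υ = τ) _ (single_on rfl)
    intro σ υ hσ _ hc
    rw [← hσ]
    exact hc
  obtain ⟨H, hH⟩ := exists_rec (B := Finset (G × G)) (T := Finset (V × V)) fbd Finset.card (by
      intro σ τ hτ
      have h := on_iff.1 (hfac σ) τ hτ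
      omega)
    (fun τ u y => y = Ph X τ u ∧ fbd y = u ∧
      y ∈ On (fun υ : Finset (V × V) => υ.card = τ.card ∧ X2 X υ)) (by
      intro τ H hH
      refine ⟨Ph X τ (H (fbd (Finsupp.single τ 1))), rfl, ?_⟩
      by_cases hτ : τ = ∅
      · subst hτ
        rw [Ph, if_pos rfl, fbd_empty, fbd_empty, map_zero]
        refine ⟨rfl, single_on ⟨rfl, ?_⟩⟩
        unfold X2
        rw [Finset.image_empty, Finset.image_empty]
        exact ⟨h0, h0⟩
      · have hu : H (fbd (Finsupp.single τ 1)) ∈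
            On (fun υ : Finset (V × V) => υ.card + 1 = τ.card ∧ X2 X υ) := by
          refine map_on H (fun σ hσ => ?_) (hfac τ)
          refine on_mono ?_ (hH σ (by omega)).2.2
          intro υ hυ
          exact ⟨by omega, hυ.2⟩
        have hc : fbd (H (fbd (Finsupp.single τ 1))) = 0 := by
          have h2 := eq_on (fbd.comp H) (H.comp fbd) (fun σ (hσ : σ.card + 1 = τ.card) =>
            (hH σ (by omega)).2.1) (hfac τ)
          have h3 : fbd (H (fbd (Finsupp.single τ 1))) = H (fbd (fbd (Finsupp.single τ 1))) := h2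
          rw [h3, fbd_fbd, map_zero]
        exact ph_spec hG hp hτ hu hc)
  exact ⟨H, hH⟩

/-- Free simplices. -/
private def Fr (τ : Finset (G × G)) : Prop := ∀ p ∈ τ, Prod.swap p ∉ τ

/-- The chain map commutes with the swap on free simplices. -/
private theorem psi_swap {X : Set (Finset V)} {H : FCh (G × G) →ₗ[ZMod 2] FCh (V × V)}
    (hH : ∀ τ, H (Finsupp.single τ 1) = Ph X τ (H (fbd (Finsupp.single τ 1)))) :
    ∀ n : ℕ, ∀ τ : Finset (G × G), τ.card = n → Fr τ →
      H (Finsupp.single (sw τ) 1) = fmap Prod.swap (H (Finsupp.single τ 1)) := by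
  intro n
  induction n with
  | zero =>
    intro τ hτ _
    have : τ = ∅ := Finset.card_eq_zero.1 hτ
    subst this
    have h1 : H (Finsupp.single ∅ 1) = Finsupp.single ∅ 1 := by
      rw [hH, Ph, if_pos rfl]
    have h2 : sw (∅ : Finset (G × G)) = ∅ := by
      rw [sw, Finset.map_empty]
    rw [h2, h1, fmap_empty]
  | succ n ih =>
    intro τ hcard hfr
    have hτ : τ ≠ ∅ := by
      rintro rfl
      simp at hcard
    have hs : sw τ ≠ τ := by
      intro h
      obtain ⟨p, hp⟩ := Finset.nonempty_iff_ne_empty.2 hτ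
      apply hfr p hp
      rw [← mem_sw, h]
      exact hp
    have hfac : fbd (Finsupp.single τ 1) ∈ On (fun υ : Finset (G × G) => υ.card = n ∧ Fr υ) := by
      apply fbd_on (P := fun υ => υ = τ) _ (single_on rfl)
      intro σ υ hσ hsub hc
      subst hσ
      exact ⟨by omega, fun p hp hp' => hfr p (hsub hp) (hsub hp')⟩
    rw [hH (sw τ), hH τ, sw_single, fbd_fmap]
    have h1 : H (fmap Prod.swap (fbd (Finsupp.single τ 1))) =
        fmap Prod.swap (H (fbd (Finsupp.single τ 1))) := by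
      have := eq_on (H.comp (fmap Prod.swap)) ((fmap Prod.swap).comp H)
        (fun σ (hσ : σ.card = n ∧ Fr σ) => by
          rw [LinearMap.comp_apply, LinearMap.comp_apply, ← sw_single]
          exact ih σ hσ.1 hσ.2) hfac
      exact this
    rw [h1, ph_swap hτ hs]

/-- Translates by short pairs stay in a finite set. -/
private theorem fin_trans {S : Set (G × G)} (hS : S.Finite) {W : Set (V × V)} (hW : W.Finite) :
    {y : V × V | ∃ s ∈ S, ∃ x ∈ W, act s x = y}.Finite := by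
  refine ((hS.prod hW).image fun z => act z.1 z.2).subset ?_
  rintro y ⟨s, hs, x, hx, rfl⟩
  exact ⟨(s, x), ⟨hs, hx⟩, rfl⟩

/-- Chains whose vertices lie in `p W` for all `p ∈ τ`. -/
private def OnT (τ : Finset (G × G)) (W : Set (V × V)) : Submodule (ZMod 2) (FCh (V × V)) :=
  On (fun σ => ∀ x ∈ σ, ∀ p ∈ τ, ∃ w ∈ W, act p w = x)

/-- The recursion for the displacement. -/
private theorem ph0_fin (X : Set (Finset V)) (k : ℕ) {W : Set (V × V)} (hW : W.Finite) :
    ∃ W' : Set (V × V), W'.Finite ∧ ∀ (p : G × G) (u : FCh (V × V)),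
      u ∈ On (fun σ => ∀ x ∈ σ, ∃ w ∈ W, act p w = x) →
      Ph0 X k p u ∈ On (fun σ => ∀ x ∈ σ, ∃ w ∈ W', act p w = x) := by
  obtain ⟨W', hW', h⟩ := fin_next (ch X k) hW
  refine ⟨W', hW', fun p u hu => ?_⟩
  have h1 : fmap (act p⁻¹) u ∈ OnW W := by
    refine fmap_on _ ?_ hu
    intro σ τ hσ _ hm y hy
    obtain ⟨x, hx, rfl⟩ := (hm y).1 hy
    obtain ⟨w, hw, rfl⟩ := hσ x hx
    rwa [act_act, inv_mul_cancel, act_one]
  refine fmap_on _ ?_ (h _ h1)
  intro σ τ hσ _ hm y hy
  obtain ⟨x, hx, rfl⟩ := (hm y).1 hy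
  exact ⟨x, hσ x hx, rfl⟩

private theorem ph_fin (X : Set (Finset V)) (k : ℕ) {S : Set (G × G)} (hS : S.Finite)
    {W : Set (V × V)} (hW : W.Finite) :
    ∃ W' : Set (V × V), W'.Finite ∧ ∀ (τ : Finset (G × G)) (u : FCh (V × V)), τ.card = k + 1 →
      (∀ p ∈ τ, ∀ q ∈ τ, p⁻¹ * q ∈ S) → u ∈ OnT τ W → Ph X τ u ∈ OnT τ W' := by
  have hW2 : {x : V × V | Prod.swap x ∈ W}.Finite :=
    (hW.image Prod.swap).subset fun x hx => ⟨x.swap, hx, Prod.swap_swap x⟩
  obtain ⟨W1, h1, h1'⟩ := ph0_fin (G := G) X k hW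
  obtain ⟨W2, h2, h2'⟩ := ph0_fin (G := G) X k hW2
  have hW3 : {x : V × V | Prod.swap x ∈ W2}.Finite :=
    (h2.image Prod.swap).subset fun x hx => ⟨x.swap, hx, Prod.swap_swap x⟩
  refine ⟨_, fin_trans hS (h1.union hW3), ?_⟩
  intro τ u hcard hsm hu
  have hτ : τ ≠ ∅ := by
    rintro rfl
    simp at hcard
  have hk : τ.card - 1 = k := by omega
  have key : ∀ x : V × V, ∀ q ∈ τ, (∃ w ∈ W1 ∪ {x : V × V | Prod.swap x ∈ W2}, act q w = x) →
      ∀ p ∈ τ, ∃ w ∈ {y : V × V | ∃ s ∈ S, ∃ x ∈ W1 ∪ {x : V × V | Prod.swap x ∈ W2},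
        act s x = y}, act p w = x := by
    rintro x q hq ⟨w, hw, rfl⟩ p hp
    refine ⟨act (p⁻¹ * q) w, ⟨p⁻¹ * q, hsm p hp q hq, w, hw, rfl⟩, ?_⟩
    rw [act_act, mul_inv_cancel_left]
  rw [Ph, if_neg hτ, hk]
  split_ifs with h
  · refine on_mono ?_ (h1' (pt τ) u (on_mono (fun σ hσ x hx => hσ x hx _ (pt_mem hτ)) hu))
    intro σ hσ x hx
    obtain ⟨w, hw, hwx⟩ := hσ x hx
    exact key x (pt τ) (pt_mem hτ) ⟨w, Or.inl hw, hwx⟩
  · have h0 : sw τ ≠ ∅ := by
      intro h
      apply hτ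
      rw [← Finset.card_eq_zero, ← sw_card, h, Finset.card_empty]
    have hq := mem_sw.1 (pt_mem h0)
    have hu2 : fmap Prod.swap u ∈
        On (fun σ => ∀ x ∈ σ, ∃ w ∈ {x : V × V | Prod.swap x ∈ W}, act (pt (sw τ)) w = x) := by
      refine fmap_on _ ?_ hu
      intro σ υ hσ _ hm y hy
      obtain ⟨x, hx, rfl⟩ := (hm y).1 hy
      obtain ⟨w, hw, rfl⟩ := hσ x hx _ hq
      refine ⟨w.swap, ?_, ?_⟩
      · show w.swap.swap ∈ W
        rwa [Prod.swap_swap]
      · rw [swap_act, Prod.swap_swap]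
    refine fmap_on _ ?_ (h2' _ _ hu2)
    intro σ υ hσ _ hm y hy
    obtain ⟨x, hx, rfl⟩ := (hm y).1 hy
    obtain ⟨w, hw, rfl⟩ := hσ x hx
    refine key _ _ hq ⟨w.swap, Or.inr ?_, ?_⟩
    · show w.swap.swap ∈ W2
      rwa [Prod.swap_swap]
    · rw [swap_act]

private theorem psi_fin {X : Set (Finset V)} {H : FCh (G × G) →ₗ[ZMod 2] FCh (V × V)}
    (hH : ∀ τ, H (Finsupp.single τ 1) = Ph X τ (H (fbd (Finsupp.single τ 1))))
    (hH2 : ∀ τ, H (Finsupp.single τ 1) ∈
      On (fun υ : Finset (V × V) => υ.card = τ.card ∧ X2 X υ))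
    {S : Set (G × G)} (hS : S.Finite) :
    ∀ n : ℕ, ∃ W : Set (V × V), W.Finite ∧ ∀ τ : Finset (G × G), τ.card = n →
      (∀ p ∈ τ, ∀ q ∈ τ, p⁻¹ * q ∈ S) → H (Finsupp.single τ 1) ∈ OnT τ W := by
  intro n
  induction n with
  | zero =>
    refine ⟨∅, Set.finite_empty, ?_⟩
    intro τ hτ _
    have : τ = ∅ := Finset.card_eq_zero.1 hτ
    subst this
    rw [hH, Ph, if_pos rfl]
    exact single_on fun x hx => absurd hx (Finset.notMem_empty _)
  | succ n ih =>
    obtain ⟨W, hW, h⟩ := ih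
    obtain ⟨W', hW', h'⟩ := ph_fin X n hS (fin_trans hS hW)
    refine ⟨W', hW', ?_⟩
    intro τ hcard hsm
    rw [hH]
    refine h' τ _ hcard hsm ?_
    have hfac : fbd (Finsupp.single τ 1) ∈
        On (fun υ : Finset (G × G) => υ.card = n ∧ υ ⊆ τ) := by
      apply fbd_on (P := fun υ => υ = τ) _ (single_on rfl)
      intro σ υ hσ hsub hc
      subst hσ
      exact ⟨by omega, hsub⟩
    refine map_on H (fun υ hυ => ?_) hfac
    have h1 := h υ hυ.1 fun p hp q hq => hsm p (hυ.2 hp) q (hυ.2 hq)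
    refine on_iff.2 fun σ hσ x hx p hp => ?_
    have h2 : σ.card = υ.card := (on_iff.1 (hH2 υ) σ hσ).1
    have h3 : 0 < υ.card := by
      rw [← h2]
      exact Finset.card_pos.2 ⟨x, hx⟩
    obtain ⟨q, hq⟩ := Finset.card_pos.1 h3
    obtain ⟨w, hw, rfl⟩ := on_iff.1 h1 σ hσ x hx q hq
    refine ⟨act (p⁻¹ * q) w, ⟨p⁻¹ * q, hsm p hp q (hυ.2 hq), w, hw, rfl⟩, ?_⟩
    rw [act_act, mul_inv_cancel_left]

end BUILD

open Classical in
/-- Groups acting with finite vertex stabilisers on a finite-dimensional acyclic complex have finite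
dimension for pairs. -/
theorem dimP_of_proper {A G : Type} [Group G] {π : A → G} [Finite A] (F : NF A G π) {d : ℕ}
    (h : ProperDim G d) : DimP F ((d + 1) * (d + 1)) := by
  obtain ⟨V, _, X, h0, hd, hG, hdim, hst, hac⟩ := h
  refine dimP_of_maps F X hdim hst ?_
  obtain ⟨H, hH⟩ := exists_psi0 (G := G) h0 hG (prod_acyclic X h0 hd hac)
  intro R N
  have hS : {s : G × G | F.l s.1 ≤ R ∧ F.l s.2 ≤ R}.Finite :=
    (F.finite_ball R).prod (F.finite_ball R)
  choose W hW hW' using psi_fin (fun τ => (hH τ).1) (fun τ => (hH τ).2.2) hS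
  have hU : (⋃ n ∈ Finset.range (N + 1), W n).Finite :=
    (Finset.finite_toSet _).biUnion fun n _ => hW n
  have hV : ((Prod.fst '' (⋃ n ∈ Finset.range (N + 1), W n)) ∪
      (Prod.snd '' (⋃ n ∈ Finset.range (N + 1), W n)) : Set V).Finite :=
    (hU.image _).union (hU.image _)
  have hV2 := hV.inter_of_left {v : V | {v} ∈ X}
  refine ⟨hV2.toFinset, H, ?_, ?_, ?_⟩
  · intro v hv
    exact ((Set.Finite.mem_toFinset _).1 hv).2
  · rw [(hH ∅).1, Ph, if_pos rfl]
  · intro τ hN hSm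
    refine ⟨(hH τ).2.1, ?_, ?_⟩
    · have h1 := hW' τ.card τ rfl (fun p hp q hq => hSm p hp q hq)
      refine on_iff.2 fun υ hυ => ?_
      have h2 := on_iff.1 (hH τ).2.2 υ hυ
      refine ⟨h2.1, h2.2, ?_⟩
      intro p hp q hq
      obtain ⟨w, hw, rfl⟩ := on_iff.1 h1 υ hυ q hq p hp
      have hwU : w ∈ ⋃ n ∈ Finset.range (N + 1), W n :=
        Set.mem_biUnion (Finset.mem_coe.2 (Finset.mem_range.2 (by omega))) hw
      have hv : ∀ (g : G) (v : V), {g • v} ∈ X → {v} ∈ X := by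
        intro g v hgv
        have h3 := hG g⁻¹ _ hgv
        rwa [Finset.image_singleton, inv_smul_smul] at h3
      refine ⟨⟨w.1, ?_, rfl⟩, ⟨w.2, ?_, rfl⟩⟩
      · rw [Set.Finite.mem_toFinset]
        refine ⟨Or.inl ⟨w, hwU, rfl⟩, hv p.1 _ (hd _ h2.2.1 _ ?_)⟩
        exact Finset.singleton_subset_iff.2 (Finset.mem_image.2 ⟨_, hq, rfl⟩)
      · rw [Set.Finite.mem_toFinset]
        refine ⟨Or.inr ⟨w, hwU, rfl⟩, hv p.2 _ (hd _ h2.2.2 _ ?_)⟩
        exact Finset.singleton_subset_iff.2 (Finset.mem_image.2 ⟨_, hq, rfl⟩)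
    · intro hfr τ' hτ'
      have : τ' = sw τ := by
        ext p
        rw [hτ', mem_sw]
      rw [this]
      exact psi_swap (fun τ => (hH τ).1) _ τ rfl hfr

end Pool.Agent.VD
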