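import Pool.Agent.VS.Defs
/-!
# Groups acting with finite stabilisers on finite-dimensional acyclic complexes
-/
namespace Pool.Agent.VD
open Pool.Agent.SLX Pool.Agent.VN Pool.Agent.VS

open Classical in
/-- The group `G` acts, with finite vertex stabilisers, on a simplicial complex `X` (a set of finite
subsets of `V`) which has dimension at most `d` and is acyclic mod 2. -/
def ProperDim (G : Type) [Group G] (d : ℕ) : Prop :=
  ∃ (V : Type) (_ : MulAction G V) (X : Set (Finset V)),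
    ∅ ∈ X ∧ (∀ σ ∈ X, ∀ τ, τ ⊆ σ → τ ∈ X) ∧
    (∀ (g : G), ∀ σ ∈ X, σ.image (fun v => g • v) ∈ X) ∧
    (∀ σ ∈ X, σ.card ≤ d + 1) ∧
    (∀ v : V, {v} ∈ X → {g : G | g • v = v}.Finite) ∧
    ∀ c : FCh V, (∀ σ ∈ c.support, σ ∈ X) → fbd c = 0 →
      ∃ e : FCh V, (∀ σ ∈ e.support, σ ∈ X) ∧ fbd e = c

open Classical in
/-- The simplices of the product: both projections are simplices. -/
def X2 {V : Type} (X : Set (Finset V)) (τ : Finset (V × V)) : Prop :=
  τ.image Prod.fst ∈ X ∧ τ.image Prod.snd ∈ X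

variable {A G : Type} [Group G] {π : A → G}

open Classical in
/-- Finite dimension for pairs: at every scale `R` and for all simplices with at most `N` points
there is a chain map of bounded displacement which commutes with the swap away from the diagonal and
which is zero on all simplices with more than `M` points. -/
def DimP (F : NF A G π) (M : ℕ) : Prop :=
  ∀ R N : ℕ, ∃ (B : ℕ) (Ψ : FCh (G × G) →ₗ[ZMod 2] FCh (G × G)),
    Ψ (Finsupp.single ∅ 1) = Finsupp.single ∅ 1 ∧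
    ∀ τ : Finset (G × G), τ.card ≤ N → Sm2 F R τ →
      fbd (Ψ (Finsupp.single τ 1)) = Ψ (fbd (Finsupp.single τ 1)) ∧
      Ψ (Finsupp.single τ 1) ∈ On (fun υ => υ.card = τ.card ∧ ∀ p ∈ τ, ∀ q ∈ υ,
        (F.l (p.1⁻¹ * q.1) ≤ B ∧ F.l (q.1⁻¹ * p.1) ≤ B) ∧
        (F.l (p.2⁻¹ * q.2) ≤ B ∧ F.l (q.2⁻¹ * p.2) ≤ B)) ∧
      ((∀ p ∈ τ, Prod.swap p ∉ τ) → Ψ (Finsupp.single (τ.image Prod.swap) 1) =
        fmap Prod.swap (Ψ (Finsupp.single τ 1))) ∧
      (M < τ.card → Ψ (Finsupp.single τ 1) = 0)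

end Pool.Agent.VD
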