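import Pool.Agent.VS.Fin
import Pool.Agent.VS.Rec
import Pool.Agent.VN.NFBasic
/-!
# The homotopy between the identity and a chain map of bounded displacement
-/
namespace Pool.Agent.VD
open Pool.Agent.SLX Pool.Agent.VN Pool.Agent.VS

variable {A G : Type} [Group G] {π : A → G}

private theorem hy_fbd_single_on {V : Type} (σ : Finset V) :
    fbd (Finsupp.single σ (1 : ZMod 2)) ∈ On (fun τ => τ ⊆ σ ∧ τ.card + 1 = σ.card) :=
  fbd_on (P := fun τ => τ = σ) (fun _ _ h1 h2 h3 => by subst h1; exact ⟨h2, h3⟩)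
    (single_on rfl)

private theorem hy_tri (F : NF A G π) (x y z : G) :
    F.l (x⁻¹ * z) ≤ F.l (x⁻¹ * y) + F.l (y⁻¹ * z) := by
  have h := F.l_mul (x⁻¹ * y) (y⁻¹ * z)
  have e : x⁻¹ * y * (y⁻¹ * z) = x⁻¹ * z := by group
  rwa [e] at h

private def HQ (F : NF A G π) (N R B : ℕ) (f : FCh G →ₗ[ZMod 2] FCh G) (σ : Finset G)
    (u y : FCh G) : Prop :=
  σ.card ≤ N → Sm F R σ →
    fbd y = Finsupp.single σ 1 + f (Finsupp.single σ 1) + u ∧ (σ = ∅ → y = 0) ∧
    y ∈ On (fun υ => υ.card = σ.card + 1 ∧ ∀ x ∈ σ, ∀ y ∈ υ,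
      F.l (x⁻¹ * y) ≤ σ.card * (R + B) ∧ F.l (y⁻¹ * x) ≤ σ.card * (R + B))

/-- A chain map of bounded displacement is homotopic to the identity. -/
theorem exists_hty2 (F : NF A G π) (N R B : ℕ) (f : FCh G →ₗ[ZMod 2] FCh G)
    (hf0 : f (Finsupp.single ∅ 1) = Finsupp.single ∅ 1)
    (hf : ∀ σ : Finset G, σ.card ≤ N → Sm F R σ →
      fbd (f (Finsupp.single σ 1)) = f (fbd (Finsupp.single σ 1)) ∧
      f (Finsupp.single σ 1) ∈ On (fun υ => υ.card = σ.card ∧ ∀ x ∈ σ, ∀ y ∈ υ,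
        F.l (x⁻¹ * y) ≤ B ∧ F.l (y⁻¹ * x) ≤ B)) :
    ∃ H : FCh G →ₗ[ZMod 2] FCh G, H (Finsupp.single ∅ 1) = 0 ∧
      ∀ σ : Finset G, σ.card ≤ N → Sm F R σ →
      fbd (H (Finsupp.single σ 1)) =
        Finsupp.single σ 1 + f (Finsupp.single σ 1) + H (fbd (Finsupp.single σ 1)) ∧
      H (Finsupp.single σ 1) ∈ On (fun υ => υ.card = σ.card + 1 ∧ ∀ x ∈ σ, ∀ y ∈ υ,
        F.l (x⁻¹ * y) ≤ N * (R + B) ∧ F.l (y⁻¹ * x) ≤ N * (R + B)) := by
  classical
  have h0 : ∃ H : FCh G →ₗ[ZMod 2] FCh G, ∀ σ : Finset G,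
      HQ F N R B f σ (H (fbd (Finsupp.single σ 1))) (H (Finsupp.single σ 1)) := by
    refine exists_rec (fbd (V := G)) Finset.card ?_ (HQ F N R B f) ?_
    · intro σ τ hτ
      have := (on_iff.1 (hy_fbd_single_on σ) τ hτ).2
      omega
    intro σ H hH
    set u := H (fbd (Finsupp.single σ 1)) with hu
    by_cases hM : σ.card ≤ N
    swap
    · exact ⟨0, fun h => absurd h hM⟩
    by_cases hR : Sm F R σ
    swap
    · exact ⟨0, fun _ h => absurd h hR⟩
    rcases Finset.eq_empty_or_nonempty σ with rfl | ⟨x0, hx0⟩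
    · refine ⟨0, fun _ _ => ⟨?_, fun _ => rfl, Submodule.zero_mem _⟩⟩
      rw [hf0, hu, fbd_empty, map_zero, map_zero, add_zero, fadd_self]
    obtain ⟨n, hn⟩ : ∃ n, σ.card = n + 1 := ⟨σ.card - 1, by
      have := Finset.card_pos.2 ⟨x0, hx0⟩
      omega⟩
    set z : FCh G := Finsupp.single σ 1 + f (Finsupp.single σ 1) + u with hz
    have hsm : ∀ τ : Finset G, τ ⊆ σ → Sm F R τ := fun τ h x hx y hy => hR x (h hx) y (h hy)
    have hDz : fbd z = 0 := by
      have h3 : (fbd.comp H) (fbd (Finsupp.single σ 1)) =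
          ((LinearMap.id : FCh G →ₗ[ZMod 2] FCh G) + f + H.comp fbd)
            (fbd (Finsupp.single σ 1)) := by
        refine eq_on (fbd.comp H)
          ((LinearMap.id : FCh G →ₗ[ZMod 2] FCh G) + f + H.comp fbd) ?_ (hy_fbd_single_on σ)
        rintro τ ⟨hτ1, hτ2⟩
        exact (hH τ (by omega) (by omega) (hsm τ hτ1)).1
      simp only [LinearMap.comp_apply, LinearMap.add_apply, LinearMap.id_apply, fbd_fbd,
        map_zero, add_zero] at h3
      rw [hz, map_add, map_add, (hf σ hM hR).1, hu, h3, fadd_self]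
    have hzon : z ∈ On (fun τ => τ.card = σ.card ∧ ∀ x ∈ σ, ∀ p ∈ τ,
        F.l (x⁻¹ * p) ≤ σ.card * (R + B) ∧ F.l (p⁻¹ * x) ≤ σ.card * (R + B)) := by
      have hb : σ.card * (R + B) = n * (R + B) + (R + B) := by rw [hn]; ring
      refine Submodule.add_mem _ (Submodule.add_mem _ ?_ ?_) ?_
      · refine single_on ⟨rfl, fun x hx p hp => ?_⟩
        have c1 := hR x hx p hp
        have c2 := hR p hp x hx
        constructor <;> omega
      · refine on_mono ?_ (hf σ hM hR).2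
        rintro υ ⟨h1, h2⟩
        refine ⟨h1, fun x hx p hp => ?_⟩
        have := h2 x hx p hp
        constructor <;> omega
      · rw [hu]
        refine map_on H ?_ (hy_fbd_single_on σ)
        rintro τ ⟨hτ1, hτ2⟩
        have hcard : τ.card = n := by omega
        have hq := hH τ (by omega) (by omega) (hsm τ hτ1)
        rcases Finset.eq_empty_or_nonempty τ with rfl | ⟨x', hx'⟩
        · rw [hq.2.1 rfl]
          exact Submodule.zero_mem _
        · refine on_mono ?_ hq.2.2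
          rintro υ ⟨h1, h2⟩
          refine ⟨by omega, fun x hx p hp => ?_⟩
          obtain ⟨b1, b2⟩ := h2 x' hx' p hp
          rw [hcard] at b1 b2
          have c1 := hy_tri F x x' p
          have c2 := hy_tri F p x' x
          have c3 := hR x hx x' (hτ1 hx')
          have c4 := hR x' (hτ1 hx') x hx
          constructor <;> omega
    refine ⟨fcone x0 z, fun _ _ => ⟨?_, fun h => ?_, ?_⟩⟩
    · rw [fbd_fcone, hDz, map_zero, add_zero]
    · subst h
      simp at hx0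
    · refine fcone_on x0 ?_ hzon
      rintro τ υ ⟨h1, h2⟩ h3 h4
      refine ⟨by omega, fun x hx p hp => ?_⟩
      rcases (h4 p).1 hp with rfl | hp
      · have c1 := hR x hx p hx0
        have c2 := hR p hx0 x hx
        have hb : R ≤ σ.card * (R + B) := by
          rw [hn]
          calc R ≤ 1 * (R + B) := by omega
            _ ≤ (n + 1) * (R + B) := Nat.mul_le_mul_right _ (by omega)
        constructor <;> omega
      · exact h2 x hx p hp
  obtain ⟨H, hH⟩ := h0
  refine ⟨H, (hH ∅ (by simp) (by intro x hx; simp at hx)).2.1 rfl, fun σ hσ hR => ?_⟩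
  obtain ⟨h1, -, h3⟩ := hH σ hσ hR
  refine ⟨h1, on_mono ?_ h3⟩
  rintro υ ⟨g1, g2⟩
  have hle : σ.card * (R + B) ≤ N * (R + B) := Nat.mul_le_mul_right _ hσ
  exact ⟨g1, fun x hx y hy => ⟨(g2 x hx y hy).1.trans hle, (g2 x hx y hy).2.trans hle⟩⟩

end Pool.Agent.VD
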