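import Pool.Agent.VS.Fin
import Pool.Agent.VD.Hty
import Pool.Agent.VD.Defs
import Pool.Agent.VS.Fib
import Pool.Agent.VD.SAlg
import Pool.Agent.VS.Tau
import Pool.Agent.VN.NFBasic
/-!
# Coarse Smith theory: the Smith step in finite-dimensional groups
-/
namespace Pool.Agent.VD
open Pool.Agent.SLX Pool.Agent.VN Pool.Agent.VS

section STEP
variable {A G : Type} [Group G] {π : A → G}

private theorem st_tri (F : NF A G π) (x y z : G) :
    F.l (x⁻¹ * z) ≤ F.l (x⁻¹ * y) + F.l (y⁻¹ * z) := by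
  have h := F.l_mul (x⁻¹ * y) (y⁻¹ * z)
  have h2 : x⁻¹ * y * (y⁻¹ * z) = x⁻¹ * z := by group
  rwa [h2] at h

private theorem st_tri3 (F : NF A G π) (w a x y b : G) :
    F.l (a⁻¹ * w * b) ≤ F.l (a⁻¹ * x) + F.l (x⁻¹ * w * y) + F.l (y⁻¹ * b) := by
  have h := F.l_mul (a⁻¹ * x * (x⁻¹ * w * y)) (y⁻¹ * b)
  have h2 : a⁻¹ * x * (x⁻¹ * w * y) * (y⁻¹ * b) = a⁻¹ * w * b := by group
  rw [h2] at h
  have h3 := F.l_mul (a⁻¹ * x) (x⁻¹ * w * y)
  omega

private theorem st_sw_sm2 (F : NF A G π) {R : ℕ} {σ τ : Finset (G × G)} (h : Sm2 F R σ)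
    (hτ : ∀ y, y ∈ τ → Prod.swap y ∈ σ) : Sm2 F R τ := by
  intro p hp q hq
  have := h _ (hτ p hp) _ (hτ q hq)
  exact ⟨this.2, this.1⟩

private theorem st_sw_inX (F : NF A G π) {w : G} {L : ℕ} {p : G × G}
    (h : InX F w L (Prod.swap p)) : InX F w L p := by
  unfold InX at h ⊢
  have : F.l (p.2⁻¹ * w * p.1) + F.l (p.1⁻¹ * w * p.2) ≤ L := h
  omega

/-- The swap preserves the chains of small simplices in `X_L(w)`. -/
private theorem st_sw_on (F : NF A G π) {w : G} {j R L : ℕ} {c : FCh (G × G)}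
    (hc : c ∈ On (fun τ : Finset (G × G) => τ.card = j ∧ Sm2 F R τ ∧ ∀ p ∈ τ, InX F w L p)) :
    fmap Prod.swap c ∈
      On (fun τ : Finset (G × G) => τ.card = j ∧ Sm2 F R τ ∧ ∀ p ∈ τ, InX F w L p) := by
  refine fmap_on Prod.swap ?_ hc
  intro σ τ hσ hcard hmem
  have hm : ∀ y, y ∈ τ → Prod.swap y ∈ σ := by
    intro y hy
    obtain ⟨x, hx, rfl⟩ := (hmem y).1 hy
    rwa [Prod.swap_swap]
  refine ⟨hcard.trans hσ.1, st_sw_sm2 F hσ.2.1 hm, ?_⟩
  intro p hp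
  exact st_sw_inX F (hσ.2.2 _ (hm p hp))

private theorem st_sw_sw (c : FCh (G × G)) : fmap Prod.swap (fmap Prod.swap c) = c := by
  rw [fmap_fmap]
  have : (fun x : G × G => Prod.swap (Prod.swap x)) = fun x => x := by
    funext x
    exact Prod.swap_swap x
  rw [this, fmap_id]

/-- First projection. -/
private theorem st_fst_on (F : NF A G π) {w : G} {j R L : ℕ} {c : FCh (G × G)}
    (hc : c ∈ On (fun τ : Finset (G × G) => τ.card = j ∧ Sm2 F R τ ∧ ∀ p ∈ τ, InX F w L p)) :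
    fmap Prod.fst c ∈
      On (fun σ : Finset G => σ.card = j ∧ Sm F R σ ∧ ∀ x ∈ σ, InY F (w * w) L x) := by
  refine fmap_on Prod.fst ?_ hc
  intro σ τ hσ hcard hmem
  refine ⟨hcard.trans hσ.1, ?_, ?_⟩
  · intro x hx y hy
    obtain ⟨p, hp, rfl⟩ := (hmem x).1 hx
    obtain ⟨q, hq, rfl⟩ := (hmem y).1 hy
    exact (hσ.2.1 p hp q hq).1
  · intro x hx
    obtain ⟨p, hp, rfl⟩ := (hmem x).1 hx
    have h1 := hσ.2.2 p hp
    unfold InX at h1
    unfold InY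
    have h2 := F.l_mul (p.1⁻¹ * w * p.2) (p.2⁻¹ * w * p.1)
    have h3 : p.1⁻¹ * w * p.2 * (p.2⁻¹ * w * p.1) = p.1⁻¹ * (w * w) * p.1 := by group
    rw [h3] at h2
    omega

private theorem st_mono (F : NF A G π) {w : G} {j R R' L L' : ℕ} (hR : R ≤ R') (hL : L ≤ L')
    {c : FCh (G × G)}
    (hc : c ∈ On (fun τ : Finset (G × G) => τ.card = j ∧ Sm2 F R τ ∧ ∀ p ∈ τ, InX F w L p)) :
    c ∈ On (fun τ : Finset (G × G) => τ.card = j ∧ Sm2 F R' τ ∧ ∀ p ∈ τ, InX F w L' p) := by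
  refine on_mono ?_ hc
  intro σ hσ
  refine ⟨hσ.1, ?_, ?_⟩
  · intro p hp q hq
    exact ⟨(hσ.2.1 p hp q hq).1.trans hR, (hσ.2.1 p hp q hq).2.trans hR⟩
  · intro p hp
    exact le_trans (hσ.2.2 p hp) hL

/-- The tower of chains. -/
private theorem st_tower [Finite A] (F : NF A G π) (k : ℕ)
    (hfil : ∀ j, k < j → ∀ R, ∃ R' C, Fil F j R R' C) (R R1 : ℕ) :
    ∀ n : ℕ, ∃ R2 C : ℕ, ∀ (w : G) (L a : ℕ), Tau F w L →
      ∀ z ∈ On (fun τ : Finset (G × G) => τ.card = k ∧ Sm2 F R τ ∧ ∀ p ∈ τ, InX F w (2 * L) p),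
      fbd z = 0 → fmap Prod.swap z = z →
      (∃ e ∈ On (fun σ : Finset G => σ.card = k + 1 ∧ Sm F R1 σ ∧
        ∀ x ∈ σ, InY F (w * w) (2 * L + a) x), fbd e = fmap Prod.fst z) →
      ∃ b : ℕ → FCh (G × G),
        (∀ i, k < i → i ≤ k + 1 + n → b i ∈ On (fun τ : Finset (G × G) => τ.card = i ∧
          Sm2 F R2 τ ∧ ∀ p ∈ τ, InX F w (2 * L + a + C) p)) ∧
        fbd (b (k + 1)) = z ∧
        ∀ i, k < i → i < k + 1 + n → fbd (b (i + 1)) = b i + fmap Prod.swap (b i) := by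
  intro n
  induction n with
  | zero =>
    obtain ⟨R', C, h⟩ := fib_fill F k R R1
    refine ⟨R', C, ?_⟩
    intro w L a _ z hz hz0 _ he
    obtain ⟨e, he1, he2⟩ := he
    obtain ⟨b', hb1, hb2⟩ := h w (2 * L) (2 * L + a) (Nat.le_add_right _ _) k le_rfl z hz hz0
      e he1 he2
    refine ⟨fun _ => b', ?_, hb2, ?_⟩
    · intro i h1 h2
      have : i = k + 1 := by omega
      subst this
      exact hb1
    · intro i h1 h2
      omega
  | succ n ih =>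
    obtain ⟨Rj, Cj, h⟩ := ih
    obtain ⟨R', C', hF⟩ := hfil (k + 1 + n) (by omega) Rj
    obtain ⟨R'', C'', hB⟩ := fib_fill F (k + 1 + n) Rj R'
    refine ⟨max Rj R'', Cj + C' + C'', ?_⟩
    intro w L a hT z hz hz0 hzT he
    obtain ⟨b, hb1, hb2, hb3⟩ := h w L a hT z hz hz0 hzT he
    set j := k + 1 + n with hj
    have hbj := hb1 j (by omega) le_rfl
    set c : FCh (G × G) := b j + fmap Prod.swap (b j) with hc
    have hc1 : c ∈ On (fun τ : Finset (G × G) => τ.card = j ∧ Sm2 F Rj τ ∧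
        ∀ p ∈ τ, InX F w (2 * L + a + Cj) p) := Submodule.add_mem _ hbj (st_sw_on F hbj)
    have hc2 : fbd c = 0 := by
      have h1 : fbd c = fbd (b j) + fmap Prod.swap (fbd (b j)) := by
        rw [hc, map_add, fbd_fmap]
      rw [h1]
      by_cases hn : n = 0
      · have : j = k + 1 := by omega
        rw [this, hb2, hzT]
        exact fadd_self z
      · obtain ⟨i, hi⟩ : ∃ i, j = i + 1 := ⟨k + n, by omega⟩
        rw [hi, hb3 i (by omega) (by omega), map_add, st_sw_sw]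
        have : b i + fmap Prod.swap (b i) + (fmap Prod.swap (b i) + b i) =
          (b i + b i) + (fmap Prod.swap (b i) + fmap Prod.swap (b i)) := by abel
        rw [this, fadd_self, fadd_self, add_zero]
    obtain ⟨e, he1, he2⟩ := hF (w * w) (2 * L + a + Cj) (tau_mono F (by omega) (tau_sq F hT))
      (fmap Prod.fst c) (st_fst_on F hc1) (by rw [fbd_fmap, hc2, map_zero])
    obtain ⟨b', hb'1, hb'2⟩ := hB w (2 * L + a + Cj) (2 * L + a + Cj + C') (by omega) j le_rfl c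
      hc1 hc2 e he1 he2
    refine ⟨fun i => if i = j + 1 then b' else b i, ?_, ?_, ?_⟩
    · intro i h1 h2
      by_cases h3 : i = j + 1
      · simp only [h3, if_true]
        exact st_mono F (le_max_right _ _) (by omega) hb'1
      · simp only [h3, if_false]
        exact st_mono F (le_max_left _ _) (by omega) (hb1 i h1 (by omega))
    · have h3 : k + 1 ≠ j + 1 := by omega
      simp only [h3, if_false]
      exact hb2
    · intro i h1 h2
      by_cases h3 : i = j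
      · have h4 : i ≠ j + 1 := by omega
        have h5 : i + 1 = j + 1 := by omega
        simp only [h4, h5, if_false, if_true]
        rw [hb'2, hc, h3]
      · have h4 : i ≠ j + 1 := by omega
        have h5 : i + 1 ≠ j + 1 := by omega
        simp only [h4, h5, if_false]
        exact hb3 i h1 (by omega)


theorem fmap_single_inj {V W : Type} (f : V → W) (hf : Function.Injective f)
    (σ : Finset V) (τ : Finset W) (h : ∀ y, y ∈ τ ↔ ∃ x ∈ σ, f x = y) :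
    fmap f (Finsupp.single σ (1 : ZMod 2)) = Finsupp.single τ 1 := by
  classical
  rw [fmap_single]
  have e : σ.image f = τ := by
    ext y
    rw [Finset.mem_image]
    exact (h y).symm
  rw [if_pos (Finset.card_image_of_injective _ hf), e]

/-- The properties of the chain map of `DimP`. -/
def PG (F : NF A G π) (M R N B : ℕ) (Ψ : FCh (G × G) →ₗ[ZMod 2] FCh (G × G)) : Prop :=
  ∀ τ : Finset (G × G), τ.card ≤ N → Sm2 F R τ →
    fbd (Ψ (Finsupp.single τ 1)) = Ψ (fbd (Finsupp.single τ 1)) ∧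
    Ψ (Finsupp.single τ 1) ∈ On (fun υ => υ.card = τ.card ∧ ∀ p ∈ τ, ∀ q ∈ υ,
      (F.l (p.1⁻¹ * q.1) ≤ B ∧ F.l (q.1⁻¹ * p.1) ≤ B) ∧
      (F.l (p.2⁻¹ * q.2) ≤ B ∧ F.l (q.2⁻¹ * p.2) ≤ B)) ∧
    ((∀ p ∈ τ, Prod.swap p ∉ τ) → Ψ (fmap Prod.swap (Finsupp.single τ 1)) =
      fmap Prod.swap (Ψ (Finsupp.single τ 1))) ∧
    (M < τ.card → Ψ (Finsupp.single τ 1) = 0)

theorem pg_of_dimP (F : NF A G π) {M : ℕ} (hA : DimP F M) (R N : ℕ) :
    ∃ (B : ℕ) (Ψ : FCh (G × G) →ₗ[ZMod 2] FCh (G × G)),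
      Ψ (Finsupp.single ∅ 1) = Finsupp.single ∅ 1 ∧ PG F M R N B Ψ := by
  classical
  obtain ⟨B, Ψ, h0, h⟩ := hA R N
  refine ⟨B, Ψ, h0, fun τ h1 h2 => ?_⟩
  obtain ⟨g1, g2, g3, g4⟩ := h τ h1 h2
  refine ⟨g1, g2, fun hf => ?_, g4⟩
  rw [← g3 hf, fmap_single_inj Prod.swap Prod.swap_injective τ _ (fun y => Finset.mem_image)]

theorem pg_fbd (F : NF A G π) {M R N B : ℕ} {Ψ : FCh (G × G) →ₗ[ZMod 2] FCh (G × G)}
    (h : PG F M R N B Ψ) {P : Finset (G × G) → Prop} (hP : ∀ τ, P τ → τ.card ≤ N ∧ Sm2 F R τ)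
    {c : FCh (G × G)} (hc : c ∈ On P) : fbd (Ψ c) = Ψ (fbd c) :=
  eq_on (fbd.comp Ψ) (Ψ.comp fbd) (fun τ hτ => (h τ (hP τ hτ).1 (hP τ hτ).2).1) hc

/-- The diagonal is not moved far. -/
def Nr (F : NF A G π) (R : ℕ) (τ : Finset (G × G)) : Prop :=
  ∀ p ∈ τ, F.l (p.1⁻¹ * p.2) ≤ R ∧ F.l (p.2⁻¹ * p.1) ≤ R

theorem pg_swap (F : NF A G π) {M R N B : ℕ} {Ψ : FCh (G × G) →ₗ[ZMod 2] FCh (G × G)}
    (h : PG F M R N B Ψ) {P : Finset (G × G) → Prop} (hP : ∀ τ, P τ → τ.card ≤ N ∧ Sm2 F R τ)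
    {c : FCh (G × G)} (hc : c ∈ On P) :
    Ψ (fmap Prod.swap c) + fmap Prod.swap (Ψ c) ∈ On (Nr F (3 * R + 2 * B)) := by
  classical
  refine map_on (Ψ.comp (fmap Prod.swap) + (fmap Prod.swap).comp Ψ) ?_ hc
  intro τ hτ
  obtain ⟨h1, h2⟩ := hP τ hτ
  rw [LinearMap.add_apply, LinearMap.comp_apply, LinearMap.comp_apply]
  by_cases hf : ∀ p ∈ τ, Prod.swap p ∉ τ
  · rw [(h τ h1 h2).2.2.1 hf, fadd_self]
    exact Submodule.zero_mem _
  · push Not at hf
    obtain ⟨p, hp, hp'⟩ := hf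
    have hnear : ∀ q ∈ τ, F.l (q.1⁻¹ * q.2) ≤ 3 * R ∧ F.l (q.2⁻¹ * q.1) ≤ 3 * R := by
      intro q hq
      have e1 := (h2 p hp _ hp').1
      have e2 := (h2 _ hp' p hp).1
      have e3 := h2 q hq p hp
      have e4 := h2 p hp q hq
      have e1' : F.l (p.1⁻¹ * p.2) ≤ R := e1
      have e2' : F.l (p.2⁻¹ * p.1) ≤ R := e2
      have t1 := st_tri F q.1 p.1 q.2
      have t2 := st_tri F p.1 p.2 q.2
      have t3 := st_tri F q.2 p.2 q.1
      have t4 := st_tri F p.2 p.1 q.1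
      constructor <;> omega
    obtain ⟨q0, hq0⟩ : τ.Nonempty := ⟨p, hp⟩
    have hcard : (τ.image Prod.swap).card = τ.card :=
      Finset.card_image_of_injective _ Prod.swap_injective
    have hsw : fmap Prod.swap (Finsupp.single τ (1 : ZMod 2)) =
        Finsupp.single (τ.image Prod.swap) 1 :=
      fmap_single_inj Prod.swap Prod.swap_injective τ _ (fun y => Finset.mem_image)
    have hS : Sm2 F R (τ.image Prod.swap) := by
      intro x hx y hy
      rw [Finset.mem_image] at hx hy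
      obtain ⟨a, ha, rfl⟩ := hx
      obtain ⟨b, hb, rfl⟩ := hy
      have := h2 a ha b hb
      exact ⟨this.2, this.1⟩
    refine Submodule.add_mem _ ?_ ?_
    · rw [hsw]
      refine on_mono ?_ (h _ (by rw [hcard]; exact h1) hS).2.1
      rintro υ ⟨-, g⟩ r hr
      have g1 := g (Prod.swap q0) (Finset.mem_image_of_mem _ hq0) r hr
      have g2 := hnear q0 hq0
      have a1 : F.l (q0.2⁻¹ * r.1) ≤ B := g1.1.1
      have a2 : F.l (r.1⁻¹ * q0.2) ≤ B := g1.1.2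
      have a3 : F.l (q0.1⁻¹ * r.2) ≤ B := g1.2.1
      have a4 : F.l (r.2⁻¹ * q0.1) ≤ B := g1.2.2
      have t1 := st_tri F r.1 q0.2 r.2
      have t2 := st_tri F q0.2 q0.1 r.2
      have t3 := st_tri F r.2 q0.1 r.1
      have t4 := st_tri F q0.1 q0.2 r.1
      constructor <;> omega
    · refine fmap_on Prod.swap ?_ (h τ h1 h2).2.1
      rintro υ υ' ⟨-, g⟩ _ hm r hr
      obtain ⟨s, hs, rfl⟩ := (hm r).1 hr
      have g1 := g q0 hq0 s hs
      have g2 := hnear q0 hq0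
      have t1 := st_tri F s.1 q0.1 s.2
      have t2 := st_tri F q0.1 q0.2 s.2
      have t3 := st_tri F s.2 q0.2 s.1
      have t4 := st_tri F q0.2 q0.1 s.1
      constructor
      · show F.l (s.2⁻¹ * s.1) ≤ _
        omega
      · show F.l (s.1⁻¹ * s.2) ≤ _
        omega

open Classical in
/-- The homotopy for the symmetric projection. -/
theorem pg_hty (F : NF A G π) {M R N B : ℕ} {Ψ : FCh (G × G) →ₗ[ZMod 2] FCh (G × G)}
    (h0 : Ψ (Finsupp.single ∅ 1) = Finsupp.single ∅ 1)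
    (h : PG F M R N B Ψ) (μ : G × G → G) (hμ : ∀ p, μ p = p.1 ∨ μ p = p.2) :
    ∃ H : FCh G →ₗ[ZMod 2] FCh G, H (Finsupp.single ∅ 1) = 0 ∧
      ∀ σ : Finset G, σ.card ≤ N → Sm F R σ →
      fbd (H (Finsupp.single σ 1)) =
        Finsupp.single σ 1 + fmap μ (Ψ (fmap (fun x => (x, x)) (Finsupp.single σ 1))) +
          H (fbd (Finsupp.single σ 1)) ∧
      H (Finsupp.single σ 1) ∈ On (fun υ => υ.card = σ.card + 1 ∧ ∀ x ∈ σ, ∀ y ∈ υ,
        F.l (x⁻¹ * y) ≤ N * (R + B) ∧ F.l (y⁻¹ * x) ≤ N * (R + B)) := by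
  set δ : G → G × G := fun x => (x, x) with hδ
  have hδi : Function.Injective δ := fun x y hxy => congrArg Prod.fst hxy
  have hs : ∀ σ : Finset G, fmap δ (Finsupp.single σ (1 : ZMod 2)) =
      Finsupp.single (σ.image δ) 1 := by
    intro σ
    exact fmap_single_inj δ hδi σ _ (fun y => Finset.mem_image)
  have hsm : ∀ σ : Finset G, Sm F R σ → Sm2 F R (σ.image δ) := by
    intro σ hσ p hp q hq
    rw [Finset.mem_image] at hp hq
    obtain ⟨x, hx, rfl⟩ := hp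
    obtain ⟨y, hy, rfl⟩ := hq
    exact ⟨hσ x hx y hy, hσ x hx y hy⟩
  have hcd : ∀ σ : Finset G, (σ.image δ).card = σ.card :=
    fun σ => Finset.card_image_of_injective _ hδi
  refine exists_hty2 F N R B ((fmap μ).comp (Ψ.comp (fmap δ))) ?_ ?_
  · rw [LinearMap.comp_apply, LinearMap.comp_apply, hs, Finset.image_empty, h0, fmap_single]
    simp
  · intro σ hσ hR
    have h1 := h (σ.image δ) (by rw [hcd]; exact hσ) (hsm σ hR)
    constructor
    · rw [LinearMap.comp_apply, LinearMap.comp_apply, LinearMap.comp_apply, LinearMap.comp_apply,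
        fbd_fmap μ, hs, h1.1, ← hs, fbd_fmap δ]
    · rw [LinearMap.comp_apply, LinearMap.comp_apply, hs]
      refine fmap_on μ ?_ h1.2.1
      rintro υ υ' ⟨g1, g2⟩ hc hm
      refine ⟨by rw [hc, g1, hcd], fun x hx y hy => ?_⟩
      obtain ⟨q, hq, rfl⟩ := (hm y).1 hy
      have g3 := g2 (δ x) (Finset.mem_image_of_mem _ hx) q hq
      rcases hμ q with e | e <;> rw [e]
      · exact g3.1
      · exact g3.2

/-- The Smith step. -/
theorem smith_step2 [Finite A] (F : NF A G π) {M0 : ℕ} (hA : DimP F M0) (k : ℕ)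
    (hk : k ≤ M0)
    (hfil : ∀ j, k < j → ∀ R, ∃ R' C, Fil F j R R' C) (R R1 : ℕ) :
    ∃ R2 C : ℕ, ∀ (w : G) (L a : ℕ), Tau F w L →
      ∀ c ∈ On (fun σ : Finset G => σ.card = k ∧ Sm F R σ ∧ ∀ x ∈ σ, InY F w L x), fbd c = 0 →
      (∃ e ∈ On (fun σ : Finset G => σ.card = k + 1 ∧ Sm F R1 σ ∧
        ∀ x ∈ σ, InY F (w * w) (2 * L + a) x), fbd e = c) →
      ∃ e ∈ On (fun σ : Finset G => σ.card = k + 1 ∧ Sm F R2 σ ∧
        ∀ x ∈ σ, InY F w (L + a / 2 + C) x), fbd e = c := by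
  classical
  obtain ⟨n, hn⟩ : ∃ n, k + 1 + n = M0 + 1 := ⟨M0 - k, by omega⟩
  obtain ⟨Rm, Cm, hTow⟩ := st_tower F k hfil R R1 n
  set Rq := max R Rm with hRq
  obtain ⟨B, Ψ, hΨ0, hΨ⟩ := pg_of_dimP F hA Rq (M0 + 1)
  -- the symmetric retraction
  obtain ⟨lo⟩ : Nonempty (LinearOrder G) := ⟨linearOrderOfSTO (WellOrderingRel (α := G))⟩
  set μ : G × G → G := fun p => if lo.lt p.1 p.2 then p.1 else p.2 with hμ
  have hμsw : ∀ p : G × G, μ (Prod.swap p) = μ p := by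
    intro p
    show (if lo.lt p.2 p.1 then p.2 else p.1) = if lo.lt p.1 p.2 then p.1 else p.2
    by_cases h1 : lo.lt p.1 p.2
    · have h2 : ¬ lo.lt p.2 p.1 := fun h3 => lt_asymm h1 h3
      rw [if_pos h1, if_neg h2]
    · rw [if_neg h1]
      by_cases h2 : lo.lt p.2 p.1
      · rw [if_pos h2]
      · rw [if_neg h2]
        exact le_antisymm (not_lt.1 h2) (not_lt.1 h1)
  have hμ2 : ∀ p : G × G, μ p = p.1 ∨ μ p = p.2 := by
    intro p
    show (if lo.lt p.1 p.2 then p.1 else p.2) = p.1 ∨ (if lo.lt p.1 p.2 then p.1 else p.2) = p.2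
    by_cases h1 : lo.lt p.1 p.2
    · exact Or.inl (if_pos h1)
    · exact Or.inr (if_neg h1)
  obtain ⟨H, hH0, hH⟩ := pg_hty F hΨ0 hΨ μ hμ2
  set Bh := (M0 + 1) * (Rq + B) with hBh
  set Rt := 2 * B with hRt
  set Ct := Cm + 4 * B with hCt
  set Rn := 3 * Rq + 2 * B with hRn
  refine ⟨2 * Rt + 2 * Rn + 2 * Bh, Ct + Rn + 1 + 2 * Bh, ?_⟩
  intro w L a hT c hc hc0 he
  set δ : G → G × G := fun x => (x, x) with hδ
  set z : FCh (G × G) := fmap δ c with hz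
  have hz1 : z ∈ On (fun τ : Finset (G × G) => τ.card = k ∧ Sm2 F R τ ∧
      ∀ p ∈ τ, InX F w (2 * L) p) := by
    refine fmap_on δ ?_ hc
    intro σ τ hσ hcard hmem
    refine ⟨hcard.trans hσ.1, ?_, ?_⟩
    · intro p hp q hq
      obtain ⟨x, hx, rfl⟩ := (hmem p).1 hp
      obtain ⟨y, hy, rfl⟩ := (hmem q).1 hq
      exact ⟨hσ.2.1 x hx y hy, hσ.2.1 x hx y hy⟩
    · intro p hp
      obtain ⟨x, hx, rfl⟩ := (hmem p).1 hp
      have h1 : F.l (x⁻¹ * w * x) ≤ L := hσ.2.2 x hx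
      show F.l (x⁻¹ * w * x) + F.l (x⁻¹ * w * x) ≤ 2 * L
      omega
  have hzd : z ∈ On (fun τ : Finset (G × G) => (τ.card ≤ M0 + 1 ∧ Sm2 F Rq τ) ∧
      ∀ p ∈ τ, p.1 = p.2) := by
    refine fmap_on δ ?_ hc
    intro σ τ hσ hcard hmem
    refine ⟨⟨by rw [hcard, hσ.1]; omega, ?_⟩, ?_⟩
    · intro p hp q hq
      obtain ⟨x, hx, rfl⟩ := (hmem p).1 hp
      obtain ⟨y, hy, rfl⟩ := (hmem q).1 hq
      exact ⟨(hσ.2.1 x hx y hy).trans (le_max_left _ _),
        (hσ.2.1 x hx y hy).trans (le_max_left _ _)⟩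
    · intro p hp
      obtain ⟨x, hx, rfl⟩ := (hmem p).1 hp
      rfl
  have hz2 : fbd z = 0 := by rw [hz, fbd_fmap, hc0, map_zero]
  have hz3 : fmap Prod.swap z = z := by
    rw [hz, fmap_fmap]
    rfl
  have hz4 : fmap Prod.fst z = c := by
    rw [hz, fmap_fmap]
    exact fmap_id c
  obtain ⟨b, hb1, hb2, hb3⟩ := hTow w L a hT z hz1 hz2 hz3 (by
    obtain ⟨e, he1, he2⟩ := he
    exact ⟨e, he1, by rw [he2, hz4]⟩)
  rw [hn] at hb1 hb3
  set M := M0 + 1 with hM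
  have hbP : ∀ i, k < i → i ≤ M → b i ∈ On (fun τ : Finset (G × G) => τ.card ≤ M ∧
      Sm2 F Rq τ) := by
    intro i h1 h2
    refine on_mono ?_ (hb1 i h1 h2)
    rintro τ ⟨g1, g2, -⟩
    exact ⟨by omega, fun p hp q hq => ⟨(g2 p hp q hq).1.trans (le_max_right _ _),
      (g2 p hp q hq).2.trans (le_max_right _ _)⟩⟩
  -- the pushed chains
  have hpush : ∀ i, k < i → i ≤ M → Ψ (b i) ∈ On (fun τ : Finset (G × G) => τ.card = i ∧
      (Sm2 F Rt τ ∧ ∀ p ∈ τ, InX F w (2 * L + a + Ct) p)) := by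
    intro i h1 h2
    refine map_on Ψ ?_ (on_and (hb1 i h1 h2) (hbP i h1 h2))
    rintro σ ⟨hσ, hσ'⟩
    refine on_mono ?_ (hΨ σ hσ'.1 hσ'.2).2.1
    rintro υ ⟨g1, g2⟩
    obtain ⟨p, hp⟩ : σ.Nonempty := Finset.card_pos.1 (by omega)
    refine ⟨g1.trans hσ.1, ?_, ?_⟩
    · intro q hq q' hq'
      have e1 := g2 p hp q hq
      have e2 := g2 p hp q' hq'
      have t1 := st_tri F q.1 p.1 q'.1
      have t2 := st_tri F q.2 p.2 q'.2
      constructor <;> omega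
    · intro q hq
      have g3 : F.l (p.1⁻¹ * w * p.2) + F.l (p.2⁻¹ * w * p.1) ≤ 2 * L + a + Cm := hσ.2.2 p hp
      show F.l (q.1⁻¹ * w * q.2) + F.l (q.2⁻¹ * w * q.1) ≤ 2 * L + a + Ct
      have e1 := g2 p hp q hq
      have t1 := st_tri3 F w q.1 p.1 p.2 q.2
      have t2 := st_tri3 F w q.2 p.2 p.1 q.1
      omega
  have hNr0 : Ψ z ∈ On (Nr F Rn) := by
    refine map_on Ψ ?_ hzd
    rintro σ ⟨⟨h1, h2⟩, h3⟩
    refine on_mono ?_ (hΨ σ h1 h2).2.1
    rintro υ ⟨g1, g2⟩ q hq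
    obtain ⟨p, hp⟩ : σ.Nonempty := Finset.card_pos.1 (by
      rw [← g1]
      exact Finset.card_pos.2 ⟨q, hq⟩)
    have e1 := g2 p hp q hq
    rw [h3 p hp] at e1
    have t1 := st_tri F q.1 p.2 q.2
    have t2 := st_tri F q.2 p.2 q.1
    constructor <;> omega
  obtain ⟨ν, h, hν, hh, hνh⟩ := smith_alg2 (V := G × G) Prod.swap Prod.swap_swap
    (fun τ => Sm2 F Rt τ ∧ ∀ p ∈ τ, InX F w (2 * L + a + Ct) p)
    (Nr F Rn)
    (by
      intro σ τ hσ hsub
      exact ⟨fun p hp q hq => hσ.1 p (hsub hp) q (hsub hq), fun p hp => hσ.2 p (hsub hp)⟩)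
    (by
      intro σ τ hσ hsub p hp
      exact hσ p (hsub hp))
    (by
      intro σ τ hσ hm
      have hm' : ∀ y, y ∈ τ → Prod.swap y ∈ σ := fun y hy => (hm y).1 hy
      exact ⟨st_sw_sm2 F hσ.1 hm', fun p hp => st_sw_inX F (hσ.2 _ (hm' p hp))⟩)
    (by
      intro σ τ hσ hm p hp
      have := hσ _ ((hm p).1 hp)
      exact ⟨this.2, this.1⟩)
    (by
      intro σ hσ hN hinv
      apply hN
      intro p hp
      have h1 := hσ.1 p hp _ ((hinv p).1 hp)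
      have h2 := hσ.1 _ ((hinv p).1 hp) p hp
      have h3 : F.l (p.1⁻¹ * p.2) ≤ Rt := h1.1
      have h4 : F.l (p.2⁻¹ * p.1) ≤ Rt := h2.1
      constructor <;> omega)
    k M (by omega) (fun i => Ψ (b i)) hpush
    (by
      intro j h1 h2
      show fbd (Ψ (b (j + 1))) + (Ψ (b j) + fmap Prod.swap (Ψ (b j))) ∈ _
      rw [pg_fbd F hΨ (fun τ hτ => hτ) (hbP (j + 1) (by omega) (by omega)), hb3 j h1 h2, map_add]
      have e : Ψ (b j) + Ψ (fmap Prod.swap (b j)) + (Ψ (b j) + fmap Prod.swap (Ψ (b j))) =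
          (Ψ (b j) + Ψ (b j)) + (Ψ (fmap Prod.swap (b j)) + fmap Prod.swap (Ψ (b j))) := by abel
      rw [e, fadd_self, zero_add]
      exact pg_swap F hΨ (fun τ hτ => hτ) (hbP j h1 (by omega)))
    (by
      have := eq_on Ψ 0 (P := fun τ : Finset (G × G) => τ.card = M ∧ τ.card ≤ M ∧ Sm2 F Rq τ)
        (fun τ hτ => by
          rw [LinearMap.zero_apply]
          exact (hΨ τ hτ.2.1 hτ.2.2).2.2.2 (by omega))
        (on_mono (fun σ hσ => ⟨hσ.1.1, hσ.2⟩)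
          (on_and (hb1 M (by omega) le_rfl) (hbP M (by omega) le_rfl)))
      exact this)
    (by
      show fbd (Ψ (b (k + 1))) ∈ _
      rw [pg_fbd F hΨ (fun τ hτ => hτ) (hbP (k + 1) (by omega) (by omega)), hb2]
      exact hNr0)
  have hcP : c ∈ On (fun σ : Finset G => (σ.card ≤ M ∧ Sm F Rq σ) ∧ (σ.card = k ∧
      ∀ x ∈ σ, InY F w L x)) := by
    refine on_mono ?_ hc
    rintro σ ⟨g1, g2, g3⟩
    exact ⟨⟨by omega, fun x hx y hy => (g2 x hx y hy).trans (le_max_left _ _)⟩, g1, g3⟩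
  refine ⟨fmap μ ν + H c, Submodule.add_mem _ ?_ ?_, ?_⟩
  · refine fmap_on μ ?_ hν
    intro σ τ hσ hcard hmem
    obtain ⟨s1, ⟨s2, s3⟩, s4⟩ := hσ
    refine ⟨hcard.trans s1, ?_, ?_⟩
    · intro x hx y hy
      obtain ⟨p, hp, rfl⟩ := (hmem x).1 hx
      obtain ⟨q, hq, rfl⟩ := (hmem y).1 hy
      have g1 := s2 p hp q hq
      have g2 := s4 p hp
      have g3 := s4 q hq
      have g4 := st_tri F p.1 q.1 q.2
      have g5 := st_tri F p.2 q.2 q.1
      rcases hμ2 p with e1 | e1 <;> rcases hμ2 q with e2 | e2 <;> rw [e1, e2] <;> omega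
    · intro x hx
      obtain ⟨p, hp, rfl⟩ := (hmem x).1 hx
      have g1 : F.l (p.1⁻¹ * w * p.2) + F.l (p.2⁻¹ * w * p.1) ≤ 2 * L + a + Ct := s3 p hp
      have g2 := s4 p hp
      show F.l ((μ p)⁻¹ * w * μ p) ≤ L + a / 2 + (Ct + Rn + 1 + 2 * Bh)
      have z1 : F.l ((p.1)⁻¹ * p.1) = 0 := by rw [inv_mul_cancel, F.l_one]
      have z2 : F.l ((p.2)⁻¹ * p.2) = 0 := by rw [inv_mul_cancel, F.l_one]
      rcases hμ2 p with e1 | e1
      · rw [e1]
        have g4 := st_tri3 F w p.1 p.1 p.2 p.1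
        have g5 := st_tri3 F w p.1 p.2 p.1 p.1
        omega
      · rw [e1]
        have g4 := st_tri3 F w p.2 p.2 p.1 p.2
        have g5 := st_tri3 F w p.2 p.1 p.2 p.2
        omega
  · refine map_on H ?_ hcP
    rintro σ ⟨⟨g1, g2⟩, g3, g4⟩
    rcases Finset.eq_empty_or_nonempty σ with rfl | ⟨x0, hx0⟩
    · rw [hH0]
      exact Submodule.zero_mem _
    refine on_mono ?_ (hH σ g1 g2).2
    rintro τ ⟨t1, t2⟩
    refine ⟨by rw [t1, g3], ?_, ?_⟩
    · intro x hx y hy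
      have e1 := t2 x0 hx0 x hx
      have e2 := t2 x0 hx0 y hy
      have e3 := st_tri F x x0 y
      omega
    · intro x hx
      have e1 := t2 x0 hx0 x hx
      have e2 : F.l (x0⁻¹ * w * x0) ≤ L := g4 x0 hx0
      have e3 := st_tri3 F w x x0 x0 x
      show F.l (x⁻¹ * w * x) ≤ L + a / 2 + (Ct + Rn + 1 + 2 * Bh)
      omega
  · have e1 : fmap μ (h + fmap Prod.swap h) = 0 := by
      rw [map_add, fmap_fmap]
      have : (fun x : G × G => μ (Prod.swap x)) = μ := by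
        funext x
        exact hμsw x
      rw [this]
      exact fadd_self _
    have e2 : fbd (Ψ (b (k + 1))) = Ψ z := by
      rw [pg_fbd F hΨ (fun τ hτ => hτ) (hbP (k + 1) (by omega) (by omega)), hb2]
    have e3 : fmap μ (fbd ν) = fmap μ (Ψ z) := by
      have h1 := congrArg (fmap μ) hνh
      rw [map_add, e1, add_zero] at h1
      rw [← h1]
      exact congrArg (fmap μ) e2
    have e4 : fbd (H c) = c + fmap μ (Ψ z) := by
      have h1 := eq_on (fbd.comp H) (LinearMap.id + (fmap μ).comp (Ψ.comp (fmap δ)) + H.comp fbd)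
        (fun σ hσ => (hH σ hσ.1.1 hσ.1.2).1) hcP
      rw [LinearMap.comp_apply, LinearMap.add_apply, LinearMap.add_apply, LinearMap.id_apply,
        LinearMap.comp_apply, LinearMap.comp_apply, LinearMap.comp_apply, hc0, map_zero,
        add_zero] at h1
      exact h1
    rw [map_add, fbd_fmap, e3, e4]
    have : fmap μ (Ψ z) + (c + fmap μ (Ψ z)) = c + (fmap μ (Ψ z) + fmap μ (Ψ z)) := by abel
    rw [this, fadd_self, add_zero]

end STEP

end Pool.Agent.VD
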