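import Pool.Agent.VD.Defs
import Pool.Agent.VD.Step
import Pool.Agent.VS.Fin
import Pool.Agent.VN.NFBasic
/-!
# Finite asymptotic dimension gives finite dimension for pairs
-/
namespace Pool.Agent.VD
open Pool.Agent.SLX Pool.Agent.VN Pool.Agent.VS

variable {A G : Type} [Group G] {π : A → G}

private theorem ad_tri (F : NF A G π) (x y z : G) :
    F.l (x⁻¹ * z) ≤ F.l (x⁻¹ * y) + F.l (y⁻¹ * z) := by
  have h := F.l_mul (x⁻¹ * y) (y⁻¹ * z)
  have h2 : x⁻¹ * y * (y⁻¹ * z) = x⁻¹ * z := by group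
  rwa [h2] at h

open Classical in
/-- A product of maps with few values on small sets is not injective on a large set. -/
private theorem ad_not_inj (F : NF A G π) {Dm R : ℕ} (φ : G → G)
    (hφ : ∀ σ : Finset G, Sm F R σ → (φ '' (σ : Set G)).ncard ≤ Dm + 1)
    (τ : Finset (G × G)) (hτ : Sm2 F R τ) (hcard : (Dm + 1) * (Dm + 1) < τ.card) :
    ¬ Set.InjOn (fun p : G × G => (φ p.1, φ p.2)) (τ : Set (G × G)) := by
  intro hinj
  set τ1 : Finset G := τ.image Prod.fst with h1
  set τ2 : Finset G := τ.image Prod.snd with h2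
  have s1 : Sm F R τ1 := by
    intro x hx y hy
    rw [h1, Finset.mem_image] at hx hy
    obtain ⟨p, hp, rfl⟩ := hx
    obtain ⟨q, hq, rfl⟩ := hy
    exact (hτ p hp q hq).1
  have s2 : Sm F R τ2 := by
    intro x hx y hy
    rw [h2, Finset.mem_image] at hx hy
    obtain ⟨p, hp, rfl⟩ := hx
    obtain ⟨q, hq, rfl⟩ := hy
    exact (hτ p hp q hq).2
  have c1 := hφ τ1 s1
  have c2 := hφ τ2 s2
  have e1 : (τ1.image φ).card ≤ Dm + 1 := by
    rw [← Finset.coe_image, Set.ncard_coe_finset] at c1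
    exact c1
  have e2 : (τ2.image φ).card ≤ Dm + 1 := by
    rw [← Finset.coe_image, Set.ncard_coe_finset] at c2
    exact c2
  have h3 : (τ.image (fun p : G × G => (φ p.1, φ p.2))).card = τ.card :=
    Finset.card_image_of_injOn hinj
  have h4 : τ.image (fun p : G × G => (φ p.1, φ p.2)) ⊆ (τ1.image φ) ×ˢ (τ2.image φ) := by
    intro q hq
    rw [Finset.mem_image] at hq
    obtain ⟨p, hp, rfl⟩ := hq
    rw [Finset.mem_product]
    exact ⟨Finset.mem_image_of_mem _ (Finset.mem_image_of_mem _ hp),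
      Finset.mem_image_of_mem _ (Finset.mem_image_of_mem _ hp)⟩
  have h5 := Finset.card_le_card h4
  rw [h3, Finset.card_product] at h5
  have h6 : (τ1.image φ).card * (τ2.image φ).card ≤ (Dm + 1) * (Dm + 1) :=
    Nat.mul_le_mul e1 e2
  omega

/-- Finite asymptotic dimension gives finite dimension for pairs. -/
theorem dimP_of_asd (F : NF A G π) {D : ℕ} (h : Asd F D) : DimP F ((D + 1) * (D + 1)) := by
  classical
  intro R N
  obtain ⟨B, φ, hφB, hφ⟩ := h R
  set Φ : G × G → G × G := fun p => (φ p.1, φ p.2) with hΦ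
  refine ⟨R + B, fmap Φ, ?_, ?_⟩
  · rw [fmap_single, if_pos] <;> simp
  · intro τ _ hτ
    refine ⟨fbd_fmap Φ _, ?_, ?_, ?_⟩
    · refine fmap_on (P := fun σ => σ = τ) Φ ?_ (single_on rfl)
      intro σ υ hσ hcard hmem
      subst hσ
      refine ⟨hcard, ?_⟩
      intro p hp q hq
      obtain ⟨p', hp', rfl⟩ := (hmem q).1 hq
      have g1 := hτ p hp p' hp'
      have g2 := hτ p' hp' p hp
      have g3 := hφB p'.1
      have g4 := hφB p'.2
      have t1 := ad_tri F p.1 p'.1 (φ p'.1)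
      have t2 := ad_tri F (φ p'.1) p'.1 p.1
      have t3 := ad_tri F p.2 p'.2 (φ p'.2)
      have t4 := ad_tri F (φ p'.2) p'.2 p.2
      refine ⟨⟨?_, ?_⟩, ⟨?_, ?_⟩⟩
      · show F.l (p.1⁻¹ * φ p'.1) ≤ R + B
        omega
      · show F.l ((φ p'.1)⁻¹ * p.1) ≤ R + B
        omega
      · show F.l (p.2⁻¹ * φ p'.2) ≤ R + B
        omega
      · show F.l ((φ p'.2)⁻¹ * p.2) ≤ R + B
        omega
    · intro _
      have h1 : Finsupp.single (τ.image Prod.swap) (1 : ZMod 2) =
          fmap Prod.swap (Finsupp.single τ (1 : ZMod 2)) :=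
        (fmap_single_inj Prod.swap Prod.swap_injective τ _ (fun y => Finset.mem_image)).symm
      rw [h1, fmap_fmap, fmap_fmap]
      rfl
    · intro hM
      refine fmap_eq_zero (P := fun σ => σ = τ) Φ ?_ (single_on rfl)
      intro σ hσ
      subst hσ
      exact ad_not_inj F φ hφ σ hτ hM

end Pool.Agent.VD
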