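import Pool.Agent.VD.Main
import Pool.Agent.VD.AsdDim
import Pool.Agent.VS.Disp
/-!
# Displacement sets are coarsely acyclic
-/
namespace Pool.Agent.VD
open Pool.Agent.SLX Pool.Agent.VN Pool.Agent.VS

theorem disp_fill2 {A G : Type} [Group G] {π : A → G} [Finite A] (F : NF A G π) {M : ℕ}
    (hA : DimP F M) :
    ∃ S : Set G, S.Finite ∧ Submonoid.closure S = ⊤ ∧ ∀ k R : ℕ, ∃ C : ℕ,
      ∀ (w g : G) (m n : ℕ), 0 < m → IsShort S (m * n) (g⁻¹ * w ^ m * g) →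
      ∀ c : FCh G, (∀ σ ∈ c.support, σ.card = k ∧ (∀ x ∈ σ, ∀ y ∈ σ, IsShort S R (x⁻¹ * y)) ∧
        ∀ x ∈ σ, IsShort S n (x⁻¹ * w * x)) → fbd c = 0 →
      ∃ e : FCh G, (∀ σ ∈ e.support, σ.card = k + 1 ∧
        (∀ x ∈ σ, ∀ y ∈ σ, IsShort S C (x⁻¹ * y)) ∧
        ∀ x ∈ σ, IsShort S (n + C) (x⁻¹ * w * x)) ∧ fbd e = c := by
  refine ⟨Set.range π, Set.finite_range π, closure_eq_top F, fun k R => ?_⟩
  obtain ⟨R', C, hF⟩ := fil_all2 F hA k R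
  refine ⟨max R' (C + 1), fun w g m n hm hw c hc hc0 => ?_⟩
  have hτ : Tau F w (n + 1) := by
    refine tau_of_conj F (g := g) (tau_of_pow F hm ?_)
    rw [short_iff F] at hw
    have h3 := conj_pow (i := m) (a := g⁻¹) (b := w)
    rw [inv_inv] at h3
    rw [h3]
    exact hw
  obtain ⟨e, he, hec⟩ := hF w (n + 1) hτ c (by
    rw [on_iff]
    intro σ hσ
    obtain ⟨h1, h2, h3⟩ := hc σ hσ
    refine ⟨h1, fun x hx y hy => (short_iff F _ _).1 (h2 x hx y hy), fun x hx => ?_⟩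
    have h4 := (short_iff F _ _).1 (h3 x hx)
    show F.l (x⁻¹ * w * x) ≤ n + 1
    omega) hc0
  rw [on_iff] at he
  refine ⟨e, fun σ hσ => ?_, hec⟩
  obtain ⟨h1, h2, h3⟩ := he σ hσ
  refine ⟨h1, fun x hx y hy => (short_iff F _ _).2 ((h2 x hx y hy).trans (le_max_left _ _)),
    fun x hx => (short_iff F _ _).2 ?_⟩
  have h4 : F.l (x⁻¹ * w * x) ≤ n + 1 + C := h3 x hx
  have := le_max_right R' (C + 1)
  omega

end Pool.Agent.VD
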