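import Pool.Agent.VS.Fin
import Pool.Agent.VS.Hty
import Pool.Agent.VS.Fill
import Pool.Agent.VS.Tau
import Pool.Agent.VD.Step
import Pool.Agent.VN.NFBasic
/-!
# Downward induction and descent in finite-dimensional groups
-/
namespace Pool.Agent.VD
open Pool.Agent.SLX Pool.Agent.VN Pool.Agent.VS

variable {A G : Type} [Group G] {π : A → G}

private theorem main_l3 (F : NF A G π) (a b c : G) :
    F.l (a * b * c) ≤ F.l a + F.l b + F.l c := by
  have h1 := F.l_mul (a * b) c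
  have h2 := F.l_mul a b
  omega

private theorem main_inY (F : NF A G π) {w x y : G} {L B : ℕ} (hx : InY F w L x)
    (h1 : F.l (x⁻¹ * y) ≤ B) (h2 : F.l (y⁻¹ * x) ≤ B) : InY F w (L + 2 * B) y := by
  unfold InY at hx ⊢
  have h := main_l3 F (y⁻¹ * x) (x⁻¹ * w * x) (x⁻¹ * y)
  rw [show y⁻¹ * x * (x⁻¹ * w * x) * (x⁻¹ * y) = y⁻¹ * w * y by group] at h
  omega

private theorem main_inY_mono (F : NF A G π) {w x : G} {L L' : ℕ} (h : L ≤ L')
    (hx : InY F w L x) : InY F w L' x := le_trans hx h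

private theorem main_l_pow (F : NF A G π) (g : G) (n : ℕ) : F.l (g ^ n) ≤ n * F.l g := by
  induction n with
  | zero => rw [pow_zero, F.l_one]; omega
  | succ n ih =>
    rw [pow_succ]
    have := F.l_mul (g ^ n) g
    have e : (n + 1) * F.l g = n * F.l g + F.l g := by ring
    omega

private theorem main_inY_pow (F : NF A G π) {w x : G} {L : ℕ} (hx : InY F w L x) (n : ℕ) :
    InY F (w ^ n) (n * L) x := by
  unfold InY at hx ⊢
  have h : x⁻¹ * w ^ n * x = (x⁻¹ * w * x) ^ n := by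
    have := conj_pow (i := n) (a := x⁻¹) (b := w)
    rw [inv_inv] at this
    exact this.symm
  rw [h]
  exact le_trans (main_l_pow F _ n) (Nat.mul_le_mul_left _ hx)

theorem fil_top2 [Finite A] (F : NF A G π) {M0 : ℕ} (hA : DimP F M0) (k : ℕ) (hk : M0 < k) :
    ∀ R, ∃ R' C, Fil F k R R' C := by
  classical
  intro R
  obtain ⟨B, Ψ, hΨ0, hΨ⟩ := pg_of_dimP F hA R k
  obtain ⟨H, hH0, hH⟩ := pg_hty F hΨ0 hΨ Prod.fst (fun p => Or.inl rfl)
  set Bh := k * (R + B) with hBh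
  refine ⟨2 * Bh, 2 * Bh, ?_⟩
  intro w L _ c hc hz
  have hδi : Function.Injective (fun x : G => (x, x)) := fun x y hxy => congrArg Prod.fst hxy
  have h0 : Ψ (fmap (fun x => (x, x)) c) = 0 := by
    refine eq_on (Ψ.comp (fmap (fun x => (x, x)))) 0 (P := fun σ : Finset G => σ.card = k ∧
      Sm F R σ ∧ ∀ x ∈ σ, InY F w L x) ?_ hc
    rintro σ ⟨h1, h2, -⟩
    rw [LinearMap.comp_apply, LinearMap.zero_apply,
      fmap_single_inj _ hδi σ (σ.image (fun x => (x, x))) (fun y => Finset.mem_image)]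
    have hcd : (σ.image (fun x => (x, x))).card = k :=
      (Finset.card_image_of_injective _ hδi).trans h1
    refine (hΨ _ (by rw [hcd]) ?_).2.2.2 (by rw [hcd]; exact hk)
    intro p hp q hq
    rw [Finset.mem_image] at hp hq
    obtain ⟨x, hx, rfl⟩ := hp
    obtain ⟨y, hy, rfl⟩ := hq
    exact ⟨h2 x hx y hy, h2 x hx y hy⟩
  refine ⟨H c, ?_, ?_⟩
  · refine map_on H ?_ hc
    rintro σ ⟨h1, h2, h3⟩
    obtain ⟨x0, hx0⟩ : σ.Nonempty := Finset.card_pos.1 (by omega)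
    refine on_mono ?_ (hH σ (by omega) h2).2
    rintro τ ⟨h4, h5⟩
    refine ⟨by omega, ?_, ?_⟩
    · intro y hy y' hy'
      have e1 := h5 x0 hx0 y hy
      have e2 := h5 x0 hx0 y' hy'
      have h6 := F.l_mul (y⁻¹ * x0) (x0⁻¹ * y')
      rw [show y⁻¹ * x0 * (x0⁻¹ * y') = y⁻¹ * y' by group] at h6
      omega
    · intro y hy
      have e1 := h5 x0 hx0 y hy
      exact main_inY F (h3 x0 hx0) e1.1 e1.2
  · have h1 := eq_on (fbd.comp H)
      (LinearMap.id + (fmap Prod.fst).comp (Ψ.comp (fmap (fun x => (x, x)))) + H.comp fbd)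
      (P := fun σ : Finset G => σ.card = k ∧ Sm F R σ ∧ ∀ x ∈ σ, InY F w L x)
      (fun σ hσ => (hH σ (by omega) hσ.2.1).1) hc
    rw [LinearMap.comp_apply, LinearMap.add_apply, LinearMap.add_apply, LinearMap.id_apply,
      LinearMap.comp_apply, LinearMap.comp_apply, LinearMap.comp_apply, hz, map_zero,
      add_zero, h0, map_zero, add_zero] at h1
    exact h1

theorem fil_descent2 [Finite A] (F : NF A G π) {M0 : ℕ} (hA : DimP F M0) (k : ℕ)
    (hk : k ≤ M0)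
    (hfil : ∀ j, k < j → ∀ R, ∃ R' C, Fil F j R R' C) : ∀ R, ∃ R' C, Fil F k R R' C := by
  classical
  intro R
  obtain ⟨Rr, hRr⟩ := ref_fill F k R
  obtain ⟨Rt, hRt⟩ := tot_fill F k R
  obtain ⟨R2, C, hstep⟩ := smith_step2 F hA k hk hfil R (max Rr Rt)
  obtain ⟨B, hB⟩ := hRr R2
  refine ⟨max Rr Rt, 2 * (C + 2 * B), ?_⟩
  intro w L hτ c hc hz
  -- the descent
  have key : ∀ j, (∃ e ∈ On (fun σ : Finset G => σ.card = k + 1 ∧ Sm F (max Rr Rt) σ ∧
      ∀ x ∈ σ, InY F (w ^ (2 ^ (j + 1))) (2 ^ (j + 1) * L + 2 * (C + 2 * B)) x), fbd e = c) →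
      ∃ e ∈ On (fun σ : Finset G => σ.card = k + 1 ∧ Sm F (max Rr Rt) σ ∧
      ∀ x ∈ σ, InY F (w ^ (2 ^ j)) (2 ^ j * L + 2 * (C + 2 * B)) x), fbd e = c := by
    rintro j ⟨e, he, hec⟩
    have hcj : c ∈ On (fun σ : Finset G => σ.card = k ∧ Sm F R σ ∧
        ∀ x ∈ σ, InY F (w ^ (2 ^ j)) (2 ^ j * L) x) := by
      refine on_mono ?_ hc
      rintro σ ⟨h1, h2, h3⟩
      exact ⟨h1, h2, fun x hx => main_inY_pow F (h3 x hx) _⟩
    have hw : w ^ (2 ^ (j + 1)) = w ^ (2 ^ j) * w ^ (2 ^ j) := by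
      rw [← pow_add]
      congr 1
      ring
    have hL : 2 ^ (j + 1) * L = 2 * (2 ^ j * L) := by ring
    rw [hw, hL] at he
    obtain ⟨e1, he1, he1c⟩ := hstep (w ^ (2 ^ j)) (2 ^ j * L) (2 * (C + 2 * B))
      (tau_pow F hτ j) c hcj hz ⟨e, he, hec⟩
    obtain ⟨e2, he2, he2c⟩ := hB (InY F (w ^ (2 ^ j)) (2 ^ j * L + 2 * (C + 2 * B) / 2 + C)) k
      le_rfl e1 he1 (by
        rw [he1c]
        exact on_mono (fun σ h => h.2.1) hc)
    refine ⟨e2, ?_, by rw [he2c, he1c]⟩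
    refine on_mono ?_ he2
    rintro σ ⟨h1, h2, h3⟩
    refine ⟨h1, fun x hx y hy => le_trans (h2 x hx y hy) (le_max_left _ _), ?_⟩
    intro y hy
    obtain ⟨x, hx, hx1, hx2⟩ := h3 y hy
    have := main_inY F hx hx1 hx2
    refine main_inY_mono F ?_ this
    omega
  -- the start
  obtain ⟨e0, he0, he0c⟩ := hRt k le_rfl c (on_mono (fun σ h => ⟨h.1, h.2.1⟩) hc) hz
  obtain ⟨j0, hj0⟩ := tau_fin F hτ (e0.support.biUnion id)
  have start : ∃ e ∈ On (fun σ : Finset G => σ.card = k + 1 ∧ Sm F (max Rr Rt) σ ∧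
      ∀ x ∈ σ, InY F (w ^ (2 ^ j0)) (2 ^ j0 * L + 2 * (C + 2 * B)) x), fbd e = c := by
    refine ⟨e0, ?_, he0c⟩
    rw [on_iff] at he0 ⊢
    intro σ hσ
    obtain ⟨h1, h2⟩ := he0 σ hσ
    refine ⟨h1, fun x hx y hy => le_trans (h2 x hx y hy) (le_max_right _ _), ?_⟩
    intro x hx
    refine main_inY_mono F (Nat.le_add_right _ _) (hj0 x ?_)
    rw [Finset.mem_biUnion]
    exact ⟨σ, hσ, hx⟩
  have all : ∀ j, ∃ e ∈ On (fun σ : Finset G => σ.card = k + 1 ∧ Sm F (max Rr Rt) σ ∧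
      ∀ x ∈ σ, InY F (w ^ (2 ^ (j0 - j))) (2 ^ (j0 - j) * L + 2 * (C + 2 * B)) x),
      fbd e = c := by
    intro j
    induction j with
    | zero => exact start
    | succ j ih =>
      rcases Nat.lt_or_ge j j0 with h | h
      · obtain ⟨i, hi⟩ : ∃ i, j0 - j = i + 1 := ⟨j0 - j - 1, by omega⟩
        rw [hi] at ih
        rw [show j0 - (j + 1) = i by omega]
        exact key i ih
      · rw [show j0 - (j + 1) = j0 - j by omega]
        exact ih
  have fin := all j0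
  rw [Nat.sub_self, pow_zero, pow_one, one_mul] at fin
  exact fin

theorem fil_all2 [Finite A] (F : NF A G π) {M0 : ℕ} (hA : DimP F M0) (k : ℕ) :
    ∀ R, ∃ R' C, Fil F k R R' C := by
  have all : ∀ n k : ℕ, M0 + 1 ≤ k + n → ∀ R, ∃ R' C, Fil F k R R' C := by
    intro n
    induction n with
    | zero => exact fun k hk => fil_top2 F hA k (by omega)
    | succ n ih =>
      intro k hk
      rcases Nat.lt_or_ge M0 k with h | h
      · exact fil_top2 F hA k h
      · exact fil_descent2 F hA k h (fun j hj => ih j (by omega))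
  exact all (M0 + 1) k (by omega)

theorem conj_short2 [Finite A] (F : NF A G π) {M0 : ℕ} (hA : DimP F M0) :
    ∃ C : ℕ, ∀ (w : G) (L : ℕ), Tau F w L → ∃ x : G, F.l (x⁻¹ * w * x) ≤ L + C := by
  classical
  obtain ⟨R', C, hC⟩ := fil_all2 F hA 0 0
  refine ⟨C, fun w L hτ => ?_⟩
  obtain ⟨e, he, hec⟩ := hC w L hτ (Finsupp.single ∅ 1)
    (single_on ⟨Finset.card_empty, by intro x hx; simp at hx, by intro x hx; simp at hx⟩) fbd_empty
  have hne : e ≠ 0 := by
    rintro rfl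
    rw [map_zero] at hec
    have := congrArg (fun c : FCh G => c ∅) hec
    simp at this
  obtain ⟨σ, hσ⟩ := Finsupp.support_nonempty_iff.mpr hne
  rw [on_iff] at he
  obtain ⟨h1, -, h3⟩ := he σ hσ
  obtain ⟨x, hx⟩ : σ.Nonempty := by
    rw [← Finset.card_pos]
    omega
  exact ⟨x, h3 x hx⟩

end Pool.Agent.VD
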