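import Pool.Agent.VD.Prod
/-!
# Free abelian subgroups of groups acting properly on finite-dimensional acyclic complexes
-/
namespace Pool.Agent.VD
open Pool.Agent.SLX Pool.Agent.VN Pool.Agent.VS

section
variable {G V : Type} [Group G] [MulAction G V]

open Classical in
/-- Translation of a finite set of vertices. -/
private noncomputable def gs (g : G) (σ : Finset V) : Finset V := σ.image (fun v => g • v)

private theorem mem_gs {g : G} {σ : Finset V} {v : V} : v ∈ gs g σ ↔ ∃ u ∈ σ, g • u = v := by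
  classical
  exact Finset.mem_image

private theorem gs_one (σ : Finset V) : gs (1 : G) σ = σ := by
  ext v
  rw [mem_gs]
  constructor
  · rintro ⟨u, hu, rfl⟩
    rwa [one_smul]
  · intro h
    exact ⟨v, h, one_smul _ _⟩

private theorem gs_mul (g h : G) (σ : Finset V) : gs (g * h) σ = gs g (gs h σ) := by
  ext v
  rw [mem_gs, mem_gs]
  constructor
  · rintro ⟨u, hu, rfl⟩
    exact ⟨h • u, mem_gs.2 ⟨u, hu, rfl⟩, (mul_smul _ _ _).symm⟩
  · rintro ⟨w, hw, rfl⟩
    obtain ⟨u, hu, rfl⟩ := mem_gs.1 hw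
    exact ⟨u, hu, mul_smul _ _ _⟩

private theorem gs_card (g : G) (σ : Finset V) : (gs g σ).card = σ.card := by
  classical
  exact Finset.card_image_of_injective σ (MulAction.injective g)

private theorem gs_empty (g : G) : gs g (∅ : Finset V) = ∅ := by
  classical
  exact Finset.image_empty _

private theorem gs_ne (g : G) {σ : Finset V} (h : σ ≠ ∅) : gs g σ ≠ ∅ := by
  intro h1
  have h2 := gs_card g σ
  rw [h1, Finset.card_empty] at h2
  exact h (Finset.card_eq_zero.1 h2.symm)

/-- Translation of chains. -/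
private noncomputable def tr (g : G) : FCh V →ₗ[ZMod 2] FCh V := fmap (fun v => g • v)

private theorem tr_single (g : G) (σ : Finset V) :
    tr g (Finsupp.single σ (1 : ZMod 2)) = Finsupp.single (gs g σ) 1 := by
  rw [tr, fmap_single]
  exact if_pos (gs_card g σ)

private theorem tr_fbd (g : G) (c : FCh V) : fbd (tr g c) = tr g (fbd c) := fbd_fmap _ _

private theorem tr_comm {g h : G} (hgh : g * h = h * g) (c : FCh V) :
    tr g (tr h c) = tr h (tr g c) := by
  have h1 : ∀ a b : G, ∀ c : FCh V, tr a (tr b c) = fmap (fun v => (a * b) • v) c := by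
    intro a b c
    have e : (fun v : V => a • b • v) = (fun v : V => (a * b) • v) := by
      funext v
      rw [mul_smul]
    rw [tr, tr, fmap_fmap, e]
  rw [h1, h1, hgh]

variable (X : Set (Finset V)) (g : ℕ → G)

/-- The chains of `X` all of whose simplices have `k` points. -/
private def Cx (k : ℕ) : Submodule (ZMod 2) (FCh V) := On (fun σ : Finset V => σ.card = k ∧ σ ∈ X)

/-- The chains which vanish in the quotient by the first `m` translations. -/
private noncomputable def Im : ℕ → ℕ → Submodule (ZMod 2) (FCh V)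
  | 0, k => On (fun σ : Finset V => σ.card = k ∧ σ = ∅)
  | m + 1, k => Im m k ⊔ (Cx X k).map (LinearMap.id + tr (g m))

variable {X g}

private theorem tr_cx (hX : ∀ g : G, ∀ σ ∈ X, gs g σ ∈ X) (h : G) {k : ℕ} {c : FCh V}
    (hc : c ∈ Cx X k) : tr h c ∈ Cx X k := by
  refine map_on (tr h) ?_ hc
  rintro σ ⟨h1, h2⟩
  rw [tr_single]
  exact single_on ⟨by rw [gs_card, h1], hX h σ h2⟩

private theorem fbd_cx (hd : ∀ σ ∈ X, ∀ τ, τ ⊆ σ → τ ∈ X) {k : ℕ} {c : FCh V}
    (hc : c ∈ Cx X (k + 1)) : fbd c ∈ Cx X k :=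
  fbd_on (fun σ τ hσ hsub hcard => ⟨by have := hσ.1; omega, hd σ hσ.2 τ hsub⟩) hc

private theorem im_le (m k : ℕ) : Im X g m k ≤ Im X g (m + 1) k := le_sup_left

private theorem im_le' {m m' : ℕ} (h : m ≤ m') (k : ℕ) : Im X g m k ≤ Im X g m' k := by
  induction h with
  | refl => exact le_rfl
  | step _ ih => exact ih.trans (im_le _ _)

private theorem im_tr {m k : ℕ} {c : FCh V} (hc : c ∈ Cx X k) :
    c + tr (g m) c ∈ Im X g (m + 1) k :=
  Submodule.mem_sup_right (Submodule.mem_map.2 ⟨c, hc, rfl⟩)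

private theorem im_succ {m k : ℕ} {c : FCh V} (hc : c ∈ Im X g (m + 1) k) :
    ∃ x ∈ Cx X k, c + (x + tr (g m) x) ∈ Im X g m k := by
  obtain ⟨a, ha, b, hb, rfl⟩ := Submodule.mem_sup.1 hc
  obtain ⟨x, hx, rfl⟩ := Submodule.mem_map.1 hb
  refine ⟨x, hx, ?_⟩
  have e : a + (LinearMap.id + tr (g m) : FCh V →ₗ[ZMod 2] FCh V) x + (x + tr (g m) x) = a := by
    rw [LinearMap.add_apply, LinearMap.id_apply, add_assoc, fadd_self, add_zero]
  rw [e]
  exact ha

private theorem im_transl (hX : ∀ g : G, ∀ σ ∈ X, gs g σ ∈ X) {h : G}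
    (hc : ∀ i, h * g i = g i * h) (m k : ℕ) {c : FCh V} (hcm : c ∈ Im X g m k) :
    tr h c ∈ Im X g m k := by
  induction m generalizing c with
  | zero =>
    refine map_on (tr h) ?_ hcm
    rintro σ ⟨h1, h2⟩
    rw [tr_single]
    refine single_on ⟨by rw [gs_card, h1], ?_⟩
    rw [h2, gs_empty]
  | succ m ih =>
    obtain ⟨x, hx, hcx⟩ := im_succ hcm
    have h1 := ih hcx
    have h2 : c = (c + (x + tr (g m) x)) + (x + tr (g m) x) := by
      rw [add_assoc, fadd_self, add_zero]
    rw [h2, map_add, map_add (tr h) x, tr_comm (hc m)]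
    exact Submodule.add_mem _ (im_le _ _ h1) (im_tr (tr_cx hX h hx))

private theorem im_fbd (hd : ∀ σ ∈ X, ∀ τ, τ ⊆ σ → τ ∈ X) (m k : ℕ) {c : FCh V}
    (hcm : c ∈ Im X g m (k + 1)) : fbd c ∈ Im X g m k := by
  induction m generalizing c with
  | zero =>
    refine fbd_on (P := fun σ : Finset V => σ.card = k + 1 ∧ σ = ∅) ?_ hcm
    rintro σ τ ⟨h1, h2⟩ _ _
    rw [h2, Finset.card_empty] at h1
    omega
  | succ m ih =>
    obtain ⟨x, hx, hcx⟩ := im_succ hcm
    have h1 := ih hcx
    have h2 : c = (c + (x + tr (g m) x)) + (x + tr (g m) x) := by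
      rw [add_assoc, fadd_self, add_zero]
    rw [h2, map_add, map_add fbd x, tr_fbd]
    exact Submodule.add_mem _ (im_le _ _ h1) (im_tr (fbd_cx hd hx))

/-! ### Orbits -/

/-- The orbit relation on finite sets of vertices. -/
private def orel (Γ : Subgroup G) : Setoid (Finset V) where
  r σ τ := ∃ γ ∈ Γ, gs γ σ = τ
  iseqv := ⟨fun σ => ⟨1, Γ.one_mem, gs_one σ⟩, by
    rintro σ τ ⟨γ, h, rfl⟩
    exact ⟨γ⁻¹, Γ.inv_mem h, by rw [← gs_mul, inv_mul_cancel, gs_one]⟩, by
    rintro σ τ υ ⟨γ, h, rfl⟩ ⟨δ, h', rfl⟩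
    exact ⟨δ * γ, Γ.mul_mem h' h, gs_mul _ _ _⟩⟩

open Classical in
/-- The projection to the orbits; the empty set goes to zero. -/
private noncomputable def push (Γ : Subgroup G) :
    FCh V →ₗ[ZMod 2] (Quotient (orel (V := V) Γ) →₀ ZMod 2) :=
  Finsupp.linearCombination (ZMod 2) (fun σ : Finset V =>
    if σ = ∅ then 0 else Finsupp.single (Quotient.mk (orel (V := V) Γ) σ) (1 : ZMod 2))

private theorem push_empty (Γ : Subgroup G) :
    push Γ (Finsupp.single (∅ : Finset V) (1 : ZMod 2)) = 0 := by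
  simp [push]

private theorem push_single (Γ : Subgroup G) {σ : Finset V} (h : σ ≠ ∅) :
    push Γ (Finsupp.single σ (1 : ZMod 2)) =
      Finsupp.single (Quotient.mk (orel (V := V) Γ) σ) 1 := by
  simp [push, h]

private theorem push_im (Γ : Subgroup G) (m k : ℕ) (hΓ : ∀ i < m, g i ∈ Γ) {c : FCh V}
    (hc : c ∈ Im X g m k) : push Γ c = 0 := by
  induction m generalizing c with
  | zero =>
    have h1 := eq_on (P := fun σ : Finset V => σ.card = k ∧ σ = ∅) (push Γ) 0 (by
      rintro σ ⟨_, rfl⟩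
      rw [push_empty, LinearMap.zero_apply]) hc
    rw [h1, LinearMap.zero_apply]
  | succ m ih =>
    obtain ⟨x, hx, hcx⟩ := im_succ hc
    have h1 := ih (fun i hi => hΓ i (by omega)) hcx
    have h2 : push Γ (x + tr (g m) x) = 0 := by
      have h3 := eq_on (P := fun σ : Finset V => σ.card = k ∧ σ ∈ X)
        ((push Γ).comp (LinearMap.id + tr (g m))) 0 (by
          rintro σ _
          rw [LinearMap.comp_apply, LinearMap.add_apply, LinearMap.id_apply, tr_single,
            LinearMap.zero_apply, map_add]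
          by_cases h : σ = ∅
          · rw [h, gs_empty, push_empty, add_zero]
          · have h4 : Quotient.mk (orel (V := V) Γ) (gs (g m) σ) =
                Quotient.mk (orel (V := V) Γ) σ :=
              (Quotient.sound (s := orel (V := V) Γ) ⟨g m, hΓ m (by omega), rfl⟩).symm
            rw [push_single Γ h, push_single Γ (gs_ne _ h), h4, ← Finsupp.single_add]
            have : (1 : ZMod 2) + 1 = 0 := by decide
            rw [this, Finsupp.single_zero]) hx
      simpa using h3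
    rw [map_add, h2, add_zero] at h1
    exact h1

private theorem im_of_gen (hX : ∀ g : G, ∀ σ ∈ X, gs g σ ∈ X) {m : ℕ} {γ : G}
    (hγ : γ ∈ Subgroup.closure (g '' {i | i < m})) (σ : Finset V) (hσ : σ ∈ X) :
    Finsupp.single σ (1 : ZMod 2) + Finsupp.single (gs γ σ) 1 ∈ Im X g m σ.card := by
  refine Subgroup.closure_induction (p := fun γ _ => ∀ σ : Finset V, σ ∈ X →
    Finsupp.single σ (1 : ZMod 2) + Finsupp.single (gs γ σ) 1 ∈ Im X g m σ.card)
    ?_ ?_ ?_ ?_ hγ σ hσ
  · rintro _ ⟨i, hi, rfl⟩ σ hσ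
    rw [← tr_single]
    exact im_le' (Nat.succ_le_of_lt hi) _ (im_tr (single_on ⟨rfl, hσ⟩))
  · intro σ _
    rw [gs_one, fadd_self]
    exact Submodule.zero_mem _
  · intro a b _ _ iha ihb σ hσ
    have h1 := ihb σ hσ
    have h2 := iha (gs b σ) (hX b σ hσ)
    rw [gs_card] at h2
    have h3 := Submodule.add_mem _ h1 h2
    have e : Finsupp.single σ (1 : ZMod 2) + Finsupp.single (gs b σ) 1 +
        (Finsupp.single (gs b σ) 1 + Finsupp.single (gs a (gs b σ)) 1) =
        Finsupp.single σ (1 : ZMod 2) + Finsupp.single (gs (a * b) σ) 1 := by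
      rw [gs_mul, add_assoc, ← add_assoc (Finsupp.single (gs b σ) (1 : ZMod 2)), fadd_self,
        zero_add]
    rwa [e] at h3
  · intro a _ iha σ hσ
    have h1 := iha (gs a⁻¹ σ) (hX a⁻¹ σ hσ)
    rw [gs_card, ← gs_mul, mul_inv_cancel, gs_one, add_comm] at h1
    exact h1

private theorem im_of_push (hX : ∀ g : G, ∀ σ ∈ X, gs g σ ∈ X) (m k : ℕ) {x : FCh V}
    (hx : x ∈ Cx X k) (h : push (Subgroup.closure (g '' {i | i < m})) x = 0) :
    x ∈ Im X g m k := by
  classical
  set Γ := Subgroup.closure (g '' {i | i < m}) with hΓ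
  set ρ : (Quotient (orel (V := V) Γ) →₀ ZMod 2) →ₗ[ZMod 2] FCh V :=
    Finsupp.linearCombination (ZMod 2) (fun q => Finsupp.single (Quotient.out q) (1 : ZMod 2))
    with hρ
  have h1 : ∀ x ∈ Cx X k, x + ρ (push Γ x) ∈ Im X g m k := by
    intro x hx
    have h2 : (LinearMap.id + ρ.comp (push Γ) : FCh V →ₗ[ZMod 2] FCh V) x ∈ Im X g m k := by
      have h3 : Cx X k ≤ (Im X g m k).comap
          (LinearMap.id + ρ.comp (push Γ) : FCh V →ₗ[ZMod 2] FCh V) := by
        unfold Cx On
        rw [Finsupp.supported_eq_span_single, Submodule.span_le]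
        rintro _ ⟨σ, ⟨hk, hσ⟩, rfl⟩
        show (LinearMap.id + ρ.comp (push Γ) : FCh V →ₗ[ZMod 2] FCh V) (Finsupp.single σ 1) ∈
          Im X g m k
        rw [LinearMap.add_apply, LinearMap.id_apply, LinearMap.comp_apply]
        by_cases he : σ = ∅
        · rw [he, push_empty, map_zero, add_zero]
          refine im_le' (Nat.zero_le m) _ ?_
          exact single_on ⟨by rw [← hk, he], rfl⟩
        · rw [push_single Γ he]
          have h4 : ρ (Finsupp.single (Quotient.mk (orel (V := V) Γ) σ) 1) =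
              Finsupp.single (Quotient.out (Quotient.mk (orel (V := V) Γ) σ)) 1 := by
            rw [hρ, Finsupp.linearCombination_single, one_smul]
          rw [h4]
          obtain ⟨γ, hγ, h5⟩ : ∃ γ ∈ Γ, gs γ σ =
              Quotient.out (Quotient.mk (orel (V := V) Γ) σ) :=
            (orel (V := V) Γ).iseqv.symm (Quotient.mk_out (s := orel (V := V) Γ) σ)
          rw [← h5, ← hk]
          exact im_of_gen hX hγ σ hσ
      exact h3 hx
    exact h2
  have h2 := h1 x hx
  rwa [h, map_zero, add_zero] at h2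

private theorem push_inj (Γ : Subgroup G) (h : G) (hc : ∀ γ ∈ Γ, γ * h = h * γ)
    (hfree : ∀ j : ℕ, 0 < j → ∀ σ ∈ X, σ ≠ ∅ → ∀ γ ∈ Γ, gs (h ^ j) σ ≠ gs γ σ) {k : ℕ}
    {x : FCh V} (hx : x ∈ Cx X k) (h0 : push Γ (x + tr h x) = 0) : push Γ x = 0 := by
  classical
  -- the induced map on the orbits
  let f : Quotient (orel (V := V) Γ) → Quotient (orel (V := V) Γ) :=
    Quotient.map (gs h) (by
      rintro σ τ ⟨γ, hγ, rfl⟩
      exact ⟨γ, hγ, by rw [← gs_mul, ← gs_mul, hc γ hγ]⟩)
  have hf : ∀ σ : Finset V, f (Quotient.mk (orel (V := V) Γ) σ) =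
      Quotient.mk (orel (V := V) Γ) (gs h σ) := fun σ => rfl
  have hinj : Function.Injective f := by
    intro p q
    induction p using Quotient.inductionOn with
    | h σ =>
      induction q using Quotient.inductionOn with
      | h τ =>
        intro he
        rw [hf, hf] at he
        obtain ⟨γ, hγ, h1⟩ := Quotient.exact (s := orel (V := V) Γ) he
        apply Quotient.sound (s := orel (V := V) Γ)
        refine ⟨γ, hγ, ?_⟩
        rw [← gs_mul, hc γ hγ, gs_mul] at h1
        have h2 := congrArg (gs h⁻¹) h1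
        rwa [← gs_mul, ← gs_mul h⁻¹ h τ, inv_mul_cancel, gs_one, gs_one] at h2
  have hpush : push Γ (tr h x) = Finsupp.mapDomain f (push Γ x) := by
    have h1 := eq_on (P := fun _ : Finset V => True) ((push Γ).comp (tr h))
      ((Finsupp.lmapDomain (ZMod 2) (ZMod 2) f).comp (push Γ)) (by
        intro σ _
        rw [LinearMap.comp_apply, LinearMap.comp_apply, tr_single, Finsupp.lmapDomain_apply]
        by_cases he : σ = ∅
        · rw [he, gs_empty, push_empty, Finsupp.mapDomain_zero]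
        · rw [push_single Γ he, push_single Γ (gs_ne h he), Finsupp.mapDomain_single, hf])
      (on_iff.2 (fun _ _ => trivial) : x ∈ On (fun _ : Finset V => True))
    exact h1
  set y := push Γ x with hy
  have hyy : Finsupp.mapDomain f y = y := by
    rw [map_add, hpush, ← hy] at h0
    have h1 : y + y = 0 := by
      ext q
      rw [Finsupp.add_apply, Finsupp.zero_apply]
      exact CharTwo.add_self_eq_zero _
    exact (add_left_cancel (h0.trans h1.symm))
  by_contra hne
  obtain ⟨q, hq⟩ := Finsupp.ne_iff.1 hne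
  rw [Finsupp.zero_apply] at hq
  -- the support consists of orbits of nonempty simplices
  have hsupp : ∀ q, y q ≠ 0 → ∃ σ ∈ X, σ ≠ ∅ ∧ Quotient.mk (orel (V := V) Γ) σ = q := by
    intro q hq
    by_contra hno
    push Not at hno
    apply hq
    have h1 : y ∈ Finsupp.supported (ZMod 2) (ZMod 2)
        {q' : Quotient (orel (V := V) Γ) | q' ≠ q} := by
      have h3 : Cx X k ≤ (Finsupp.supported (ZMod 2) (ZMod 2)
          {q' : Quotient (orel (V := V) Γ) | q' ≠ q}).comap (push Γ) := by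
        unfold Cx On
        rw [Finsupp.supported_eq_span_single, Submodule.span_le]
        rintro _ ⟨σ, ⟨-, hσ⟩, rfl⟩
        show push Γ (Finsupp.single σ 1) ∈ Finsupp.supported (ZMod 2) (ZMod 2)
          {q' : Quotient (orel (V := V) Γ) | q' ≠ q}
        by_cases he : σ = ∅
        · rw [he, push_empty]
          exact Submodule.zero_mem _
        · rw [push_single Γ he]
          exact Finsupp.single_mem_supported (ZMod 2) _ (hno σ hσ (Finset.nonempty_iff_ne_empty.2 he))
      exact h3 hx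
    by_contra hq'
    exact (h1 (Finsupp.mem_support_iff.2 hq')) rfl
  have hiter : ∀ j : ℕ, y (f^[j] q) ≠ 0 := by
    intro j
    induction j with
    | zero => exact hq
    | succ j ih =>
      rw [Function.iterate_succ_apply']
      rw [← hyy, Finsupp.mapDomain_apply hinj]
      exact ih
  obtain ⟨i, l, hil, he⟩ : ∃ i l : ℕ, i < l ∧ f^[i] q = f^[l] q := by
    obtain ⟨i, l, hil, he⟩ := Finite.exists_ne_map_eq_of_infinite
      (fun j : ℕ => (⟨f^[j] q, Finsupp.mem_support_iff.2 (hiter j)⟩ :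
        {q' : Quotient (orel (V := V) Γ) // q' ∈ y.support}))
    have he' : f^[i] q = f^[l] q := congrArg Subtype.val he
    rcases lt_or_gt_of_ne hil with h1 | h1
    · exact ⟨i, l, h1, he'⟩
    · exact ⟨l, i, h1, he'.symm⟩
  have he2 : f^[l - i] q = q := by
    have h1 : f^[l] q = f^[i] (f^[l - i] q) := by
      rw [← Function.iterate_add_apply]
      congr 2
      omega
    rw [h1] at he
    exact ((hinj.iterate i) he).symm
  obtain ⟨σ, hσX, hσ, rfl⟩ := hsupp q hq
  have hpow : ∀ j : ℕ, f^[j] (Quotient.mk (orel (V := V) Γ) σ) =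
      Quotient.mk (orel (V := V) Γ) (gs (h ^ j) σ) := by
    intro j
    induction j with
    | zero => rw [pow_zero, gs_one]; rfl
    | succ j ih => rw [Function.iterate_succ_apply', ih, hf, ← gs_mul, ← pow_succ']
  rw [hpow] at he2
  obtain ⟨γ, hγ, h1⟩ := Quotient.exact (s := orel (V := V) Γ) he2.symm
  exact hfree (l - i) (by omega) σ hσX hσ γ hγ h1.symm

/-- The data for the induction. -/
private structure Dat (X : Set (Finset V)) (g : ℕ → G) (n : ℕ) : Prop where
  h0 : ∅ ∈ X
  hd : ∀ σ ∈ X, ∀ τ, τ ⊆ σ → τ ∈ X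
  hX : ∀ h : G, ∀ σ ∈ X, gs h σ ∈ X
  hac : ∀ (k : ℕ) (c : FCh V), c ∈ Cx X k → fbd c = 0 → ∃ e ∈ Cx X (k + 1), fbd e = c
  hcomm : ∀ i j, g i * g j = g j * g i
  hfree : ∀ m < n, ∀ j : ℕ, 0 < j → ∀ σ ∈ X, σ ≠ ∅ →
    ∀ γ ∈ Subgroup.closure (g '' {i | i < m}), gs (g m ^ j) σ ≠ gs γ σ

private theorem step_inj {n : ℕ} (D : Dat X g n) {m : ℕ} (hm : m < n) {k : ℕ} {x : FCh V}
    (hx : x ∈ Cx X k) (h : x + tr (g m) x ∈ Im X g m k) : x ∈ Im X g m k := by
  have h1 : push (Subgroup.closure (g '' {i | i < m})) (x + tr (g m) x) = 0 :=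
    push_im (g := g) (X := X) _ m k
      (fun i hi => Subgroup.subset_closure (Set.mem_image_of_mem g hi)) h
  have hc : ∀ γ ∈ Subgroup.closure (g '' {i | i < m}), γ * g m = g m * γ := by
    intro γ hγ
    refine Subgroup.closure_induction (p := fun γ _ => γ * g m = g m * γ) ?_ ?_ ?_ ?_ hγ
    · rintro _ ⟨i, _, rfl⟩
      exact D.hcomm i m
    · rw [one_mul, mul_one]
    · intro a b _ _ ha hb
      rw [mul_assoc, hb, ← mul_assoc, ha, mul_assoc]
    · intro a _ ha
      have h2 : a⁻¹ * (a * g m) * a⁻¹ = a⁻¹ * (g m * a) * a⁻¹ := by rw [ha]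
      simpa [mul_assoc] using h2.symm
  exact im_of_push D.hX m k hx (push_inj _ (g m) hc (D.hfree m hm) hx h1)

private theorem step_a {n : ℕ} (D : Dat X g n) (m : ℕ) (hm : m ≤ n) : ∀ j : ℕ, m < j →
    ∀ c ∈ Cx X (j + 1), fbd c ∈ Im X g m j → ∃ y ∈ Cx X (j + 2), c + fbd y ∈ Im X g m (j + 1) := by
  induction m with
  | zero =>
    intro j hj c hc h
    have h1 : fbd c = 0 := by
      have h2 := eq_on (P := fun σ : Finset V => σ.card = j ∧ σ = ∅)
        (LinearMap.id : FCh V →ₗ[ZMod 2] FCh V) 0 (by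
          rintro σ ⟨h3, h4⟩
          rw [h4, Finset.card_empty] at h3
          omega) h
      exact h2
    obtain ⟨e, he, hec⟩ := D.hac (j + 1) c hc h1
    refine ⟨e, he, ?_⟩
    rw [hec, fadd_self]
    exact Submodule.zero_mem _
  | succ m ih =>
    intro j hj c hc h
    obtain ⟨j, rfl⟩ : ∃ j', j = j' + 1 := ⟨j - 1, by omega⟩
    have ih' := ih (by omega)
    obtain ⟨x, hx, h1⟩ := im_succ h
    have h2 := im_fbd D.hd m j h1
    rw [map_add, fbd_fbd, zero_add, map_add, tr_fbd] at h2
    have h3 : fbd x ∈ Im X g m j := step_inj D (by omega) (fbd_cx D.hd hx) h2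
    obtain ⟨x', hx', h4⟩ := ih' j (by omega) x hx h3
    have h5 := im_transl D.hX (h := g m) (fun i => D.hcomm m i) m _ h4
    have hc' : c + (x' + tr (g m) x') ∈ Cx X (j + 1 + 1) :=
      Submodule.add_mem _ hc (Submodule.add_mem _ hx' (tr_cx D.hX _ hx'))
    have h6 : fbd (c + (x' + tr (g m) x')) ∈ Im X g m (j + 1) := by
      have h7 := Submodule.add_mem _ h1 (Submodule.add_mem _ h4 h5)
      have e : fbd c + (x + tr (g m) x) + (x + fbd x' + tr (g m) (x + fbd x')) =
          fbd (c + (x' + tr (g m) x')) := by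
        rw [map_add fbd, map_add fbd, map_add (tr (g m)), tr_fbd]
        have e1 := fadd_self x
        have e2 := fadd_self (tr (g m) x)
        calc fbd c + (x + tr (g m) x) + (x + fbd x' + (tr (g m) x + tr (g m) (fbd x')))
            = (x + x) + (tr (g m) x + tr (g m) x) + (fbd c + (fbd x' + tr (g m) (fbd x'))) := by
              abel
          _ = _ := by rw [e1, e2, add_zero, zero_add]
      rwa [e] at h7
    obtain ⟨y, hy, h8⟩ := ih' (j + 1) (by omega) _ hc' h6
    refine ⟨y, hy, ?_⟩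
    have h9 := Submodule.add_mem _ (im_le m _ h8) (im_tr hx')
    have e : c + (x' + tr (g m) x') + fbd y + (x' + tr (g m) x') = c + fbd y := by
      calc c + (x' + tr (g m) x') + fbd y + (x' + tr (g m) x')
          = (x' + tr (g m) x' + (x' + tr (g m) x')) + (c + fbd y) := by abel
        _ = _ := by rw [fadd_self, zero_add]
    rwa [e] at h9

private theorem step_b {n : ℕ} (D : Dat X g n) (m : ℕ) (hm : m ≤ n) : ∃ z ∈ Cx X (m + 1),
    fbd z ∈ Im X g m m ∧ (¬ ∃ x ∈ Cx X (m + 2), z + fbd x ∈ Im X g m (m + 1)) ∧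
    ∀ i < n, ∃ v ∈ Cx X (m + 2), z + tr (g i) z + fbd v ∈ Im X g m (m + 1) := by
  induction m with
  | zero =>
    obtain ⟨z, hz, hzf⟩ := D.hac 0 (Finsupp.single ∅ 1) (single_on ⟨rfl, D.h0⟩) (by
      rw [fbd_single, Finset.sum_empty])
    refine ⟨z, hz, ?_, ?_, ?_⟩
    · rw [hzf]
      exact single_on ⟨rfl, rfl⟩
    · rintro ⟨x, _, hzx⟩
      have h1 : z + fbd x = 0 := by
        have h2 := eq_on (P := fun σ : Finset V => σ.card = 0 + 1 ∧ σ = ∅)
          (LinearMap.id : FCh V →ₗ[ZMod 2] FCh V) 0 (by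
            rintro σ ⟨h3, h4⟩
            rw [h4, Finset.card_empty] at h3
            omega) hzx
        exact h2
      have h3 := congrArg fbd h1
      rw [map_add, fbd_fbd, add_zero, hzf, map_zero] at h3
      have h4 := DFunLike.congr_fun h3 ∅
      rw [Finsupp.single_eq_same, Finsupp.zero_apply] at h4
      exact one_ne_zero h4
    · intro i _
      obtain ⟨v, hv, hvf⟩ := D.hac 1 (z + tr (g i) z)
        (Submodule.add_mem _ hz (tr_cx D.hX _ hz)) (by
          rw [map_add, tr_fbd, hzf, tr_single, gs_empty, fadd_self])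
      refine ⟨v, hv, ?_⟩
      rw [hvf, fadd_self]
      exact Submodule.zero_mem _
  | succ m ih =>
    obtain ⟨z, hz, hz1, hz2, hz3⟩ := ih (by omega)
    obtain ⟨w, hw, hw1⟩ := hz3 m (by omega)
    refine ⟨w, hw, ?_, ?_, ?_⟩
    · have h1 := Submodule.add_mem _ (im_le m _ hw1) (im_tr (g := g) (m := m) hz)
      have e : z + tr (g m) z + fbd w + (z + tr (g m) z) = fbd w := by
        calc z + tr (g m) z + fbd w + (z + tr (g m) z)
            = (z + tr (g m) z + (z + tr (g m) z)) + fbd w := by abel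
          _ = _ := by rw [fadd_self, zero_add]
      rwa [e] at h1
    · rintro ⟨x, _, hwx⟩
      obtain ⟨y, hy, h1⟩ := im_succ hwx
      have h2 := im_fbd D.hd m (m + 1) h1
      have h3 := Submodule.add_mem _ h2 hw1
      have e : fbd (w + fbd x + (y + tr (g m) y)) + (z + tr (g m) z + fbd w) =
          (z + fbd y) + tr (g m) (z + fbd y) := by
        rw [map_add, map_add, map_add fbd y, map_add (tr (g m)), tr_fbd, fbd_fbd, add_zero]
        calc fbd w + (fbd y + tr (g m) (fbd y)) + (z + tr (g m) z + fbd w)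
            = (fbd w + fbd w) + (z + fbd y + (tr (g m) z + tr (g m) (fbd y))) := by abel
          _ = _ := by rw [fadd_self, zero_add]
      rw [e] at h3
      exact hz2 ⟨y, hy, step_inj D (by omega)
        (Submodule.add_mem _ hz (fbd_cx D.hd hy)) h3⟩
    · intro i hi
      obtain ⟨v, hv, hv1⟩ := hz3 i hi
      have hs : (w + tr (g i) w) + (v + tr (g m) v) ∈ Cx X (m + 1 + 1) :=
        Submodule.add_mem _ (Submodule.add_mem _ hw (tr_cx D.hX _ hw))
          (Submodule.add_mem _ hv (tr_cx D.hX _ hv))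
      have h1 := im_transl D.hX (h := g i) (fun j => D.hcomm i j) m _ hw1
      have h2 := im_transl D.hX (h := g m) (fun j => D.hcomm m j) m _ hv1
      have h3 := Submodule.add_mem _ (Submodule.add_mem _ hw1 h1) (Submodule.add_mem _ hv1 h2)
      have e : z + tr (g m) z + fbd w + tr (g i) (z + tr (g m) z + fbd w) +
          (z + tr (g i) z + fbd v + tr (g m) (z + tr (g i) z + fbd v)) =
          fbd ((w + tr (g i) w) + (v + tr (g m) v)) := by
        rw [map_add fbd, map_add fbd, map_add fbd, tr_fbd, tr_fbd, map_add (tr (g i)),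
          map_add (tr (g i)), map_add (tr (g m)) (z + tr (g i) z), map_add (tr (g m)) z,
          tr_comm (D.hcomm m i)]
        calc z + tr (g m) z + fbd w + (tr (g i) z + tr (g i) (tr (g m) z) + tr (g i) (fbd w)) +
            (z + tr (g i) z + fbd v + (tr (g m) z + tr (g i) (tr (g m) z) + tr (g m) (fbd v)))
            = (z + z) + (tr (g m) z + tr (g m) z) + (tr (g i) z + tr (g i) z) +
              (tr (g i) (tr (g m) z) + tr (g i) (tr (g m) z)) +
              (fbd w + tr (g i) (fbd w) + (fbd v + tr (g m) (fbd v))) := by abel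
          _ = _ := by simp only [fadd_self, add_zero, zero_add]
      rw [e] at h3
      obtain ⟨y, hy, h4⟩ := step_a D m (by omega) (m + 1) (by omega) _ hs h3
      refine ⟨y, hy, ?_⟩
      have h5 := Submodule.add_mem _ (im_le m _ h4) (im_tr (g := g) (m := m) hv)
      have e2 : w + tr (g i) w + (v + tr (g m) v) + fbd y + (v + tr (g m) v) =
          w + tr (g i) w + fbd y := by
        calc w + tr (g i) w + (v + tr (g m) v) + fbd y + (v + tr (g m) v)
            = (v + tr (g m) v + (v + tr (g m) v)) + (w + tr (g i) w + fbd y) := by abel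
          _ = _ := by rw [fadd_self, zero_add]
      rwa [e2] at h5

/-! ### The action of the free abelian group -/

private theorem free_aux {n : ℕ} (φ : Multiplicative (Fin n → ℤ) →* G) (hφ : Function.Injective φ)
    (hfin : ∀ v : V, {v} ∈ X → {g : G | g • v = v}.Finite)
    (hd : ∀ σ ∈ X, ∀ τ, τ ⊆ σ → τ ∈ X) (a : Fin n → ℤ) (i : Fin n) (ha : a i ≠ 0)
    {σ : Finset V} (hσ : σ ∈ X) (hne : σ ≠ ∅) :
    gs (φ (Multiplicative.ofAdd a)) σ ≠ σ := by
  classical
  intro h
  set δ := φ (Multiplicative.ofAdd a) with hδ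
  obtain ⟨v, hv⟩ := Finset.nonempty_iff_ne_empty.2 hne
  have hvX : {v} ∈ X := hd σ hσ _ (Finset.singleton_subset_iff.2 hv)
  have hst := hfin v hvX
  have hinj : Function.Injective (fun t : ℕ => δ ^ t) := by
    intro s t hst
    have h1 : φ (Multiplicative.ofAdd a ^ s) = φ (Multiplicative.ofAdd a ^ t) := by
      rw [map_pow, map_pow]
      exact hst
    have h2 := hφ h1
    rw [← ofAdd_nsmul, ← ofAdd_nsmul] at h2
    have h3 : s • a = t • a := Multiplicative.ofAdd.injective h2
    have h4 := congrFun h3 i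
    rw [Pi.smul_apply, Pi.smul_apply, nsmul_eq_mul, nsmul_eq_mul] at h4
    exact_mod_cast mul_right_cancel₀ ha h4
  have hmem : ∀ t : ℕ, gs (δ ^ t) σ = σ := by
    intro t
    induction t with
    | zero => rw [pow_zero, gs_one]
    | succ t ih => rw [pow_succ', gs_mul, ih, h]
  have hfinS : {g : G | g • v ∈ σ}.Finite := by
    have h1 : {g : G | g • v ∈ σ} = ⋃ u ∈ σ, {g : G | g • v = u} := by
      ext g
      simp
    rw [h1]
    refine Set.Finite.biUnion σ.finite_toSet ?_
    intro u _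
    by_cases hu : ∃ g0 : G, g0 • v = u
    · obtain ⟨g0, rfl⟩ := hu
      refine (hst.image (fun g => g0 * g)).subset ?_
      intro g hg
      refine ⟨g0⁻¹ * g, ?_, ?_⟩
      · show (g0⁻¹ * g) • v = v
        rw [mul_smul, show g • v = g0 • v from hg, inv_smul_smul]
      · show g0 * (g0⁻¹ * g) = g
        rw [mul_inv_cancel_left]
    · convert Set.finite_empty
      ext g
      exact ⟨fun hg => (hu ⟨g, hg⟩).elim, fun hg => hg.elim⟩
  refine Set.infinite_of_injective_forall_mem hinj (s := {g : G | g • v ∈ σ}) ?_ hfinS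
  intro t
  show (δ ^ t) • v ∈ σ
  have h1 : (δ ^ t) • v ∈ gs (δ ^ t) σ := mem_gs.2 ⟨v, hv, rfl⟩
  rwa [hmem] at h1

private theorem free_dat {n : ℕ} (φ : Multiplicative (Fin n → ℤ) →* G) (hφ : Function.Injective φ)
    (hfin : ∀ v : V, {v} ∈ X → {g : G | g • v = v}.Finite)
    (hd : ∀ σ ∈ X, ∀ τ, τ ⊆ σ → τ ∈ X) (g : ℕ → G)
    (hg : ∀ i (hi : i < n), g i = φ (Multiplicative.ofAdd (Pi.single ⟨i, hi⟩ 1))) :
    ∀ m < n, ∀ j : ℕ, 0 < j → ∀ σ ∈ X, σ ≠ ∅ →
      ∀ γ ∈ Subgroup.closure (g '' {i | i < m}), gs (g m ^ j) σ ≠ gs γ σ := by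
  intro m hm j hj σ hσ hne γ hγ h
  obtain ⟨b, hb, hb0⟩ : ∃ b : Fin n → ℤ, γ = φ (Multiplicative.ofAdd b) ∧ b ⟨m, hm⟩ = 0 := by
    refine Subgroup.closure_induction (p := fun γ _ => ∃ b : Fin n → ℤ,
      γ = φ (Multiplicative.ofAdd b) ∧ b ⟨m, hm⟩ = 0) ?_ ?_ ?_ ?_ hγ
    · rintro _ ⟨i, hi, rfl⟩
      have hi' : i < m := hi
      refine ⟨Pi.single ⟨i, by omega⟩ 1, hg i _, ?_⟩
      rw [Pi.single_apply, if_neg]
      intro he
      have := congrArg Fin.val he
      simp at this
      omega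
    · exact ⟨0, by rw [ofAdd_zero, map_one], rfl⟩
    · rintro x y _ _ ⟨b, hb, hb0⟩ ⟨b', hb', hb0'⟩
      refine ⟨b + b', by rw [hb, hb', ← map_mul, ofAdd_add], ?_⟩
      rw [Pi.add_apply, hb0, hb0', add_zero]
    · rintro x _ ⟨b, hb, hb0⟩
      refine ⟨-b, by rw [hb, ← map_inv, ofAdd_neg], ?_⟩
      rw [Pi.neg_apply, hb0, neg_zero]
  have h1 : gs (γ⁻¹ * g m ^ j) σ = σ := by
    rw [gs_mul, h, ← gs_mul, inv_mul_cancel, gs_one]
  have h2 : γ⁻¹ * g m ^ j =
      φ (Multiplicative.ofAdd (-b + j • (Pi.single ⟨m, hm⟩ 1 : Fin n → ℤ))) := by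
    rw [ofAdd_add, map_mul, ofAdd_neg, map_inv, ← hb, ofAdd_nsmul, map_pow, ← hg m hm]
  rw [h2] at h1
  refine free_aux φ hφ hfin hd _ ⟨m, hm⟩ ?_ hσ hne h1
  rw [Pi.add_apply, Pi.neg_apply, hb0, neg_zero, zero_add, Pi.smul_apply, Pi.single_eq_same]
  simp
  omega

end

/-- A free abelian subgroup of a group acting with finite vertex stabilisers on a complex of
dimension at most `d`, acyclic mod 2, has rank at most `d`. -/
theorem rank_le_of_proper {G : Type} [Group G] {d n : ℕ} (h : ProperDim G d)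
    (φ : Multiplicative (Fin n → ℤ) →* G) (hφ : Function.Injective φ) : n ≤ d := by
  classical
  obtain ⟨V, _, X, h0, hd, hX, hdim, hfin, hac⟩ := h
  have hX' : ∀ h : G, ∀ σ ∈ X, gs h σ ∈ X := by
    intro h σ hσ
    have h1 := hX h σ hσ
    have e : gs h σ = σ.image (fun v => h • v) := by
      ext v
      rw [mem_gs, Finset.mem_image]
    rw [e]
    convert h1
  set g : ℕ → G := fun i => if hi : i < n then
    φ (Multiplicative.ofAdd (Pi.single ⟨i, hi⟩ 1)) else 1 with hg
  have hgi : ∀ i (hi : i < n), g i = φ (Multiplicative.ofAdd (Pi.single ⟨i, hi⟩ 1)) := by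
    intro i hi
    rw [hg]
    simp only [hi, dite_true]
  have hgφ : ∀ i, ∃ a, g i = φ a := by
    intro i
    by_cases hi : i < n
    · exact ⟨_, hgi i hi⟩
    · refine ⟨1, ?_⟩
      rw [map_one, hg]
      simp only [hi, dite_false]
  have D : Dat X g n :=
    { h0 := h0
      hd := hd
      hX := hX'
      hac := fun k c hc hf => pr_graded X hac k c hc hf
      hcomm := by
        intro i j
        obtain ⟨a, ha⟩ := hgφ i
        obtain ⟨b, hb⟩ := hgφ j
        rw [ha, hb, ← map_mul, ← map_mul, mul_comm]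
      hfree := free_dat φ hφ hfin hd g hgi }
  obtain ⟨z, hz, -, hz2, -⟩ := step_b D n le_rfl
  have hz0 : z ≠ 0 := by
    rintro rfl
    exact hz2 ⟨0, Submodule.zero_mem _, by
      rw [map_zero, add_zero]
      exact Submodule.zero_mem _⟩
  obtain ⟨σ, hσ⟩ := Finsupp.support_nonempty_iff.2 hz0
  have h1 := on_iff.1 hz σ hσ
  have h2 := hdim σ h1.2
  have h3 := h1.1
  omega

end Pool.Agent.VD
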