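import Pool.Agent.VD.Prod
/-!
# Uniform fillings in finite parts of the product complex
-/
namespace Pool.Agent.VD
open Pool.Agent.SLX Pool.Agent.VN Pool.Agent.VS

/-- There are finitely many mod 2 chains with a given finite set of simplices. -/
theorem fch_finite {V : Type} (T : Finset (Finset V)) : {c : FCh V | c.support ⊆ T}.Finite := by
  classical
  have h1 : ((fun c : FCh V => c.support) '' {c : FCh V | c.support ⊆ T}).Finite := by
    refine (T.powerset.finite_toSet).subset ?_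
    rintro _ ⟨c, hc, rfl⟩
    exact Finset.mem_coe.2 (Finset.mem_powerset.2 hc)
  refine Set.Finite.of_finite_image h1 ?_
  intro c _ c' _ h
  have h2 : c.support = c'.support := h
  ext σ
  by_cases hs : σ ∈ c.support
  · have h3 : c σ ≠ 0 := Finsupp.mem_support_iff.1 hs
    have h4 : c' σ ≠ 0 := Finsupp.mem_support_iff.1 (h2 ▸ hs)
    rw [(Fin.eq_one_of_ne_zero (c σ) h3 : c σ = 1),
      (Fin.eq_one_of_ne_zero (c' σ) h4 : c' σ = 1)]
  · have h4 : σ ∉ c'.support := h2 ▸ hs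
    rw [Finsupp.notMem_support_iff.1 hs, Finsupp.notMem_support_iff.1 h4]

/-- Uniform fillings. -/
theorem exists_ch {V : Type} (X : Set (Finset V)) (h0 : ∅ ∈ X)
    (hd : ∀ σ ∈ X, ∀ τ, τ ⊆ σ → τ ∈ X)
    (hac : ∀ c : FCh V, (∀ σ ∈ c.support, σ ∈ X) → fbd c = 0 →
      ∃ e : FCh V, (∀ σ ∈ e.support, σ ∈ X) ∧ fbd e = c) (k : ℕ) (W : Finset V)
    (hW : ∀ v ∈ W, {v} ∈ X) :
    ∃ W' : Finset V, W ⊆ W' ∧ (∀ v ∈ W', {v} ∈ X) ∧
      ∀ c ∈ On (fun τ : Finset (V × V) => τ.card = k ∧ X2 X τ ∧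
        ∀ p ∈ τ, p.1 ∈ W ∧ p.2 ∈ W), fbd c = 0 →
      ∃ e ∈ On (fun τ : Finset (V × V) => τ.card = k + 1 ∧ X2 X τ ∧
        ∀ p ∈ τ, p.1 ∈ W' ∧ p.2 ∈ W'), fbd e = c := by
  classical
  set S : Set (FCh (V × V)) := {c | c ∈ On (fun τ : Finset (V × V) => τ.card = k ∧ X2 X τ ∧
        ∀ p ∈ τ, p.1 ∈ W ∧ p.2 ∈ W) ∧ fbd c = 0} with hS
  have hfin : S.Finite := by
    refine (fch_finite ((W ×ˢ W).powerset)).subset ?_
    rintro c ⟨hc, -⟩ τ hτ
    rw [Finset.mem_powerset]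
    intro p hp
    rw [Finset.mem_product]
    exact (on_iff.1 hc τ hτ).2.2 p hp
  have hex : ∀ c : FCh (V × V), ∃ e : FCh (V × V), c ∈ S →
      e ∈ On (fun τ : Finset (V × V) => τ.card = k + 1 ∧ X2 X τ) ∧ fbd e = c := by
    intro c
    by_cases hc : c ∈ S
    · obtain ⟨e, he, hec⟩ := prod_acyclic X h0 hd hac k c
        (on_mono (fun τ h => ⟨h.1, h.2.1⟩) hc.1) hc.2
      exact ⟨e, fun _ => ⟨he, hec⟩⟩
    · exact ⟨0, fun h => absurd h hc⟩
  choose e he using hex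
  refine ⟨W ∪ hfin.toFinset.biUnion (fun c => (e c).support.biUnion
    (fun τ => τ.image Prod.fst ∪ τ.image Prod.snd)), Finset.subset_union_left, ?_, ?_⟩
  · intro v hv
    rcases Finset.mem_union.1 hv with hv | hv
    · exact hW v hv
    · obtain ⟨c, hc, hv⟩ := Finset.mem_biUnion.1 hv
      obtain ⟨τ, hτ, hv⟩ := Finset.mem_biUnion.1 hv
      have h1 := (he c (hfin.mem_toFinset.1 hc)).1
      have h2 := (on_iff.1 h1 τ hτ).2
      rcases Finset.mem_union.1 hv with hv | hv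
      · exact hd _ h2.1 _ (Finset.singleton_subset_iff.2 hv)
      · exact hd _ h2.2 _ (Finset.singleton_subset_iff.2 hv)
  · intro c hc hcyc
    have hcS : c ∈ S := ⟨hc, hcyc⟩
    obtain ⟨h1, h2⟩ := he c hcS
    refine ⟨e c, on_iff.2 fun τ hτ => ?_, h2⟩
    obtain ⟨h3, h4⟩ := on_iff.1 h1 τ hτ
    have hsub : ∀ v, v ∈ τ.image Prod.fst ∪ τ.image Prod.snd → v ∈ W ∪
        hfin.toFinset.biUnion (fun c => (e c).support.biUnion
          (fun τ => τ.image Prod.fst ∪ τ.image Prod.snd)) := by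
      intro v hv
      refine Finset.mem_union_right _ (Finset.mem_biUnion.2 ⟨c, hfin.mem_toFinset.2 hcS, ?_⟩)
      exact Finset.mem_biUnion.2 ⟨τ, hτ, hv⟩
    refine ⟨h3, h4, fun p hp => ⟨hsub _ ?_, hsub _ ?_⟩⟩
    · exact Finset.mem_union_left _ (Finset.mem_image_of_mem _ hp)
    · exact Finset.mem_union_right _ (Finset.mem_image_of_mem _ hp)

end Pool.Agent.VD
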