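import Pool.Agent.VD.Prod
/-!
# Actions on acyclic complexes: subgroups and overgroups of finite index
-/
namespace Pool.Agent.VD
open Pool.Agent.SLX Pool.Agent.VN Pool.Agent.VS

/-- Acyclic mod 2. -/
private def Ac {V : Type} (X : Set (Finset V)) : Prop :=
  ∀ c : FCh V, (∀ σ ∈ c.support, σ ∈ X) → fbd c = 0 →
    ∃ e : FCh V, (∀ σ ∈ e.support, σ ∈ X) ∧ fbd e = c

private theorem ac_graded {V : Type} {X : Set (Finset V)}
    (h : ∀ k, ∀ c ∈ On (fun σ : Finset V => σ.card = k ∧ σ ∈ X), fbd c = 0 →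
      ∃ e ∈ On (fun σ : Finset V => σ.card = k + 1 ∧ σ ∈ X), fbd e = c) : Ac X := by
  classical
  have key : ∀ N : ℕ, ∀ c ∈ On (fun σ : Finset V => σ.card < N ∧ σ ∈ X), fbd c = 0 →
      ∃ e ∈ On (fun σ : Finset V => σ ∈ X), fbd e = c := by
    intro N
    induction N with
    | zero =>
      intro c hc _
      have : c = 0 := by
        ext σ
        by_contra hne
        exact absurd (on_iff.1 hc σ (Finsupp.mem_support_iff.2 hne)).1 (Nat.not_lt_zero _)
      exact ⟨0, Submodule.zero_mem _, by rw [map_zero, this]⟩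
    | succ N ih =>
      intro c hc h0
      set c1 := c.filter (fun σ => σ.card = N) with hc1
      set c2 := c.filter (fun σ => ¬ σ.card = N) with hc2
      have hsum : c1 + c2 = c := Finsupp.filter_add_filter_not c _
      have h1 : c1 ∈ On (fun σ : Finset V => σ.card = N ∧ σ ∈ X) := by
        rw [on_iff]
        intro σ hσ
        rw [hc1, Finsupp.support_filter, Finset.mem_filter] at hσ
        exact ⟨hσ.2, (on_iff.1 hc σ hσ.1).2⟩
      have h2 : c2 ∈ On (fun σ : Finset V => σ.card < N ∧ σ ∈ X) := by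
        rw [on_iff]
        intro σ hσ
        rw [hc2, Finsupp.support_filter, Finset.mem_filter] at hσ
        have := on_iff.1 hc σ hσ.1
        exact ⟨by have := this.1; have := hσ.2; omega, this.2⟩
      have h3 : fbd c1 ∈ On (fun σ : Finset V => σ.card + 1 = N) :=
        fbd_on (fun σ τ hσ _ hc => by have := hσ.1; omega) h1
      have h4 : fbd c2 ∈ On (fun σ : Finset V => σ.card + 1 < N) :=
        fbd_on (fun σ τ hσ _ hc => by have := hσ.1; omega) h2
      have h5 : fbd c1 + fbd c2 = 0 := by rw [← map_add, hsum, h0]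
      have h6 : fbd c2 = fbd c1 := by
        have h7 : fbd c1 + (fbd c1 + fbd c2) = fbd c1 := by rw [h5, add_zero]
        rwa [← add_assoc, fadd_self, zero_add] at h7
      have h8 : fbd c1 = 0 := by
        ext τ
        by_contra hne
        have h9 := Finsupp.mem_support_iff.2 hne
        have h10 := on_iff.1 h3 τ h9
        rw [← h6] at h9
        have h11 := on_iff.1 h4 τ h9
        omega
      obtain ⟨e1, he1, he1'⟩ := h N c1 h1 h8
      obtain ⟨e2, he2, he2'⟩ := ih c2 h2 (by rw [h6, h8])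
      refine ⟨e1 + e2, Submodule.add_mem _ (on_mono (fun σ hσ => hσ.2) he1) he2, ?_⟩
      rw [map_add, he1', he2', hsum]
  intro c hc h0
  obtain ⟨e, he, hec⟩ := key (c.support.sup Finset.card + 1) c (on_iff.2 fun σ hσ =>
    ⟨Nat.lt_succ_of_le (Finset.le_sup hσ), hc σ hσ⟩) h0
  exact ⟨e, he, hec⟩

private theorem ac_x2 {V : Type} {X : Set (Finset V)} (h0 : ∅ ∈ X)
    (hd : ∀ σ ∈ X, ∀ τ, τ ⊆ σ → τ ∈ X) (h : Ac X) : Ac {τ : Finset (V × V) | X2 X τ} :=
  ac_graded (X := {τ : Finset (V × V) | X2 X τ}) (prod_acyclic X h0 hd h)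

private theorem ac_retract {V W : Type} {X : Set (Finset V)} {Y : Set (Finset W)}
    (s : W → V) (r : V → W) (hrs : ∀ w, r (s w) = w)
    (hs : ∀ σ ∈ Y, ∀ τ : Finset V, (∀ y, y ∈ τ ↔ ∃ x ∈ σ, s x = y) → τ ∈ X)
    (hr : ∀ σ ∈ X, ∀ τ : Finset W, (∀ y, y ∈ τ ↔ ∃ x ∈ σ, r x = y) → τ ∈ Y) (h : Ac X) : Ac Y := by
  intro c hc h0
  have h1 : fmap s c ∈ On (fun σ : Finset V => σ ∈ X) :=
    fmap_on (P := fun σ => σ ∈ Y) s (fun σ τ hσ _ hm => hs σ hσ τ hm) (on_iff.2 hc)
  obtain ⟨e, he, hec⟩ := h (fmap s c) (on_iff.1 h1) (by rw [fbd_fmap, h0, map_zero])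
  have h2 : fmap r e ∈ On (fun σ : Finset W => σ ∈ Y) :=
    fmap_on (P := fun σ => σ ∈ X) r (fun σ τ hσ _ hm => hr σ hσ τ hm) (on_iff.2 he)
  refine ⟨fmap r e, on_iff.1 h2, ?_⟩
  rw [fbd_fmap, hec, fmap_fmap]
  have : (fun x => r (s x)) = fun x => x := by
    funext x
    exact hrs x
  rw [this, fmap_id]

/-- The power of a complex. -/
private def PX {V : Type} (I : Type) (X : Set (Finset V)) : Set (Finset (I → V)) :=
  {τ | ∀ i, ∃ σ ∈ X, ∀ f ∈ τ, f i ∈ σ}

private theorem px_empty {V I : Type} {X : Set (Finset V)} (h0 : ∅ ∈ X) : ∅ ∈ PX I X :=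
  fun _ => ⟨∅, h0, fun f hf => absurd hf (Finset.notMem_empty f)⟩

private theorem px_down {V I : Type} {X : Set (Finset V)} :
    ∀ σ ∈ PX I X, ∀ τ, τ ⊆ σ → τ ∈ PX I X := by
  intro σ hσ τ hτ i
  obtain ⟨ρ, h1, h2⟩ := hσ i
  exact ⟨ρ, h1, fun f hf => h2 f (hτ hf)⟩

private theorem ac_sum {V I : Type} {X : Set (Finset V)} (h0 : ∅ ∈ X)
    (h : Ac (PX I X)) : Ac (PX (I ⊕ I) X) := by
  classical
  refine ac_retract (X := {τ : Finset ((I → V) × (I → V)) | X2 (PX I X) τ})
    (fun f => (fun i => f (Sum.inl i), fun i => f (Sum.inr i)))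
    (fun p => Sum.elim p.1 p.2) ?_ ?_ ?_ (ac_x2 (px_empty h0) px_down h)
  · intro f
    funext i
    cases i <;> rfl
  · intro σ hσ τ hm
    constructor
    · intro i
      obtain ⟨ρ, h1, h2⟩ := hσ (Sum.inl i)
      refine ⟨ρ, h1, ?_⟩
      intro f hf
      obtain ⟨p, hp, rfl⟩ := Finset.mem_image.1 hf
      obtain ⟨x, hx, rfl⟩ := (hm p).1 hp
      exact h2 x hx
    · intro i
      obtain ⟨ρ, h1, h2⟩ := hσ (Sum.inr i)
      refine ⟨ρ, h1, ?_⟩
      intro f hf
      obtain ⟨p, hp, rfl⟩ := Finset.mem_image.1 hf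
      obtain ⟨x, hx, rfl⟩ := (hm p).1 hp
      exact h2 x hx
  · rintro σ ⟨hσ1, hσ2⟩ τ hm i
    cases i with
    | inl i =>
      obtain ⟨ρ, h1, h2⟩ := hσ1 i
      refine ⟨ρ, h1, fun f hf => ?_⟩
      obtain ⟨x, hx, rfl⟩ := (hm f).1 hf
      exact h2 x.1 (Finset.mem_image.2 ⟨x, hx, rfl⟩)
    | inr i =>
      obtain ⟨ρ, h1, h2⟩ := hσ2 i
      refine ⟨ρ, h1, fun f hf => ?_⟩
      obtain ⟨x, hx, rfl⟩ := (hm f).1 hf
      exact h2 x.2 (Finset.mem_image.2 ⟨x, hx, rfl⟩)

private theorem ac_pow {V : Type} {X : Set (Finset V)} (h0 : ∅ ∈ X)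
    (hd : ∀ σ ∈ X, ∀ τ, τ ⊆ σ → τ ∈ X) (h : Ac X) :
    ∀ j : ℕ, ∃ (I : Type) (_ : Fintype I), Fintype.card I = 2 ^ j ∧ Ac (PX I X) := by
  intro j
  induction j with
  | zero =>
    refine ⟨Unit, inferInstance, by simp, ?_⟩
    refine ac_retract (X := X) (fun f => f ()) (fun v _ => v) ?_ ?_ ?_ h
    · intro f
      rfl
    · intro σ hσ τ hm
      obtain ⟨ρ, h1, h2⟩ := hσ ()
      refine hd ρ h1 τ fun y hy => ?_
      obtain ⟨x, hx, rfl⟩ := (hm y).1 hy
      exact h2 x hx
    · intro σ hσ τ hm _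
      refine ⟨σ, hσ, fun f hf => ?_⟩
      obtain ⟨x, hx, rfl⟩ := (hm f).1 hf
      exact hx
  | succ j ih =>
    obtain ⟨I, _, hI, hac⟩ := ih
    exact ⟨I ⊕ I, inferInstance, by rw [Fintype.card_sum, hI]; ring, ac_sum h0 hac⟩

private theorem ac_px {V : Type} {X : Set (Finset V)} (h0 : ∅ ∈ X)
    (hd : ∀ σ ∈ X, ∀ τ, τ ⊆ σ → τ ∈ X) (h : Ac X) (K : Type) [Fintype K] [Nonempty K] :
    Ac (PX K X) := by
  obtain ⟨I, _, hI, hac⟩ := ac_pow h0 hd h (Fintype.card K)
  obtain ⟨e⟩ : Nonempty (K ↪ I) :=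
    Function.Embedding.nonempty_of_card_le (by rw [hI]; exact (Nat.lt_two_pow_self).le)
  have hρ : ∀ k, Function.invFun e (e k) = k := Function.leftInverse_invFun e.injective
  refine ac_retract (X := PX I X) (fun f i => f (Function.invFun e i)) (fun F k => F (e k))
    ?_ ?_ ?_ hac
  · intro f
    funext k
    exact congrArg f (hρ k)
  · intro σ hσ τ hm i
    obtain ⟨ρ, h1, h2⟩ := hσ (Function.invFun e i)
    refine ⟨ρ, h1, fun f hf => ?_⟩
    obtain ⟨x, hx, rfl⟩ := (hm f).1 hf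
    exact h2 x hx
  · intro σ hσ τ hm k
    obtain ⟨ρ, h1, h2⟩ := hσ (e k)
    refine ⟨ρ, h1, fun f hf => ?_⟩
    obtain ⟨x, hx, rfl⟩ := (hm f).1 hf
    exact h2 x hx

/-- Subgroups. -/
theorem properDim_subgroup {G : Type} [Group G] {d : ℕ} (h : ProperDim G d) (H : Subgroup G) :
    ProperDim H d := by
  obtain ⟨V, _, X, h0, hd, hG, hdim, hst, hac⟩ := h
  refine ⟨V, inferInstance, X, h0, hd, fun g σ hσ => hG g σ hσ, hdim, ?_, hac⟩
  intro v hv
  exact Set.Finite.of_finite_image (f := fun g : H => (g : G))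
    ((hst v hv).subset (by rintro _ ⟨g, hg, rfl⟩; exact hg)) Subtype.val_injective.injOn

/-! ## Finite index overgroups: the coinduced complex -/

section COIND
variable {G : Type} [Group G] {V : Type}

/-- Equivariant maps. -/
private def Co (H : Subgroup G) (V : Type) [MulAction H V] : Type :=
  {f : G → V // ∀ (h : H) (g : G), f (h * g) = h • f g}

private instance coAct (H : Subgroup G) (V : Type) [MulAction H V] : MulAction G (Co H V) where
  smul x f := ⟨fun g => f.1 (g * x), fun h g => by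
    show f.1 (h * g * x) = h • f.1 (g * x)
    rw [mul_assoc, f.2]⟩
  one_smul f := Subtype.ext (by
    funext g
    exact congrArg f.1 (mul_one g))
  mul_smul x y f := Subtype.ext (by
    funext g
    exact congrArg f.1 (mul_assoc g x y).symm)

private theorem co_smul {H : Subgroup G} [MulAction H V] (x : G) (f : Co H V) (g : G) :
    (x • f).1 g = f.1 (g * x) := rfl

/-- The coinduced complex. -/
private def CX (H : Subgroup G) [MulAction H V] (X : Set (Finset V)) : Set (Finset (Co H V)) :=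
  {τ | ∀ g : G, ∃ σ ∈ X, ∀ f ∈ τ, f.1 g ∈ σ}

/-- Right cosets. -/
private abbrev RC (H : Subgroup G) : Type := Quotient (QuotientGroup.rightRel H)

private theorem rc_mem (H : Subgroup G) (g : G) :
    g * (Quotient.out (Quotient.mk (QuotientGroup.rightRel H) g))⁻¹ ∈ H :=
  QuotientGroup.rightRel_apply.1 (Quotient.mk_out (s := QuotientGroup.rightRel H) g)

private theorem rc_mul (H : Subgroup G) (h : H) (g : G) :
    Quotient.mk (QuotientGroup.rightRel H) ((h : G) * g) =
      Quotient.mk (QuotientGroup.rightRel H) g := by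
  apply Quotient.sound
  refine QuotientGroup.rightRel_apply.2 ?_
  have : g * ((h : G) * g)⁻¹ = (h : G)⁻¹ := by group
  rw [this]
  exact H.inv_mem h.2

/-- Extension by equivariance. -/
private noncomputable def ext (H : Subgroup G) [MulAction H V] (F : RC H → V) : Co H V :=
  ⟨fun g => (⟨_, rc_mem H g⟩ : H) • F (Quotient.mk _ g), fun h g => by
    show (⟨_, rc_mem H ((h : G) * g)⟩ : H) • F (Quotient.mk _ ((h : G) * g)) =
      h • (⟨_, rc_mem H g⟩ : H) • F (Quotient.mk _ g)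
    have e1 : F (Quotient.mk _ ((h : G) * g)) = F (Quotient.mk _ g) := congrArg F (rc_mul H h g)
    rw [← mul_smul, e1]
    congr 1
    apply Subtype.ext
    show (h : G) * g * (Quotient.out (Quotient.mk (QuotientGroup.rightRel H) ((h : G) * g)))⁻¹ =
      (h : G) * (g * (Quotient.out (Quotient.mk (QuotientGroup.rightRel H) g))⁻¹)
    rw [rc_mul, mul_assoc]⟩

private theorem ext_apply (H : Subgroup G) [MulAction H V] (F : RC H → V) (g : G) :
    (ext H F).1 g = (⟨_, rc_mem H g⟩ : H) • F (Quotient.mk _ g) := rfl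

private theorem ext_res (H : Subgroup G) [MulAction H V] (f : Co H V) :
    ext H (fun k => f.1 (Quotient.out k)) = f := by
  apply Subtype.ext
  funext g
  rw [ext_apply, ← f.2]
  apply congrArg f.1
  show g * (Quotient.out (Quotient.mk (QuotientGroup.rightRel H) g))⁻¹ *
    Quotient.out (Quotient.mk (QuotientGroup.rightRel H) g) = g
  rw [inv_mul_cancel_right]

end COIND

open Classical in
/-- Overgroups of finite index. -/
theorem properDim_of_finiteIndex {G : Type} [Group G] (H : Subgroup G) [H.FiniteIndex] {d : ℕ}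
    (h : ProperDim H d) : ProperDim G ((d + 1) ^ H.index - 1) := by
  obtain ⟨V, _, X, h0, hd, hG, hdim, hst, hac⟩ := h
  have hfin : Finite (RC H) :=
    Finite.of_equiv _ (QuotientGroup.quotientRightRelEquivQuotientLeftRel H).symm
  have : Fintype (RC H) := Fintype.ofFinite _
  have : Nonempty (RC H) := ⟨Quotient.mk _ 1⟩
  have hcard : Fintype.card (RC H) = H.index := by
    rw [← Nat.card_eq_fintype_card, Subgroup.index]
    exact Nat.card_congr (QuotientGroup.quotientRightRelEquivQuotientLeftRel H)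
  have hsmul : ∀ (a : H) (σ : Finset V), σ ∈ X → ∃ ρ ∈ X, ∀ v ∈ σ, a • v ∈ ρ := by
    intro a σ hσ
    exact ⟨_, hG a σ hσ, fun v hv => Finset.mem_image.2 ⟨v, hv, rfl⟩⟩
  refine ⟨Co H V, coAct H V, CX H X, ?_, ?_, ?_, ?_, ?_, ?_⟩
  · exact fun _ => ⟨∅, h0, fun f hf => absurd hf (Finset.notMem_empty f)⟩
  · intro σ hσ τ hτ g
    obtain ⟨ρ, h1, h2⟩ := hσ g
    exact ⟨ρ, h1, fun f hf => h2 f (hτ hf)⟩
  · intro x σ hσ g
    obtain ⟨ρ, h1, h2⟩ := hσ (g * x)
    refine ⟨ρ, h1, fun f hf => ?_⟩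
    obtain ⟨f', hf', rfl⟩ := Finset.mem_image.1 hf
    exact h2 f' hf'
  · intro σ hσ
    have h1 : ∀ k : RC H, ∃ ρ ∈ X, ∀ f ∈ σ, f.1 (Quotient.out k) ∈ ρ := fun k => hσ _
    choose ρ hρ hρ' using h1
    have h2 : σ.card ≤ (Fintype.piFinset ρ).card := by
      refine Finset.card_le_card_of_injOn (fun f k => f.1 (Quotient.out k)) ?_ ?_
      · intro f hf
        exact Fintype.mem_piFinset.2 fun k => hρ' k f hf
      · intro f _ f' _ hff
        have h3 := congrArg (ext H) hff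
        exact (ext_res H f).symm.trans (h3.trans (ext_res H f'))
    have h3 : (Fintype.piFinset ρ).card ≤ (d + 1) ^ H.index := by
      rw [Fintype.card_piFinset, ← hcard, ← Finset.card_univ]
      exact Finset.prod_le_pow_card _ _ _ fun k _ => hdim _ (hρ k)
    have h4 : 0 < (d + 1) ^ H.index := Nat.pow_pos (Nat.succ_pos d)
    omega
  · intro f hf
    have h1 : {f.1 1} ∈ X := by
      obtain ⟨ρ, h2, h3⟩ := hf 1
      exact hd ρ h2 _ (Finset.singleton_subset_iff.2 (h3 f (Finset.mem_singleton_self f)))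
    have h2 := hst _ h1
    let S : Subgroup G := MulAction.stabilizer G f
    have h2' : Finite {g : H | g • f.1 1 = f.1 1} := h2.to_subtype
    have h3 : Finite (H.subgroupOf S) := by
      refine Finite.of_injective (β := {g : H | g • f.1 1 = f.1 1})
        (fun x => ⟨⟨(x : S), Subgroup.mem_subgroupOf.1 x.2⟩, ?_⟩) ?_
      · have h4 : ((x : S) : G) • f = f := MulAction.mem_stabilizer_iff.1 (x : S).2
        have h5 : (((x : S) : G) • f).1 1 = f.1 1 := by rw [h4]
        rw [co_smul, one_mul] at h5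
        have h6 := f.2 ⟨((x : S) : G), Subgroup.mem_subgroupOf.1 x.2⟩ 1
        rw [mul_one] at h6
        show (⟨((x : S) : G), Subgroup.mem_subgroupOf.1 x.2⟩ : H) • f.1 1 = f.1 1
        rw [← h6]
        exact h5
      · intro x y hxy
        have h4 := congrArg (fun z : {g : H | g • f.1 1 = f.1 1} => ((z : H) : G)) hxy
        exact Subtype.ext (Subtype.ext h4)
    have h4 : Finite S := by
      have h5 := Subgroup.card_mul_index (H.subgroupOf S)
      have h6 : Nat.card (H.subgroupOf S) ≠ 0 := Nat.card_pos.ne'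
      have h7 : (H.subgroupOf S).index ≠ 0 := Subgroup.FiniteIndex.index_ne_zero
      refine Nat.finite_of_card_ne_zero ?_
      rw [← h5]
      exact Nat.mul_ne_zero h6 h7
    exact Set.toFinite (S : Set G)
  · refine ac_retract (X := PX (RC H) X) (fun f k => f.1 (Quotient.out k)) (ext H)
      (ext_res H) ?_ ?_ (ac_px h0 hd hac (RC H))
    · intro σ hσ τ hm k
      obtain ⟨ρ, h1, h2⟩ := hσ (Quotient.out k)
      refine ⟨ρ, h1, fun F hF => ?_⟩
      obtain ⟨x, hx, rfl⟩ := (hm F).1 hF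
      exact h2 x hx
    · intro σ hσ τ hm g
      obtain ⟨ρ, h1, h2⟩ := hσ (Quotient.mk _ g)
      obtain ⟨ρ', h3, h4⟩ := hsmul ⟨_, rc_mem H g⟩ ρ h1
      refine ⟨ρ', h3, fun f hf => ?_⟩
      obtain ⟨x, hx, rfl⟩ := (hm f).1 hf
      exact h4 _ (h2 x hx)

end Pool.Agent.VD
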